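import Pool.Agent.LWL.Logic

/-!
# Gluing over admissible rings
-/

namespace Pool.Agent.LWL

open Finset Classical

/-- central elements that separate the primes `2` and `3` -/
theorem adm_pq {R : Type} [Ring R] (hR : Adm R) (α β : ℕ) :
    ∃ p q i j : Subring.center R, p * i * 2 ^ α + q * j * 3 ^ β = 1 ∧ p * j = 0 ∧ q * i = 0 := by
  have hcen : ∀ n : ℕ, IsUnit (n : R) → ∃ c : Subring.center R, c * (n : Subring.center R) = 1 := by
    rintro n ⟨u, hu⟩
    have h1 : ∀ g : R, g * (↑u⁻¹ : R) = ↑u⁻¹ * g := by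
      intro g
      have h2 : Commute (u : R) g := by rw [hu]; exact Nat.cast_commute n g
      exact (h2.units_inv_left).symm
    refine ⟨⟨↑u⁻¹, Subring.mem_center_iff.2 h1⟩, Subtype.ext ?_⟩
    change (↑u⁻¹ : R) * ((n : Subring.center R) : R) = 1
    rw [Subring.coe_natCast, ← hu, Units.inv_mul]
  rcases hR with h | h | ⟨n, hn, h⟩
  · obtain ⟨c, hc⟩ := hcen 2 (by exact_mod_cast h)
    refine ⟨1, 0, c ^ α, 0, ?_, by simp, by simp⟩
    rw [one_mul, zero_mul, zero_mul, add_zero, ← mul_pow]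
    have : c * 2 = 1 := by exact_mod_cast hc
    rw [this, one_pow]
  · obtain ⟨c, hc⟩ := hcen 3 (by exact_mod_cast h)
    refine ⟨0, 1, 0, c ^ β, ?_, by simp, by simp⟩
    rw [one_mul, zero_mul, zero_mul, zero_add, ← mul_pow]
    have : c * 3 = 1 := by exact_mod_cast hc
    rw [this, one_pow]
  · obtain ⟨s, t, ht, hnt⟩ := Nat.exists_eq_two_pow_mul_odd hn.ne'
    have hn0 : ((2 : Subring.center R) ^ s) * (t : Subring.center R) = 0 := by
      have h1 : ((n : ℕ) : Subring.center R) = 0 := Subtype.ext (by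
        change ((n : Subring.center R) : R) = 0
        rw [Subring.coe_natCast, h])
      rw [hnt] at h1
      exact_mod_cast h1
    have c1 : IsCoprime ((2 : ℤ) ^ s) (t : ℤ) := by
      have h1 : Nat.Coprime (2 ^ s) t :=
        Nat.Coprime.pow_left _ (Nat.coprime_two_left.2 ht)
      exact_mod_cast Nat.isCoprime_iff_coprime.2 h1
    have c2 : IsCoprime ((2 : ℤ) ^ α) (t : ℤ) := by
      have h1 : Nat.Coprime (2 ^ α) t :=
        Nat.Coprime.pow_left _ (Nat.coprime_two_left.2 ht)
      exact_mod_cast Nat.isCoprime_iff_coprime.2 h1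
    have c3 : IsCoprime ((3 : ℤ) ^ β) ((2 : ℤ) ^ s) := by
      have h1 : Nat.Coprime (3 ^ β) (2 ^ s) := Nat.Coprime.pow _ _ (by norm_num)
      exact_mod_cast Nat.isCoprime_iff_coprime.2 h1
    obtain ⟨a, b, e1⟩ := c1
    obtain ⟨i₀, u, e2⟩ := c2
    obtain ⟨j₀, v, e3⟩ := c3
    have f1 : (a : Subring.center R) * 2 ^ s + b * t = 1 := by
      have := congrArg (Int.cast : ℤ → Subring.center R) e1
      push_cast at this; exact this
    have f2 : (i₀ : Subring.center R) * 2 ^ α + u * t = 1 := by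
      have := congrArg (Int.cast : ℤ → Subring.center R) e2
      push_cast at this; exact this
    have f3 : (j₀ : Subring.center R) * 3 ^ β + v * 2 ^ s = 1 := by
      have := congrArg (Int.cast : ℤ → Subring.center R) e3
      push_cast at this; exact this
    refine ⟨a * 2 ^ s, b * t, (a * 2 ^ s) * i₀, (b * t) * j₀, ?_, ?_, ?_⟩
    · have g1 : (a : Subring.center R) * 2 ^ s * (a * 2 ^ s) = a * 2 ^ s := by
        linear_combination (a : Subring.center R) * 2 ^ s * f1 - (a : Subring.center R) * b * hn0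
      have g2 : (b : Subring.center R) * t * (b * t) = b * t := by
        linear_combination (b : Subring.center R) * t * f1 - (a : Subring.center R) * b * hn0
      linear_combination ((a : Subring.center R) * 2 ^ s * (a * 2 ^ s)) * f2 -
        (a : Subring.center R) * (a * 2 ^ s) * u * hn0 +
        ((b : Subring.center R) * t * (b * t)) * f3 -
        (b : Subring.center R) * (b * t) * v * hn0 + g1 + g2 + f1
    · linear_combination (a : Subring.center R) * b * j₀ * hn0
    · linear_combination (a : Subring.center R) * b * i₀ * hn0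

/-- combination of two intertwiners -/
theorem comb {R Z Z' : Type} [Ring R] [Fintype Z] [Fintype Z'] {_ : DecidableEq Z} {_ : DecidableEq Z'}
    (hR : Adm R) {P₂ P₃ : Matrix Z' Z R} {Q₂ Q₃ : Matrix Z Z' R} {α β : ℕ}
    (h1 : P₂ * Q₂ = (2 ^ α : Subring.center R) • 1) (h2 : Q₂ * P₂ = (2 ^ α : Subring.center R) • 1)
    (h3 : P₃ * Q₃ = (3 ^ β : Subring.center R) • 1)
    (h4 : Q₃ * P₃ = (3 ^ β : Subring.center R) • 1) :
    ∃ (P : Matrix Z' Z R) (Q : Matrix Z Z' R), P * Q = 1 ∧ Q * P = 1 ∧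
      ∀ (A : Matrix Z Z R) (A' : Matrix Z' Z' R), A' * P₂ = P₂ * A → A' * P₃ = P₃ * A →
        A' * P = P * A := by
  obtain ⟨p, q, i, j, e1, e2, e3⟩ := adm_pq hR α β
  refine ⟨p • P₂ + q • P₃, i • Q₂ + j • Q₃, ?_, ?_, fun A A' a1 a2 => ?_⟩
  · have k1 : (p • P₂) * (i • Q₂) = (p * i * 2 ^ α) • (1 : Matrix Z' Z' R) := by
      rw [Matrix.smul_mul, Matrix.mul_smul, h1, smul_smul, smul_smul, mul_assoc]
    have k2 : (p • P₂) * (j • Q₃) = 0 := by
      rw [Matrix.smul_mul, Matrix.mul_smul, smul_smul, e2, zero_smul]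
    have k3 : (q • P₃) * (i • Q₂) = 0 := by
      rw [Matrix.smul_mul, Matrix.mul_smul, smul_smul, e3, zero_smul]
    have k4 : (q • P₃) * (j • Q₃) = (q * j * 3 ^ β) • (1 : Matrix Z' Z' R) := by
      rw [Matrix.smul_mul, Matrix.mul_smul, h3, smul_smul, smul_smul, mul_assoc]
    rw [Matrix.add_mul, Matrix.mul_add, Matrix.mul_add, k1, k2, k3, k4, add_zero, zero_add,
      ← add_smul, e1, one_smul]
  · have k1 : (i • Q₂) * (p • P₂) = (p * i * 2 ^ α) • (1 : Matrix Z Z R) := by
      rw [Matrix.smul_mul, Matrix.mul_smul, h2, smul_smul, smul_smul]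
      congr 1; ring
    have k2 : (j • Q₃) * (p • P₂) = 0 := by
      rw [Matrix.smul_mul, Matrix.mul_smul, smul_smul, mul_comm j p, e2, zero_smul]
    have k3 : (i • Q₂) * (q • P₃) = 0 := by
      rw [Matrix.smul_mul, Matrix.mul_smul, smul_smul, mul_comm i q, e3, zero_smul]
    have k4 : (j • Q₃) * (q • P₃) = (q * j * 3 ^ β) • (1 : Matrix Z Z R) := by
      rw [Matrix.smul_mul, Matrix.mul_smul, h4, smul_smul, smul_smul]
      congr 1; ring
    rw [Matrix.add_mul, Matrix.mul_add, Matrix.mul_add, k1, k2, k3, k4, add_zero, zero_add,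
      ← add_smul, e1, one_smul]
  · rw [Matrix.mul_add, Matrix.add_mul, Matrix.mul_smul, Matrix.mul_smul, Matrix.smul_mul,
      Matrix.smul_mul, a1, a2]

end Pool.Agent.LWL
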