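import Pool.Agent.LWL.FiveTriv

/-!
# The kernel of the action covers the alternating group

PROOF. See the proof of `five_trivial` in `FiveTriv.lean` (its first half): `N = f.ker`, `N.map p` is a
normal subgroup of a simple group; if it were trivial, `p` would factor through `f.range`, against `hB`;
so it is everything.
-/

namespace Pool.Agent.LWL

theorem ker_surj {n D : ℕ} (hn : 5 ≤ n) (hD : D < n) {G B : Type} [Group G] [Group B]
    (hB : NoAlt D B) (p : G →* alternatingGroup (Fin n)) (hp : Function.Surjective p)
    (f : G →* B) (σ : alternatingGroup (Fin n)) : ∃ g, f g = 1 ∧ p g = σ := by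
  have hsimple : IsSimpleGroup (alternatingGroup (Fin n)) :=
    alternatingGroup.isSimpleGroup (by simpa using hn)
  have hN : (f.ker.map p).Normal := Subgroup.Normal.map inferInstance p hp
  rcases hsimple.eq_bot_or_eq_top_of_normal _ hN with h | h
  · exfalso
    have hle : ∀ x ∈ f.ker, p x = 1 := by
      intro x hx
      have h1 : p x ∈ f.ker.map p := Subgroup.mem_map_of_mem p hx
      rw [h] at h1
      exact Subgroup.mem_bot.1 h1
    let q : f.range →* alternatingGroup (Fin n) :=
      (QuotientGroup.lift f.ker p hle).comp
        (QuotientGroup.quotientKerEquivRange f).symm.toMonoidHom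
    refine hB n hD f.range q ?_
    intro a
    obtain ⟨x, rfl⟩ := hp a
    refine ⟨QuotientGroup.quotientKerEquivRange f (QuotientGroup.mk x), ?_⟩
    show QuotientGroup.lift f.ker p hle ((QuotientGroup.quotientKerEquivRange f).symm
      (QuotientGroup.quotientKerEquivRange f (QuotientGroup.mk x))) = p x
    rw [MulEquiv.symm_apply_apply]
    rfl
  · have h1 : σ ∈ f.ker.map p := by rw [h]; exact Subgroup.mem_top _
    obtain ⟨x, hx, hxg⟩ := Subgroup.mem_map.1 h1
    exact ⟨x, MonoidHom.mem_ker.1 hx, hxg⟩

end Pool.Agent.LWL
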