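import Pool.Agent.LWL.LiftE
import Pool.Agent.LWL.KerAlt

/-!
# Automorphisms over the alternating group of a hidden class

`G1 ch P T` = the automorphisms `phi g` (exact data `g`) that fix the points of `P` and whose
permutation `g.π` is even and moves only elements of `T`.

PROOF. Subgroup: `Ex.mul`, `Ex.inv`, `phi_mul`, `phi_inv` (and the identity: `⟨1, 0, 0⟩`).
`alt_cover`: `g.π` is determined by `ψ = phi g` (`ψ (el i) = el (g.π i)`), so `ψ ↦ g.π` is a homomorphism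
to the permutations of `E a` that move only elements of `T`, hence to `Equiv.Perm T`
(`Equiv.Perm.subtypePerm`, or `Equiv.Perm.ofSubtype`), and (even: `Equiv.Perm.sign_ofSubtype` or
`Equiv.Perm.sign_subtypePerm`) to `alternatingGroup T`, and by `Equiv.altCongrHom` (or `permCongr` with
`T.equivFin`) to `alternatingGroup (Fin T.card)`; it is surjective by `exists_lift`.
`ker_surj` gives for each even `σ` of `T` an element `ψ` over `σ` with `f ψ = 1`. An even permutation of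
`T` with `t₁ ↦ u₁`, `t₂ ↦ u₂` exists since `T` has at least four elements (`2`-transitivity of the
alternating group: take `swap t₁ u₁`, then a swap for the second point, and correct the sign by the swap
of two further elements of `T`; or in Mathlib: `alternatingGroup` is `(n - 2)`-transitive).
-/

namespace Pool.Agent.CoWL

open Finset Classical Pool.Agent.LWL

variable {a : ℕ}

lemma AltCov_ex_one (ch : E a → ZMod 2) : Ex ch ch (⟨1, fun _ _ => 0, 0⟩ : Gd a) := by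
  have h3 : (2 : ZMod 2) = 0 := by decide
  refine ⟨?_, ?_, ?_⟩
  · intro i j _
    simp only [Equiv.Perm.one_apply]
    linear_combination (- tt i j) * h3
  · intro i
    unfold Nod P2
    simp only [Finset.sum_const_zero, Equiv.Perm.one_apply]
    linear_combination (- ch i) * h3
  · refine ⟨fun A _ => rfl, fun ω _ => ?_⟩
    simp only [im_one, sub_self]
    simp [X3]

lemma AltCov_phi_one (p : Pt a) : phi (⟨1, fun _ _ => 0, 0⟩ : Gd a) p = p := by
  cases p with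
  | el i => rfl
  | p2 i Z v => simp [phi_p2, P2]
  | p3 A B v => simp [phi_p3, X3]

/-- automorphisms over the alternating group of `T` that fix `P` pointwise -/
def G1 (ch : E a → ZMod 2) (P : Finset (Pt a)) (T : Finset (E a)) :
    Subgroup (Equiv.Perm (Pt a)) where
  carrier := {ψ | ∃ g : Gd a, phi g = ψ ∧ Ex ch ch g ∧ Equiv.Perm.sign g.π = 1 ∧
    (∀ i, i ∉ T → g.π i = i) ∧ ∀ p ∈ P, phi g p = p}
  mul_mem' := by
    rintro ψ ψ' ⟨g, rfl, h1, h2, h3, h4⟩ ⟨h, rfl, h1', h2', h3', h4'⟩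
    refine ⟨g.mul h, Equiv.ext fun p => phi_mul g h p, h1.mul h1', ?_, ?_, ?_⟩
    · change Equiv.Perm.sign (g.π * h.π) = 1
      rw [Equiv.Perm.sign_mul, h2, h2', one_mul]
    · intro i hi
      change g.π (h.π i) = i
      rw [h3' i hi, h3 i hi]
    · intro p hp
      rw [phi_mul, h4' p hp, h4 p hp]
  one_mem' := by
    exact ⟨⟨1, fun _ _ => 0, 0⟩, Equiv.ext fun p => AltCov_phi_one p, AltCov_ex_one ch,
      Equiv.Perm.sign_one, fun i _ => rfl, fun p _ => AltCov_phi_one p⟩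
  inv_mem' := by
    rintro ψ ⟨g, rfl, h1, h2, h3, h4⟩
    have e : ∀ p, phi g.inv p = (phi g).symm p := fun p => by rw [phi_inv]
    refine ⟨g.inv, Equiv.ext e, h1.inv, ?_, ?_, ?_⟩
    · change Equiv.Perm.sign g.π⁻¹ = 1
      rw [Equiv.Perm.sign_inv, h2]
    · intro i hi
      change g.π.symm i = i
      rw [Equiv.symm_apply_eq]
      exact (h3 i hi).symm
    · intro p hp
      rw [e, Equiv.symm_apply_eq]
      exact (h4 p hp).symm

lemma AltCov_mem {T : Finset (E a)} {π : Equiv.Perm (E a)} (hs : ∀ i, i ∉ T → π i = i)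
    (i : E a) : π i ∈ T ↔ i ∈ T := by
  constructor
  · intro h
    by_contra hi
    rw [hs i hi] at h
    exact hi h
  · intro h
    by_contra hi
    have h1 := hs _ hi
    have h2 := π.injective h1
    rw [h2] at hi
    exact hi h

/-- even permutations moving only elements of `T` -/
def AltCovK (T : Finset (E a)) : Subgroup (Equiv.Perm (E a)) where
  carrier := {π | Equiv.Perm.sign π = 1 ∧ ∀ i, i ∉ T → π i = i}
  mul_mem' := by
    rintro π ρ ⟨h1, h2⟩ ⟨h3, h4⟩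
    refine ⟨by rw [Equiv.Perm.sign_mul, h1, h3, one_mul], fun i hi => ?_⟩
    rw [Equiv.Perm.mul_apply, h4 i hi, h2 i hi]
  one_mem' := ⟨Equiv.Perm.sign_one, fun i _ => rfl⟩
  inv_mem' := by
    rintro π ⟨h1, h2⟩
    refine ⟨by rw [Equiv.Perm.sign_inv, h1], fun i hi => ?_⟩
    change π.symm i = i
    rw [Equiv.symm_apply_eq]
    exact (h2 i hi).symm

lemma AltCovK_sign {T : Finset (E a)} (π : AltCovK T) :
    Equiv.Perm.sign (π : Equiv.Perm (E a)) = 1 := by
  have h : Equiv.Perm.sign (π : Equiv.Perm (E a)) = 1 ∧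
    ∀ i, i ∉ T → (π : Equiv.Perm (E a)) i = i := π.2
  exact h.1

lemma AltCovK_fix {T : Finset (E a)} (π : AltCovK T) :
    ∀ i, i ∉ T → (π : Equiv.Perm (E a)) i = i := by
  have h : Equiv.Perm.sign (π : Equiv.Perm (E a)) = 1 ∧
    ∀ i, i ∉ T → (π : Equiv.Perm (E a)) i = i := π.2
  exact h.2

lemma sign_inst {α : Type} {d d' : DecidableEq α} {f f' : Fintype α} (σ : Equiv.Perm α) :
    @Equiv.Perm.sign α d f σ = @Equiv.Perm.sign α d' f' σ := by
  rw [Subsingleton.elim d d', Subsingleton.elim f f']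

lemma AltCovR_mem {T : Finset (E a)} (π : AltCovK T) :
    (π : Equiv.Perm (E a)).subtypePerm (AltCov_mem (AltCovK_fix π)) ∈
      alternatingGroup {x // x ∈ T} := by
  rw [Equiv.Perm.mem_alternatingGroup]
  have h2 : ∀ x, (π : Equiv.Perm (E a)) x ≠ x → x ∈ T := by
    intro x hx
    by_contra hcon
    exact hx (AltCovK_fix π x hcon)
  have h3 := (Equiv.Perm.sign_subtypePerm (p := fun x => x ∈ T) (π : Equiv.Perm (E a))
    (AltCov_mem (AltCovK_fix π)) h2).trans (AltCovK_sign π)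
  exact (sign_inst _).trans h3

noncomputable def AltCovR (T : Finset (E a)) :
    AltCovK T →* alternatingGroup {x // x ∈ T} where
  toFun π := ⟨(π : Equiv.Perm (E a)).subtypePerm (AltCov_mem (AltCovK_fix π)), AltCovR_mem π⟩
  map_one' := by
    apply Subtype.ext
    apply Equiv.ext
    intro x
    rfl
  map_mul' π ρ := by
    apply Subtype.ext
    apply Equiv.ext
    intro x
    rfl

lemma AltCovR_apply {T : Finset (E a)} (π : AltCovK T) (x : {x // x ∈ T}) :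
    ((AltCovR T π).1 x).1 = π.1 x.1 := rfl

lemma AltCovR_surj (T : Finset (E a)) : Function.Surjective (AltCovR T) := by
  intro σ
  refine ⟨⟨Equiv.Perm.ofSubtype σ.1, ?_, ?_⟩, ?_⟩
  · rw [Equiv.Perm.sign_ofSubtype]
    exact Equiv.Perm.mem_alternatingGroup.1 σ.2
  · intro i hi
    exact Equiv.Perm.ofSubtype_apply_of_not_mem σ.1 hi
  · apply Subtype.ext
    apply Equiv.ext
    intro x
    apply Subtype.ext
    rw [AltCovR_apply]
    exact Equiv.Perm.ofSubtype_apply_coe σ.1 x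

noncomputable def AltCovQ (ch : E a → ZMod 2) (P : Finset (Pt a)) (T : Finset (E a)) :
    G1 ch P T →* AltCovK T where
  toFun ψ := ⟨ψ.2.choose.π, ψ.2.choose_spec.2.2.1, ψ.2.choose_spec.2.2.2.1⟩
  map_one' := by
    apply Subtype.ext
    apply Equiv.ext
    intro i
    have h := (1 : G1 ch P T).2.choose_spec.1
    have h2 : phi (1 : G1 ch P T).2.choose (Pt.el i) = Pt.el i := by rw [h]; rfl
    rw [phi_el] at h2
    exact Pt.el.inj h2
  map_mul' ψ ψ' := by
    apply Subtype.ext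
    apply Equiv.ext
    intro i
    have h := (ψ * ψ').2.choose_spec.1
    have h1 := ψ.2.choose_spec.1
    have h1' := ψ'.2.choose_spec.1
    have h2 : phi (ψ * ψ').2.choose (Pt.el i) =
        phi ψ.2.choose (phi ψ'.2.choose (Pt.el i)) := by rw [h, h1, h1']; rfl
    rw [phi_el, phi_el, phi_el] at h2
    exact Pt.el.inj h2

lemma AltCovQ_apply {ch : E a → ZMod 2} {P : Finset (Pt a)} {T : Finset (E a)}
    (ψ : G1 ch P T) (i : E a) : ψ.1 (Pt.el i) = Pt.el ((AltCovQ ch P T ψ).1 i) := by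
  have h1 := ψ.2.choose_spec.1
  conv_lhs => rw [← h1]
  rw [phi_el]
  rfl

lemma AltCovQ_surj {ch : E a → ZMod 2} {P : Finset (Pt a)} (hP : P.card < 2 * a)
    {T : Finset (E a)} (hT6 : 6 ≤ T.card) (hT : ∀ u ∈ T, ∀ v ∈ T, Inv P (Equiv.swap u v)) :
    Function.Surjective (AltCovQ ch P T) := by
  intro π
  obtain ⟨g, hg, h1, h2⟩ := exists_lift (ch := ch) hP hT6 hT (AltCovK_sign π) (AltCovK_fix π)
  let ψ : G1 ch P T := ⟨phi g, g, rfl, h1, by rw [hg]; exact AltCovK_sign π,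
    by rw [hg]; exact AltCovK_fix π, h2⟩
  refine ⟨ψ, ?_⟩
  apply Subtype.ext
  apply Equiv.ext
  intro i
  have h3 := AltCovQ_apply ψ i
  have h4 : ψ.1 (Pt.el i) = Pt.el (g.π i) := rfl
  rw [h4] at h3
  rw [← Pt.el.inj h3, hg]

lemma AltCov_two {T : Finset (E a)} (hT6 : 6 ≤ T.card) {t₁ t₂ u₁ u₂ : E a} (h1 : t₁ ∈ T)
    (h2 : t₂ ∈ T) (h3 : u₁ ∈ T) (h4 : u₂ ∈ T) (h5 : t₁ ≠ t₂) (h6 : u₁ ≠ u₂) :
    ∃ π : Equiv.Perm (E a), Equiv.Perm.sign π = 1 ∧ (∀ i, i ∉ T → π i = i) ∧ π t₁ = u₁ ∧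
      π t₂ = u₂ := by
  have hsw : ∀ c ∈ T, ∀ d ∈ T, ∀ i, i ∉ T → Equiv.swap c d i = i := fun c hc d hd i hi =>
    Equiv.swap_apply_of_ne_of_ne (fun h => hi (h ▸ hc)) (fun h => hi (h ▸ hd))
  have hx : Equiv.swap t₁ u₁ t₂ ∈ T := by
    by_cases hc : t₂ = u₁
    · rw [hc, Equiv.swap_apply_right]; exact h1
    · rw [Equiv.swap_apply_of_ne_of_ne (Ne.symm h5) hc]; exact h2
  have hxu : Equiv.swap t₁ u₁ t₂ ≠ u₁ := by
    intro h
    apply h5
    have : Equiv.swap t₁ u₁ t₂ = Equiv.swap t₁ u₁ t₁ := by rw [h, Equiv.swap_apply_left]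
    exact ((Equiv.swap t₁ u₁).injective this).symm
  set τ : Equiv.Perm (E a) := Equiv.swap (Equiv.swap t₁ u₁ t₂) u₂ * Equiv.swap t₁ u₁ with hτ
  have hτ1 : τ t₁ = u₁ := by
    rw [hτ, Equiv.Perm.mul_apply, Equiv.swap_apply_left]
    exact Equiv.swap_apply_of_ne_of_ne (Ne.symm hxu) h6
  have hτ2 : τ t₂ = u₂ := by
    rw [hτ, Equiv.Perm.mul_apply, Equiv.swap_apply_left]
  have hτT : ∀ i, i ∉ T → τ i = i := by
    intro i hi
    rw [hτ, Equiv.Perm.mul_apply, hsw _ h1 _ h3 i hi, hsw _ hx _ h4 i hi]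
  rcases Int.units_eq_one_or (Equiv.Perm.sign τ) with hs | hs
  · exact ⟨τ, hs, hτT, hτ1, hτ2⟩
  · -- correct the sign
    have hc : 2 ≤ ((T.erase u₁).erase u₂).card := by
      rw [Finset.card_erase_of_mem (Finset.mem_erase.2 ⟨Ne.symm h6, h4⟩),
        Finset.card_erase_of_mem h3]
      omega
    obtain ⟨c, hc1, d, hd1, hcd⟩ := Finset.one_lt_card.1 hc
    simp only [Finset.mem_erase] at hc1 hd1
    refine ⟨Equiv.swap c d * τ, ?_, ?_, ?_, ?_⟩
    · rw [Equiv.Perm.sign_mul, Equiv.Perm.sign_swap hcd, hs]; rfl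
    · intro i hi
      rw [Equiv.Perm.mul_apply, hτT i hi, hsw _ hc1.2.2 _ hd1.2.2 i hi]
    · rw [Equiv.Perm.mul_apply, hτ1]
      exact Equiv.swap_apply_of_ne_of_ne (Ne.symm hc1.2.1) (Ne.symm hd1.2.1)
    · rw [Equiv.Perm.mul_apply, hτ2]
      exact Equiv.swap_apply_of_ne_of_ne (Ne.symm hc1.1) (Ne.symm hd1.1)

theorem alt_cover {ch : E a → ZMod 2} {P : Finset (Pt a)} (hP : P.card < 2 * a)
    {T : Finset (E a)} (hT6 : 6 ≤ T.card) (hT : ∀ u ∈ T, ∀ v ∈ T, Inv P (Equiv.swap u v))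
    {D : ℕ} (hD : D < T.card) {B : Type} [Group B] (hB : NoAlt D B) (f : G1 ch P T →* B)
    {t₁ t₂ u₁ u₂ : E a} (h1 : t₁ ∈ T) (h2 : t₂ ∈ T) (h3 : u₁ ∈ T) (h4 : u₂ ∈ T)
    (h5 : t₁ ≠ t₂) (h6 : u₁ ≠ u₂) :
    ∃ ψ : G1 ch P T, f ψ = 1 ∧ ψ.1 (Pt.el t₁) = Pt.el u₁ ∧ ψ.1 (Pt.el t₂) = Pt.el u₂ := by
  obtain ⟨π, hπ, hs, hπ1, hπ2⟩ := AltCov_two hT6 h1 h2 h3 h4 h5 h6
  let e : alternatingGroup {x // x ∈ T} ≃* alternatingGroup (Fin T.card) :=
    Equiv.altCongrHom T.equivFin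
  let p : G1 ch P T →* alternatingGroup (Fin T.card) :=
    e.toMonoidHom.comp ((AltCovR T).comp (AltCovQ ch P T))
  have hp : Function.Surjective p :=
    e.surjective.comp ((AltCovR_surj T).comp (AltCovQ_surj hP hT6 hT))
  obtain ⟨ψ, hψ, hψp⟩ := ker_surj (by omega) hD hB p hp f (e (AltCovR T ⟨π, hπ, hs⟩))
  have h7 : AltCovR T (AltCovQ ch P T ψ) = AltCovR T ⟨π, hπ, hs⟩ := e.injective hψp
  have h8 : ∀ x : E a, x ∈ T → (AltCovQ ch P T ψ).1 x = π x := by
    intro x hx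
    have h9 := AltCovR_apply (AltCovQ ch P T ψ) ⟨x, hx⟩
    rw [h7, AltCovR_apply] at h9
    exact h9.symm
  refine ⟨ψ, hψ, ?_, ?_⟩
  · rw [AltCovQ_apply, h8 _ h1, hπ1]
  · rw [AltCovQ_apply, h8 _ h2, hπ2]

end Pool.Agent.CoWL
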