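import Pool.Agent.CoWL.BaseNonIso
import Pool.Agent.CoWL.GoodLem

/-!
# Composition of exact global maps

PROOFS. `phi_mul`: by cases of the point; `im_mul`, `X3_comp`, `X3_add`, and
`P2 (fun i j => g.x (h.π i) (h.π j)) i Z = P2 g.x (h.π i) (im h.π Z)` (`Finset.sum_map`).
`Ex.mul`: link and node equations add up (`2 = 0` in `ZMod 2`), `P3_comp`. `Ex.inv`: `Good.inv` is for
`Good`; copy its proof for the link and node equations (`CoWL/GoodLem.lean`), `P3_inv`.
`Ex.good`: take `ρ = 1`, `w' = g.w`.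
`Good.comp`: the point `p2 i Z v` is in `D.map (phi h).symm` iff `phi h (p2 i Z v) ∈ D`, a point of node
`h.π i`; layer 3: `ρ' = h.π⁻¹ * ρ * h.π` (a conjugate of a transposition is a transposition:
`Equiv.swap_apply_apply` or `Equiv.Perm.IsSwap.conj`), `g.π * h.π * ρ' = (g.π * ρ) * h.π`,
`w'' = (fun J => w' (im h.π J)) + h.w ∈ P3 (g.π * ρ * h.π)` (`P3_comp`), and
`X3 A B w'' = X3 (im h.π A) (im h.π B) w' + X3 A B h.w`.
`phi_pow_six`: `phi g` shifts the last coordinate by an element of `ZMod 2` or `ZMod 3`.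
-/

namespace Pool.Agent.CoWL

open Finset Classical

variable {a : ℕ}

/-- composition of global data -/
def Gd.mul (g h : Gd a) : Gd a where
  π := g.π * h.π
  x := fun i j => h.x i j + g.x (h.π i) (h.π j)
  w := fun J => h.w J + g.w (im h.π J)

/-- exact global data: an isomorphism of the coloured structures -/
structure Ex (ch ch' : E a → ZMod 2) (g : Gd a) : Prop where
  lnk : Lnk g.π g.x
  nod : ∀ i, Nod ch ch' g.π g.x i
  lay3 : g.w ∈ P3 g.π

private lemma P2_mul (g h : Gd a) (i : E a) (Z : Finset (E a)) :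
    P2 (g.mul h).x i Z = P2 h.x i Z + P2 g.x (h.π i) (im h.π Z) := by
  unfold P2 im Gd.mul
  rw [Finset.sum_map, ← Finset.sum_add_distrib]
  rfl

private lemma X3_mul (g h : Gd a) (A B : Finset (E a)) :
    X3 A B (g.mul h).w = X3 A B h.w + X3 (im h.π A) (im h.π B) g.w := by
  have h1 : (g.mul h).w = h.w + (fun J => g.w (im h.π J)) := rfl
  rw [h1, X3_add, X3_comp]

theorem phi_mul (g h : Gd a) (p : Pt a) : phi (g.mul h) p = phi g (phi h p) := by
  cases p with
  | el i => rfl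
  | p2 i Z v =>
    simp only [phi_p2, P2_mul]
    have h1 : (g.mul h).π = g.π * h.π := rfl
    rw [h1, im_mul, Equiv.Perm.mul_apply, add_assoc]
  | p3 A B v =>
    simp only [phi_p3, X3_mul]
    have h1 : (g.mul h).π = g.π * h.π := rfl
    rw [h1, im_mul, im_mul, add_assoc]

private lemma Lnk_mul {g h : Gd a} (hg : Lnk g.π g.x) (hh : Lnk h.π h.x) :
    Lnk (g.mul h).π (g.mul h).x := by
  intro i j hij
  have h1 := hh i j hij
  have h2 := hg (h.π i) (h.π j) (fun e => hij (h.π.injective e))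
  have h3 : (2 : ZMod 2) = 0 := by decide
  change h.x i j + g.x (h.π i) (h.π j) + (h.x j i + g.x (h.π j) (h.π i)) =
    tt (g.π (h.π i)) (g.π (h.π j)) + tt i j
  linear_combination h1 + h2 + tt (h.π i) (h.π j) * h3

private lemma Nod_mul {ch ch' ch'' : E a → ZMod 2} {g h : Gd a} {i : E a}
    (hg : Nod ch' ch'' g.π g.x (h.π i)) (hh : Nod ch ch' h.π h.x i) :
    Nod ch ch'' (g.mul h).π (g.mul h).x i := by
  unfold Nod at *
  have h3 : (2 : ZMod 2) = 0 := by decide
  rw [P2_mul, hh, im_erase, im_univ, hg]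
  change _ = ch'' (g.π (h.π i)) + ch i
  linear_combination ch' (h.π i) * h3

theorem Ex.mul {ch ch' ch'' : E a → ZMod 2} {g h : Gd a} (hg : Ex ch' ch'' g)
    (hh : Ex ch ch' h) : Ex ch ch'' (g.mul h) := by
  refine ⟨Lnk_mul hg.lnk hh.lnk, fun i => Nod_mul (hg.nod _) (hh.nod i), ?_⟩
  have h1 : (g.mul h).w = (fun J => g.w (im h.π J)) + h.w := by
    rw [add_comm]; rfl
  rw [h1]
  exact P3_comp hg.lay3 hh.lay3

theorem Ex.inv {ch ch' : E a → ZMod 2} {g : Gd a} (hg : Ex ch ch' g) : Ex ch' ch g.inv := by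
  obtain ⟨h1, h2, h3⟩ := hg
  refine ⟨?_, ?_, P3_inv h3⟩
  · intro i j hij
    have := h1 (g.π⁻¹ i) (g.π⁻¹ j) (fun hh => hij ((g.π⁻¹).injective hh))
    simp only [Gd.inv]
    rw [this]
    simp [add_comm]
  · intro i
    obtain ⟨i, rfl⟩ := g.π.surjective i
    have := h2 i
    unfold Nod at this ⊢
    simp only [Gd.inv]
    have h7 : (univ : Finset (E a)).erase (g.π i) = im g.π (univ.erase i) := by simp
    rw [h7, P2_inv, this]
    simp [add_comm]

theorem Ex.good {ch ch' : E a → ZMod 2} {g : Gd a} (h : Ex ch ch' g) (D : Finset (Pt a)) :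
    Good ch ch' D g := by
  refine ⟨h.lnk, fun i _ _ _ => h.nod i, 1, ?_, Or.inl rfl, g.w, ?_, fun _ _ _ _ => rfl⟩
  · intro p _
    cases p <;> simp [fixP]
  · rw [mul_one]; exact h.lay3

theorem Good.comp {ch ch' : E a → ZMod 2} {D : Finset (Pt a)} {g h : Gd a}
    (hg : Good ch ch' D g) (hh : Ex ch ch h) :
    Good ch ch' (D.map (phi h).symm.toEmbedding) (g.mul h) := by
  obtain ⟨h1, h2, ρ, h3, h4, w', h5, h6⟩ := hg
  have hmem : ∀ {p : Pt a}, p ∈ D.map (phi h).symm.toEmbedding → phi h p ∈ D := by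
    intro p hp
    rw [Finset.mem_map] at hp
    obtain ⟨q, hq, rfl⟩ := hp
    simpa using hq
  refine ⟨Lnk_mul h1 hh.lnk, ?_, h.π⁻¹ * ρ * h.π, ?_, ?_, (fun J => w' (im h.π J)) + h.w, ?_, ?_⟩
  · intro i Z v hp
    have h7 := hmem hp
    rw [phi_p2] at h7
    exact Nod_mul (h2 _ _ _ h7) (hh.nod i)
  · intro p hp
    have h7 := h3 _ (hmem hp)
    have hs : ∀ Z : Finset (E a), im ρ (im h.π Z) = im h.π Z →
        im (h.π⁻¹ * ρ * h.π) Z = Z := by
      intro Z hZ
      rw [im_mul, im_mul, hZ, im_inv_im]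
    have he : ∀ i : E a, ρ (h.π i) = h.π i → (h.π⁻¹ * ρ * h.π) i = i := by
      intro i hi
      rw [Equiv.Perm.mul_apply, Equiv.Perm.mul_apply, hi, inv_ap]
    cases p with
    | el i => exact he i h7
    | p2 i Z v => exact ⟨he i h7.1, hs Z h7.2⟩
    | p3 A B v => exact ⟨hs A h7.1, hs B h7.2⟩
  · rcases h4 with rfl | ⟨u, v, huv, rfl⟩
    · left; simp
    · right
      refine ⟨h.π⁻¹ u, h.π⁻¹ v, fun e => huv ((h.π⁻¹).injective e), ?_⟩
      have := (Equiv.swap_apply_apply h.π⁻¹ u v)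
      rw [this, inv_inv]
  · have h8 : (g.mul h).π * (h.π⁻¹ * ρ * h.π) = (g.π * ρ) * h.π := by
      change g.π * h.π * (h.π⁻¹ * ρ * h.π) = (g.π * ρ) * h.π
      group
    rw [h8]
    exact P3_comp h5 hh.lay3
  · intro A B v hp
    have h7 := hmem hp
    rw [phi_p3] at h7
    rw [X3_mul, X3_add, X3_comp, h6 _ _ _ h7, add_comm]

theorem phi_pow_six {g : Gd a} (h : g.π = 1) : (phi g : Equiv.Perm (Pt a)) ^ 6 = 1 := by
  have k2 : ∀ v z : ZMod 2, v + z + z + z + z + z + z = v := by decide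
  have k3 : ∀ v z : ZMod 3, v + z + z + z + z + z + z = v := by decide
  ext p
  rw [Equiv.Perm.one_apply]
  have h6 : ((phi g : Equiv.Perm (Pt a)) ^ 6) p =
      phi g (phi g (phi g (phi g (phi g (phi g p))))) := rfl
  rw [h6]
  cases p with
  | el i => simp only [phi_el, h, Equiv.Perm.one_apply]
  | p2 i Z v => simp only [phi_p2, h, Equiv.Perm.one_apply, im_one, k2]
  | p3 A B v => simp only [phi_p3, h, im_one, k3]

end Pool.Agent.CoWL
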