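import Pool.Agent.LWL.Induct

/-!
# Two finite arc-coloured digraphs with corresponding components are isomorphic

PROOF. `Conn c` is an equivalence relation (symmetric because the steps are). Let `I` be the relation
`x ~ y : ∃ isomorphism of the component of x onto the component of y` between points of `X` or `Y`
(colours preserved). For a component type `τ` the number of points of `X` whose component has type `τ`
is (number of components of type `τ`) times (size of such a component); the same in `Y`; by `f` the
numbers of points agree, so the numbers of components of each type agree. Choose a bijection between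
the components of `X` and of `Y` that preserves the type, and glue the isomorphisms. (Outside the
components all colours are `none` on both sides: if `y` is not in the component of `x`, then
`c x y = none`.)
-/

namespace Pool.Agent.LWL

private lemma glueSymm {X Γ : Type} {c : X → X → Option Γ} {x y : X} (h : Conn c x y) :
    Conn c y x := by
  induction h with
  | refl => exact Relation.ReflTransGen.refl
  | tail _ h2 ih => exact Relation.ReflTransGen.head (Or.symm h2) ih

private def glueSetoid {X Γ : Type} (c : X → X → Option Γ) : Setoid X where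
  r := Conn c
  iseqv := ⟨fun _ => Relation.ReflTransGen.refl, fun h => glueSymm h, fun h h' => h.trans h'⟩

private def GIso {X Y Γ : Type} (c : X → X → Option Γ) (c' : Y → Y → Option Γ) (x : X) (y : Y) :
    Prop :=
  ∃ e : {z // Conn c x z} ≃ {z // Conn c' y z}, ∀ p q, c' (e p).1 (e q).1 = c p.1 q.1

private lemma GIso.symm {X Y Γ : Type} {c : X → X → Option Γ} {c' : Y → Y → Option Γ} {x : X}
    {y : Y} (h : GIso c c' x y) : GIso c' c y x := by
  obtain ⟨e, he⟩ := h
  refine ⟨e.symm, fun p q => ?_⟩
  have := he (e.symm p) (e.symm q)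
  rw [Equiv.apply_symm_apply, Equiv.apply_symm_apply] at this
  exact this.symm

private lemma GIso.trans {X Y Z Γ : Type} {c : X → X → Option Γ} {c' : Y → Y → Option Γ}
    {c'' : Z → Z → Option Γ} {x : X} {y : Y} {z : Z} (h : GIso c c' x y) (h' : GIso c' c'' y z) :
    GIso c c'' x z := by
  obtain ⟨e, he⟩ := h
  obtain ⟨e', he'⟩ := h'
  refine ⟨e.trans e', fun p q => ?_⟩
  rw [Equiv.trans_apply, Equiv.trans_apply, he', he]

private lemma GIso.ofConn {X Γ : Type} {c : X → X → Option Γ} {x y : X} (h : Conn c x y) :
    GIso c c x y := by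
  refine ⟨Equiv.subtypeEquivRight fun z => ⟨fun hz => (glueSymm h).trans hz, fun hz => h.trans hz⟩,
    fun p q => rfl⟩

private lemma GIso.card {X Y Γ : Type} {c : X → X → Option Γ} {c' : Y → Y → Option Γ} {x : X}
    {y : Y} (h : GIso c c' x y) : Nat.card {z // Conn c x z} = Nat.card {z // Conn c' y z} := by
  obtain ⟨e, _⟩ := h
  exact Nat.card_congr e

/-- counting points by components -/
private lemma glueCount {X Γ T : Type} [Finite X] (c : X → X → Option Γ)
    (t : X → T) (ht : ∀ x y, Conn c x y → t x = t y) (τ : T) (s : ℕ)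
    (hs : ∀ x, t x = τ → Nat.card {z // Conn c x z} = s) :
    Nat.card {x // t x = τ} =
      Nat.card {q : Quotient (glueSetoid c) // Quotient.lift t ht q = τ} * s := by
  classical
  have e : {x // t x = τ} ≃ Σ q : {q : Quotient (glueSetoid c) // Quotient.lift t ht q = τ},
      {x // Quotient.mk (glueSetoid c) x = q.1} :=
    { toFun := fun x => ⟨⟨Quotient.mk (glueSetoid c) x.1, x.2⟩, ⟨x.1, rfl⟩⟩
      invFun := fun p => ⟨p.2.1, by
        have h1 := p.1.2
        have h2 := p.2.2
        rw [← h2] at h1
        exact h1⟩
      left_inv := fun x => rfl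
      right_inv := fun p => by
        obtain ⟨⟨q, hq⟩, ⟨x, hx⟩⟩ := p
        cases hx
        rfl }
  have : Fintype {q : Quotient (glueSetoid c) // Quotient.lift t ht q = τ} := Fintype.ofFinite _
  rw [Nat.card_congr e, Nat.card_sigma]
  rw [Finset.sum_congr rfl (g := fun _ => s)]
  · rw [Finset.sum_const, Finset.card_univ, Nat.card_eq_fintype_card, smul_eq_mul]
  · rintro ⟨q, hq⟩ _
    induction q using Quotient.inductionOn with
    | h x =>
      rw [← hs x hq]
      refine Nat.card_congr (Equiv.subtypeEquivRight fun z => ?_)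
      change Quotient.mk (glueSetoid c) z = Quotient.mk (glueSetoid c) x ↔ Conn c x z
      rw [Quotient.eq]
      exact ⟨fun h => glueSymm h, fun h => glueSymm h⟩

theorem iso_of_components {X Y Γ : Type} [Finite X] [Finite Y] (c : X → X → Option Γ)
    (c' : Y → Y → Option Γ) (f : X ≃ Y)
    (h : ∀ x, ∃ e : {z // Conn c x z} ≃ {z // Conn c' (f x) z},
      ∀ p q, c' (e p).1 (e q).1 = c p.1 q.1) :
    ∃ e : X ≃ Y, ∀ x y, c' (e x) (e y) = c x y := by
  classical
  set t : X → Set Y := fun x => {y | GIso c c' x y} with htdef
  set t' : Y → Set Y := fun y => {y' | GIso c' c' y y'} with htdef'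
  have key : ∀ x y, t x = t' y ↔ GIso c c' x y := by
    intro x y
    constructor
    · intro hh
      have : y ∈ t' y := GIso.ofConn Relation.ReflTransGen.refl
      rw [← hh] at this
      exact this
    · intro hh
      ext z
      exact ⟨fun hz => hh.symm.trans hz, fun hz => hh.trans hz⟩
  have key1 : ∀ x x', t x = t x' → GIso c c x x' := by
    intro x x' hh
    have h1 : f x' ∈ t x' := h x'
    rw [← hh] at h1
    exact GIso.trans h1 (GIso.symm (h x'))
  have key2 : ∀ y y', t' y = t' y' → GIso c' c' y y' := by
    intro y y' hh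
    have h1 : y' ∈ t' y' := GIso.ofConn Relation.ReflTransGen.refl
    rw [← hh] at h1
    exact h1
  have htf : ∀ x, t' (f x) = t x := fun x => ((key x (f x)).2 (h x)).symm
  have ht : ∀ x y, Conn c x y → t x = t y := by
    intro x y hxy
    ext z
    exact ⟨fun hz => (GIso.ofConn (glueSymm hxy)).trans hz, fun hz => (GIso.ofConn hxy).trans hz⟩
  have ht' : ∀ x y, Conn c' x y → t' x = t' y := by
    intro x y hxy
    ext z
    exact ⟨fun hz => (GIso.ofConn (glueSymm hxy)).trans hz, fun hz => (GIso.ofConn hxy).trans hz⟩
  have hcard : ∀ τ, Nat.card {q : Quotient (glueSetoid c) // Quotient.lift t ht q = τ} =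
      Nat.card {q : Quotient (glueSetoid c') // Quotient.lift t' ht' q = τ} := by
    intro τ
    by_cases hex : ∃ x, t x = τ
    · obtain ⟨x0, hx0⟩ := hex
      have hpos : 0 < Nat.card {z // Conn c x0 z} :=
        Nat.card_pos_iff.2 ⟨⟨⟨x0, Relation.ReflTransGen.refl⟩⟩, inferInstance⟩
      have h1 := glueCount c t ht τ (Nat.card {z // Conn c x0 z}) (fun x hx =>
        (key1 x x0 (hx.trans hx0.symm)).card)
      have h2 := glueCount c' t' ht' τ (Nat.card {z // Conn c x0 z}) (fun y hy =>
        ((key x0 y).1 (hx0.trans hy.symm)).card.symm)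
      have h3 : Nat.card {x // t x = τ} = Nat.card {y // t' y = τ} :=
        Nat.card_congr (f.subtypeEquiv fun x => by rw [htf])
      rw [h1, h2] at h3
      exact Nat.eq_of_mul_eq_mul_right hpos h3
    · have e1 : IsEmpty {q : Quotient (glueSetoid c) // Quotient.lift t ht q = τ} := by
        constructor
        rintro ⟨q, hq⟩
        induction q using Quotient.inductionOn with
        | h x => exact hex ⟨x, hq⟩
      have e2 : IsEmpty {q : Quotient (glueSetoid c') // Quotient.lift t' ht' q = τ} := by
        constructor
        rintro ⟨q, hq⟩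
        induction q using Quotient.inductionOn with
        | h y =>
          refine hex ⟨f.symm y, ?_⟩
          rw [← htf, Equiv.apply_symm_apply]
          exact hq
      rw [Nat.card_of_isEmpty, Nat.card_of_isEmpty]
  have hfib : ∀ τ, Nonempty ({q : Quotient (glueSetoid c) // Quotient.lift t ht q = τ} ≃
      {q : Quotient (glueSetoid c') // Quotient.lift t' ht' q = τ}) := fun τ =>
    (Finite.card_eq).1 (hcard τ)
  let g : Quotient (glueSetoid c) ≃ Quotient (glueSetoid c') :=
    ((Equiv.sigmaFiberEquiv (Quotient.lift t ht)).symm.trans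
      (Equiv.sigmaCongrRight fun τ => (hfib τ).some)).trans
      (Equiv.sigmaFiberEquiv (Quotient.lift t' ht'))
  have hg : ∀ q, Quotient.lift t' ht' (g q) = Quotient.lift t ht q := by
    intro q
    exact ((hfib (Quotient.lift t ht q)).some ⟨q, rfl⟩).2
  have hcomp : ∀ q : Quotient (glueSetoid c),
      ∃ e : {x // Quotient.mk (glueSetoid c) x = q} ≃ {y // Quotient.mk (glueSetoid c') y = g q},
        ∀ x y, c' (e x).1 (e y).1 = c x.1 y.1 := by
    intro q
    obtain ⟨x, rfl⟩ := Quotient.exists_rep q
    obtain ⟨y, hy⟩ := Quotient.exists_rep (g (Quotient.mk (glueSetoid c) x))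
    have h1 := hg (Quotient.mk (glueSetoid c) x)
    rw [← hy] at h1
    obtain ⟨e, he⟩ := (key x y).1 h1.symm
    have a1 : ∀ z, Quotient.mk (glueSetoid c) z = Quotient.mk (glueSetoid c) x ↔ Conn c x z := by
      intro z
      rw [Quotient.eq]
      exact ⟨fun h => glueSymm h, fun h => glueSymm h⟩
    have a2 : ∀ z, Conn c' y z ↔ Quotient.mk (glueSetoid c') z =
        g (Quotient.mk (glueSetoid c) x) := by
      intro z
      rw [← hy, Quotient.eq]
      exact ⟨fun h => glueSymm h, fun h => glueSymm h⟩
    exact ⟨((Equiv.subtypeEquivRight a1).trans e).trans (Equiv.subtypeEquivRight a2),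
      fun p r => he _ _⟩
  choose E hE using hcomp
  let F : X ≃ Y :=
    ((Equiv.sigmaFiberEquiv (Quotient.mk (glueSetoid c))).symm.trans
      (Equiv.sigmaCongr g E)).trans (Equiv.sigmaFiberEquiv (Quotient.mk (glueSetoid c')))
  have hF : ∀ x, F x = (E (Quotient.mk (glueSetoid c) x) ⟨x, rfl⟩).1 := fun x => rfl
  have hFg : ∀ x, Quotient.mk (glueSetoid c') (F x) = g (Quotient.mk (glueSetoid c) x) :=
    fun x => (E (Quotient.mk (glueSetoid c) x) ⟨x, rfl⟩).2
  refine ⟨F, fun x y => ?_⟩
  by_cases hxy : Quotient.mk (glueSetoid c) x = Quotient.mk (glueSetoid c) y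
  · have gen : ∀ q (hy : Quotient.mk (glueSetoid c) y = q),
        (E (Quotient.mk (glueSetoid c) y) ⟨y, rfl⟩).1 = (E q ⟨y, hy⟩).1 := by
      intro q hy
      subst hy
      rfl
    rw [hF x, hF y, gen _ hxy.symm, hE]
  · have h1 : c x y = none := by
      by_contra hne
      exact hxy (Quotient.sound (Relation.ReflTransGen.single (Or.inl hne)))
    have h2 : c' (F x) (F y) = none := by
      by_contra hne
      have h3 : Quotient.mk (glueSetoid c') (F x) = Quotient.mk (glueSetoid c') (F y) :=
        Quotient.sound (Relation.ReflTransGen.single (Or.inl hne))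
      rw [hFg, hFg] at h3
      exact hxy (g.injective h3)
    rw [h1, h2]

end Pool.Agent.LWL
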