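import Pool.Agent.LWL.Solv
import Pool.Agent.LWL.Glue

/-!
# Transfer of structures with small components

`S` is a set of partial bijections, closed under restriction, with the bijective extension property up
to size `k`; `c u z = A (u, z)` and `c' u z = A' (u, z)` are the two definable arc-coloured digraphs.

PROOF. (1) For `t ∈ S` with `t.card + m ≤ k` there is a bijection `F : (Fin m → V) ≃ (Fin m → W)` with
`t ∪ zp x (F x) ∈ S` for all `x` (induction on `m`, `zp_succ`, `Fin.consEquiv`, as in `IsW.dsum`).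
(2) Let `s = zp v w`, `F` the bijection of (1) for `s`. Fix `x`, `x' = F x`. By (1), one after the
other, there is for every finite set `Y` of at most `N` tuples with `x ∈ Y` a map `θ` with `θ x = x'`
and `t = s ∪ ⋃_{y ∈ Y} zp y (θ y) ∈ S`, `t.card ≤ K + m * N`; take `Y` = the component of `x`.
For `y, z ∈ Y`: `zp (ov J z (ov I y v)) (ov J (θ z) (ov I (θ y) w)) ⊆ t` (`zp_ov2`), so
`c' (θ y) (θ z) = c y z` by `hA`. `θ` is injective on `Y` (`t` is a partial bijection). `θ y` is in the
component of `x'`. If `θ y` and `y'` are linked in `c'`, the bijection of (1) for `t` gives `z` with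
`t ∪ zp z y' ∈ S`, so `y` and `z` are linked in `c`, `z ∈ Y` and `θ z = y'` (`t ∪ zp z y'` is a
partial bijection). Hence `θ` is an isomorphism of the component of `x` onto that of `x'`.
(3) `iso_of_components`.
-/

namespace Pool.Agent.LWL

open Finset Classical Pool.Agent.CoWL

variable {V W : Type} {K : ℕ}

/-- extension by a tuple -/
private lemma ext_tuple {k : ℕ} {S : Set (Finset (V × W))}
    (hf : ∀ s ∈ S, s.card < k → ∃ f : V ≃ W, ∀ v, insert (v, f v) s ∈ S) :
    ∀ (m : ℕ) (t : Finset (V × W)), t ∈ S → t.card + m ≤ k →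
      ∃ F : (Fin m → V) ≃ (Fin m → W), ∀ x, t ∪ zp x (F x) ∈ S := by
  intro m
  induction m with
  | zero =>
    intro t ht _
    refine ⟨⟨fun _ i => i.elim0, fun _ i => i.elim0, fun _ => funext fun i => i.elim0,
      fun _ => funext fun i => i.elim0⟩, fun x => ?_⟩
    have : t ∪ zp x (fun i : Fin 0 => (i.elim0 : W)) = t := by
      ext p
      simp [zp]
    change t ∪ zp x (fun i : Fin 0 => (i.elim0 : W)) ∈ S
    rw [this]
    exact ht
  | succ m ih =>
    intro t ht hc
    obtain ⟨f, hf'⟩ := hf t ht (by omega)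
    have h1 : ∀ v : V, ∃ F : (Fin m → V) ≃ (Fin m → W), ∀ x, insert (v, f v) t ∪ zp x (F x) ∈ S := by
      intro v
      have := card_insert_le (v, f v) t
      exact ih _ (hf' v) (by omega)
    choose F hF using h1
    refine ⟨((Fin.consEquiv fun _ => V).symm.trans (Equiv.prodShear f F)).trans
      (Fin.consEquiv fun _ => W), fun x => ?_⟩
    have h2 := hF (x 0) (Fin.tail x)
    have h3 : (((Fin.consEquiv fun _ => V).symm.trans (Equiv.prodShear f F)).trans
      (Fin.consEquiv fun _ => W)) x = Fin.cons (f (x 0)) (F (x 0) (Fin.tail x)) := rfl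
    rw [h3]
    have h4 : t ∪ zp x (Fin.cons (f (x 0)) (F (x 0) (Fin.tail x)) : Fin (m + 1) → W) =
        insert (x 0, f (x 0)) t ∪ zp (Fin.tail x) (F (x 0) (Fin.tail x)) := by
      rw [zp_succ]
      ext p
      simp only [Fin.cons_zero, Fin.tail_cons, mem_union, mem_insert]
      tauto
    rw [h4]
    exact h2

private lemma pb_left {S : Set (Finset (V × W))} (hS : PB S) {t : Finset (V × W)} (ht : t ∈ S)
    {m : ℕ} {y : Fin m → V} {a b : Fin m → W} (ha : zp y a ⊆ t) (hb : zp y b ⊆ t) : a = b := by
  funext i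
  exact (hS.inj t ht _ (ha (mem_zp.2 ⟨i, rfl⟩)) _ (hb (mem_zp.2 ⟨i, rfl⟩))).1 rfl

private lemma pb_right {S : Set (Finset (V × W))} (hS : PB S) {t : Finset (V × W)} (ht : t ∈ S)
    {m : ℕ} {y z : Fin m → V} {a : Fin m → W} (ha : zp y a ⊆ t) (hb : zp z a ⊆ t) : y = z := by
  funext i
  exact (hS.inj t ht _ (ha (mem_zp.2 ⟨i, rfl⟩)) _ (hb (mem_zp.2 ⟨i, rfl⟩))).2 rfl

private lemma build {k N : ℕ} {S : Set (Finset (V × W))}
    (hf : ∀ s ∈ S, s.card < k → ∃ f : V ≃ W, ∀ v, insert (v, f v) s ∈ S)
    (s : Finset (V × W)) (hs : s.card ≤ K) {m : ℕ} (hk : K + m * (N + 1) ≤ k)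
    (x : Fin m → V) (x' : Fin m → W) (hx : s ∪ zp x x' ∈ S) (T : Finset (Fin m → V)) :
    x ∉ T → T.card + 1 ≤ N → ∃ (θ : (Fin m → V) → (Fin m → W)) (t : Finset (V × W)), t ∈ S ∧
      s ⊆ t ∧ (∀ y ∈ insert x T, zp y (θ y) ⊆ t) ∧ θ x = x' ∧ t.card ≤ K + m * (T.card + 1) := by
  induction T using Finset.induction_on with
  | empty =>
    intro _ _
    refine ⟨fun _ => x', s ∪ zp x x', hx, subset_union_left, ?_, rfl, ?_⟩
    · intro y hy
      rw [mem_insert] at hy
      rcases hy with rfl | hy
      · exact subset_union_right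
      · exact absurd hy (notMem_empty y)
    · have h1 := card_union_le s (zp x x')
      have h2 := card_zp x x'
      rw [card_empty]
      omega
  | insert y T hy ih =>
    intro hxT hN
    rw [mem_insert, not_or] at hxT
    rw [card_insert_of_notMem hy] at hN ⊢
    obtain ⟨θ, t, ht, hst, hθ, hθx, hc⟩ := ih hxT.2 (by omega)
    have hcm : t.card + m ≤ k := by
      have : m * (T.card + 1 + 1) ≤ m * (N + 1) := Nat.mul_le_mul_left m (by omega)
      have e : m * (T.card + 1 + 1) = m * (T.card + 1) + m := by ring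
      omega
    obtain ⟨F, hF⟩ := ext_tuple hf m t ht hcm
    refine ⟨Function.update θ y (F y), t ∪ zp y (F y), hF y, hst.trans subset_union_left, ?_, ?_, ?_⟩
    · intro z hz
      by_cases hzy : z = y
      · subst hzy
        rw [Function.update_self]
        exact subset_union_right
      · rw [Function.update_of_ne hzy]
        refine (hθ z ?_).trans subset_union_left
        rw [mem_insert, mem_insert] at hz
        rw [mem_insert]
        tauto
    · rw [Function.update_of_ne hxT.1]
      exact hθx
    · have h1 := card_union_le t (zp y (F y))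
      have h2 := card_zp y (F y)
      have e : m * (T.card + 1 + 1) = m * (T.card + 1) + m := by ring
      omega

theorem iso_of_small [Fintype V] [Fintype W] {k m N : ℕ} {S : Set (Finset (V × W))} (hS : PB S)
    (hf : ∀ s ∈ S, s.card < k → ∃ f : V ≃ W, ∀ v, insert (v, f v) s ∈ S)
    {v : Fin K → V} {w : Fin K → W} (hvw : RelS S v w) (I J : Fin m ↪ Fin K) {Γ : Type}
    (A : (Fin K → V) → Option Γ) (A' : (Fin K → W) → Option Γ) (hA : Cpt (RelS S) A A')
    (hN : ∀ x : Fin m → V,
      Nat.card {z // Conn (fun u z => A (ov J z (ov I u v))) x z} ≤ N)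
    (hk : K + m * (N + 1) ≤ k) :
    ∃ e : (Fin m → V) ≃ (Fin m → W), ∀ u z,
      A' (ov J (e z) (ov I (e u) w)) = A (ov J z (ov I u v)) := by
  set c : (Fin m → V) → (Fin m → V) → Option Γ := fun u z => A (ov J z (ov I u v)) with hc
  set c' : (Fin m → W) → (Fin m → W) → Option Γ := fun u z => A' (ov J z (ov I u w)) with hc'
  have hscard : (zp v w).card ≤ K := card_zp v w
  obtain ⟨F, hF⟩ := ext_tuple hf m (zp v w) hvw (by
    have e : m * (N + 1) = m * N + m := by ring
    omega)
  obtain ⟨e, he⟩ := iso_of_components c c' F (fun x => by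
    -- the component as a finset
    set C : Finset (Fin m → V) := univ.filter (fun z => Conn c x z) with hC
    have hCmem : ∀ z, z ∈ C ↔ Conn c x z := fun z => by simp [hC]
    have hxC : x ∈ C := (hCmem x).2 Relation.ReflTransGen.refl
    have hCcard : C.card ≤ N := by
      refine le_trans (le_of_eq ?_) (hN x)
      rw [Nat.card_eq_fintype_card, Fintype.card_subtype]
    have hins : insert x (C.erase x) = C := insert_erase hxC
    have hce : (C.erase x).card + 1 = C.card := card_erase_add_one hxC
    obtain ⟨θ, t, ht, hst, hθ, hθx, htc⟩ := build (N := N) hf (zp v w) hscard hk x (F x) (hF x)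
      (C.erase x) (notMem_erase x C) (by omega)
    rw [hins] at hθ
    rw [hce] at htc
    -- colours
    have hcol : ∀ y z : Fin m → V, ∀ y' z' : Fin m → W, ∀ t' ∈ S, zp v w ⊆ t' → zp y y' ⊆ t' →
        zp z z' ⊆ t' → c' y' z' = c y z := by
      intro y z y' z' t' ht' h1 h2 h3
      refine (hA _ _ ?_).symm
      refine hS.down t' ht' _ ?_
      refine (zp_ov2 I J y y' z z' v w).trans ?_
      exact union_subset (union_subset h1 h3) h2
    have hcol1 : ∀ y ∈ C, ∀ z ∈ C, c' (θ y) (θ z) = c y z := fun y hy z hz =>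
      hcol y z (θ y) (θ z) t ht hst (hθ y hy) (hθ z hz)
    have hmap : ∀ y, Conn c x y → Conn c' (F x) (θ y) := by
      intro y hy
      induction hy with
      | refl =>
        rw [hθx]
        exact Relation.ReflTransGen.refl
      | @tail y z hxy hyz ih =>
        have hyC : y ∈ C := (hCmem y).2 hxy
        have hzC : z ∈ C := (hCmem z).2 (Relation.ReflTransGen.tail hxy hyz)
        refine Relation.ReflTransGen.tail ih ?_
        rw [hcol1 y hyC z hzC, hcol1 z hzC y hyC]
        exact hyz
    have hsurj : ∀ y', Conn c' (F x) y' → ∃ y, Conn c x y ∧ θ y = y' := by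
      intro y' hy'
      induction hy' with
      | refl => exact ⟨x, Relation.ReflTransGen.refl, hθx⟩
      | @tail a b _ hab ih =>
        obtain ⟨y, hy, rfl⟩ := ih
        have hyC : y ∈ C := (hCmem y).2 hy
        have htm : t.card + m ≤ k := by
          have h1 : m * C.card ≤ m * N := Nat.mul_le_mul_left m hCcard
          have e : m * (N + 1) = m * N + m := by ring
          omega
        obtain ⟨G, hG⟩ := ext_tuple hf m t ht htm
        have hGz := hG (G.symm b)
        rw [Equiv.apply_symm_apply] at hGz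
        set z := G.symm b with hz
        have h1 : c' (θ y) b = c y z := hcol y z (θ y) b _ hGz (hst.trans subset_union_left)
          ((hθ y hyC).trans subset_union_left) subset_union_right
        have h2 : c' b (θ y) = c z y := hcol z y b (θ y) _ hGz (hst.trans subset_union_left)
          subset_union_right ((hθ y hyC).trans subset_union_left)
        rw [h1, h2] at hab
        have hxz : Conn c x z := Relation.ReflTransGen.tail hy hab
        refine ⟨z, hxz, ?_⟩
        exact pb_left hS hGz ((hθ z ((hCmem z).2 hxz)).trans subset_union_left) subset_union_right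
    have hinj : ∀ y z, Conn c x y → Conn c x z → θ y = θ z → y = z := by
      intro y z hy hz hyz
      refine pb_right hS ht (hθ y ((hCmem y).2 hy)) ?_
      rw [hyz]
      exact hθ z ((hCmem z).2 hz)
    refine ⟨Equiv.ofBijective (fun z => ⟨θ z.1, hmap z.1 z.2⟩) ⟨?_, ?_⟩, ?_⟩
    · rintro ⟨y, hy⟩ ⟨z, hz⟩ hyz
      exact Subtype.ext (hinj y z hy hz (congrArg Subtype.val hyz))
    · rintro ⟨y', hy'⟩
      obtain ⟨y, hy, hyy⟩ := hsurj y' hy'
      exact ⟨⟨y, hy⟩, Subtype.ext hyy⟩
    · rintro ⟨y, hy⟩ ⟨z, hz⟩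
      exact hcol1 y ((hCmem y).2 hy) z ((hCmem z).2 hz))
  exact ⟨e, fun u z => he u z⟩

end Pool.Agent.LWL
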