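import Pool.Agent.LWL.Induct

/-!
# Elements of order five act trivially

PROOF. `N = f.ker`. `N.map p` is normal in the alternating group (surjectivity of `p`:
`Subgroup.Normal.map`), which is simple (`alternatingGroup.isSimpleGroup`, `5 ≤ n`), so it is `⊥` or
`⊤`. If it is `⊥`, then `f.ker ≤ p.ker`, so `p` factors through `f.range`
(`MonoidHom.liftOfRightInverse` or `QuotientGroup.lift` composed with
`QuotientGroup.quotientKerEquivRange`): the subgroup `f.range` of `B` has a surjection onto the
alternating group, against `hB`. If it is `⊤`, take `n₀ ∈ N` with `p n₀ = p g`; then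
`(g * n₀⁻¹) ^ 6 = 1`, so `(f g) ^ 6 = 1`; also `(f g) ^ 5 = 1`, hence `f g = 1`.
-/

namespace Pool.Agent.LWL

theorem five_trivial {n D : ℕ} (hn : 5 ≤ n) (hD : D < n) {G B : Type} [Group G] [Group B]
    (hB : NoAlt D B) (p : G →* alternatingGroup (Fin n)) (hp : Function.Surjective p)
    (hk : ∀ g, p g = 1 → g ^ 6 = 1) (f : G →* B) {g : G} (hg : g ^ 5 = 1) : f g = 1 := by
  have hsimple : IsSimpleGroup (alternatingGroup (Fin n)) :=
    alternatingGroup.isSimpleGroup (by simpa using hn)
  have hN : (f.ker.map p).Normal := Subgroup.Normal.map inferInstance p hp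
  rcases hsimple.eq_bot_or_eq_top_of_normal _ hN with h | h
  · exfalso
    have hle : ∀ x ∈ f.ker, p x = 1 := by
      intro x hx
      have h1 : p x ∈ f.ker.map p := Subgroup.mem_map_of_mem p hx
      rw [h] at h1
      exact Subgroup.mem_bot.1 h1
    let q : f.range →* alternatingGroup (Fin n) :=
      (QuotientGroup.lift f.ker p hle).comp
        (QuotientGroup.quotientKerEquivRange f).symm.toMonoidHom
    refine hB n hD f.range q ?_
    intro a
    obtain ⟨x, rfl⟩ := hp a
    refine ⟨QuotientGroup.quotientKerEquivRange f (QuotientGroup.mk x), ?_⟩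
    show QuotientGroup.lift f.ker p hle ((QuotientGroup.quotientKerEquivRange f).symm
      (QuotientGroup.quotientKerEquivRange f (QuotientGroup.mk x))) = p x
    rw [MulEquiv.symm_apply_apply]
    rfl
  · have h1 : p g ∈ f.ker.map p := by rw [h]; exact Subgroup.mem_top _
    obtain ⟨x, hx, hxg⟩ := Subgroup.mem_map.1 h1
    have h2 : (g * x⁻¹) ^ 6 = 1 := by
      refine hk _ ?_
      rw [map_mul, map_inv, hxg, mul_inv_cancel]
    have h3 : f (g * x⁻¹) = f g := by
      rw [map_mul, map_inv, MonoidHom.mem_ker.1 hx, inv_one, mul_one]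
    have h4 : (f g) ^ 6 = 1 := by
      rw [← h3, ← map_pow, h2, map_one]
    have h5 : (f g) ^ 5 = 1 := by
      rw [← map_pow, hg, map_one]
    calc f g = (f g) ^ 5 * f g := by rw [h5, one_mul]
      _ = (f g) ^ 6 := by rw [← pow_succ]
      _ = 1 := h4

end Pool.Agent.LWL
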