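import Pool.Agent.CoWL.Hidden

/-!
# A bounded number of points has no large hidden support

`FixT P b p`: the sets of the point `p` are fixed by all permutations of order five (or one) that move
only elements of a class `T` of at least `b` elements not separated by `P`.

PROOF. Let `sv u := fun q : P => sig u q` be the signature of `u : E a` (at most `4 ^ n` values) and, for
a signature `y`, `T_y` its class: all transpositions in `T_y` satisfy `Inv P` (`fixP_swap`, as in
`big_of_card`). Let `R` be the set of all elements of classes with fewer than `b + 5` elements together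
with one element of each other class: `R.card ≤ (b + 6) * 4 ^ n`. Let `FixT P b p`. If `T_y` has at
least `b + 5` elements, a set `Z` fixed by all permutations of order five of `T_y` contains `T_y` or is
disjoint from it: for `u ∈ Z`, `v ∉ Z` in `T_y` choose three further elements; the cycle
`(u v a b c)` (a product of four swaps; or `List.formPerm [u, v, a, b, c]`) has order five and moves `u`
to `v`. So `Z` is determined by `Z ∩ R` (for two such sets `Z`, `Z'` with `Z ∩ R = Z' ∩ R`: `Z = Z'`),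
and for a point `el i` or `p2 i Z v` we have `i ∈ R` (an element of a large class is moved by such a
cycle). Hence `p ↦ (kind of p, i or default, Z ∩ R or A ∩ R, B ∩ R, v)` is injective on the points with
`FixT P b p`, and the number of values is at most `3 * ((b + 6) * 4 ^ n + 1) * 4 ^ ((b + 6) * 4 ^ n) * 3`
(or any other function of `n` and `b`; cardinalities of subsets of the finite set `R`).
-/

namespace Pool.Agent.CoWL

open Finset Classical

/-- the sets of `p` are fixed by the permutations of order five of the large classes of `P` -/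
def FixT {a : ℕ} (P : Finset (Pt a)) (b : ℕ) (p : Pt a) : Prop :=
  ∀ T : Finset (E a), (∀ u ∈ T, ∀ v ∈ T, Inv P (Equiv.swap u v)) → b ≤ T.card →
    ∀ π : Equiv.Perm (E a), (∀ i, i ∉ T → π i = i) → π ^ 5 = 1 → fixP π p

/-! ### Classes of elements with the same signature -/

/-- a finite set which is fixed by all permutations of order five of the large sets of elements with
equal signatures -/
private def GoodZ {a : ℕ} (P : Finset (Pt a)) (b : ℕ) (Z : Finset (E a)) : Prop :=
  ∀ T : Finset (E a), (∀ u ∈ T, ∀ v ∈ T, Inv P (Equiv.swap u v)) → b ≤ T.card →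
    ∀ π : Equiv.Perm (E a), (∀ i, i ∉ T → π i = i) → π ^ 5 = 1 → im π Z = Z

private def Goodi {a : ℕ} (P : Finset (Pt a)) (b : ℕ) (i : E a) : Prop :=
  ∀ T : Finset (E a), (∀ u ∈ T, ∀ v ∈ T, Inv P (Equiv.swap u v)) → b ≤ T.card →
    ∀ π : Equiv.Perm (E a), (∀ j, j ∉ T → π j = j) → π ^ 5 = 1 → π i = i

/-- the signature of an element with respect to `P` -/
private noncomputable def sv {a : ℕ} (P : Finset (Pt a)) (u : E a) : P → Bool × Bool :=
  fun p => sig u p.1

private noncomputable def cls {a : ℕ} (P : Finset (Pt a)) (y : P → Bool × Bool) :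
    Finset (E a) := Finset.univ.filter fun u => sv P u = y

private lemma cls_inv {a : ℕ} (P : Finset (Pt a)) (y : P → Bool × Bool) :
    ∀ u ∈ cls P y, ∀ v ∈ cls P y, Inv P (Equiv.swap u v) := by
  intro u hu v hv p hp
  simp only [cls, Finset.mem_filter, Finset.mem_univ, true_and] at hu hv
  exact fixP_swap (congrFun (hu.trans hv.symm) ⟨p, hp⟩)

/-- a permutation of order five inside `T` which moves `u` to `v` -/
private lemma exists_five {a : ℕ} {T : Finset (E a)} (hT : 5 ≤ T.card) {u v : E a} (hu : u ∈ T)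
    (hv : v ∈ T) (huv : u ≠ v) :
    ∃ π : Equiv.Perm (E a), (∀ j, j ∉ T → π j = j) ∧ π ^ 5 = 1 ∧ π u = v := by
  have h1 : 3 ≤ ((T.erase u).erase v).card := by
    have h2 : v ∈ T.erase u := Finset.mem_erase.2 ⟨huv.symm, hv⟩
    rw [Finset.card_erase_of_mem h2, Finset.card_erase_of_mem hu]
    omega
  obtain ⟨S, hS, hS3⟩ := Finset.exists_subset_card_eq h1
  obtain ⟨x, y, z, hxy, hxz, hyz, rfl⟩ := Finset.card_eq_three.1 hS3
  have hx := hS (show x ∈ ({x, y, z} : Finset (E a)) by simp)
  have hy := hS (show y ∈ ({x, y, z} : Finset (E a)) by simp)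
  have hz := hS (show z ∈ ({x, y, z} : Finset (E a)) by simp)
  simp only [Finset.mem_erase] at hx hy hz
  have hnd : [u, v, x, y, z].Nodup := by
    simp only [List.nodup_cons, List.mem_cons, List.not_mem_nil, or_false, not_or,
      not_false_eq_true, List.nodup_nil, and_true]
    exact ⟨⟨huv, Ne.symm hx.2.1, Ne.symm hy.2.1, Ne.symm hz.2.1⟩,
      ⟨Ne.symm hx.1, Ne.symm hy.1, Ne.symm hz.1⟩, ⟨hxy, hxz⟩, hyz⟩
  refine ⟨[u, v, x, y, z].formPerm, ?_, ?_, ?_⟩
  · intro j hj
    refine List.formPerm_apply_of_notMem ?_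
    intro hj'
    simp only [List.mem_cons, List.not_mem_nil, or_false] at hj'
    rcases hj' with rfl | rfl | rfl | rfl | rfl
    · exact hj hu
    · exact hj hv
    · exact hj hx.2.2
    · exact hj hy.2.2
    · exact hj hz.2.2
  · exact List.formPerm_pow_length_eq_one_of_nodup _ hnd
  · exact List.formPerm_apply_head _ _ _ hnd

private lemma GoodZ.mem {a : ℕ} {P : Finset (Pt a)} {b : ℕ} {Z : Finset (E a)}
    (hZ : GoodZ P b Z) {y : P → Bool × Bool} (hy : b + 5 ≤ (cls P y).card) {u v : E a}
    (hu : u ∈ cls P y) (hv : v ∈ cls P y) (h : u ∈ Z) : v ∈ Z := by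
  by_cases huv : u = v
  · exact huv ▸ h
  obtain ⟨π, h1, h2, h3⟩ := exists_five (by omega) hu hv huv
  have h4 := hZ _ (cls_inv P y) (by omega) π h1 h2
  rw [← h4, ← h3, apply_mem_im]
  exact h

private lemma Goodi.small {a : ℕ} {P : Finset (Pt a)} {b : ℕ} {i : E a}
    (hi : Goodi P b i) : (cls P (sv P i)).card < b + 5 := by
  by_contra hcon
  rw [not_lt] at hcon
  have hmem : i ∈ cls P (sv P i) := by simp [cls]
  obtain ⟨v, hv, hvi⟩ : ∃ v ∈ cls P (sv P i), v ≠ i :=
    Finset.exists_mem_ne (by omega) i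
  obtain ⟨π, h1, h2, h3⟩ := exists_five (by omega) hmem hv (Ne.symm hvi)
  have h4 := hi _ (cls_inv P _) (by omega) π h1 h2
  exact hvi (h3.symm.trans h4)

/-- representatives -/
private lemma exists_rep {a : ℕ} (P : Finset (Pt a)) (b n : ℕ) (hP : P.card ≤ n) :
    ∃ R : Finset (E a), R.card ≤ 4 ^ n * (b + 5) ∧
      (∀ i, (cls P (sv P i)).card < b + 5 → i ∈ R) ∧
      ∀ y, b + 5 ≤ (cls P y).card → ∃ r ∈ R, r ∈ cls P y := by
  have h : ∀ y : P → Bool × Bool, ∃ S : Finset (E a), S ⊆ cls P y ∧
      S.card = min (cls P y).card (b + 5) := fun y =>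
    Finset.exists_subset_card_eq (min_le_left _ _)
  choose S hS hS' using h
  refine ⟨Finset.univ.biUnion S, ?_, ?_, ?_⟩
  · refine Finset.card_biUnion_le.trans ?_
    refine (Finset.sum_le_card_nsmul _ _ (b + 5) fun y _ => ?_).trans ?_
    · rw [hS']; exact min_le_right _ _
    · rw [smul_eq_mul]
      refine Nat.mul_le_mul_right _ ?_
      have h1 : (Finset.univ : Finset (P → Bool × Bool)).card = 4 ^ P.card := by simp
      rw [h1]
      exact Nat.pow_le_pow_right (by norm_num) hP
  · intro i hi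
    have hmem : i ∈ cls P (sv P i) := by simp [cls]
    have h1 : S (sv P i) = cls P (sv P i) := by
      refine Finset.eq_of_subset_of_card_le (hS _) ?_
      rw [hS', min_eq_left hi.le]
    exact Finset.mem_biUnion.2 ⟨sv P i, Finset.mem_univ _, h1.symm ▸ hmem⟩
  · intro y hy
    have h1 : 0 < (S y).card := by rw [hS', min_eq_right hy]; omega
    obtain ⟨r, hr⟩ := Finset.card_pos.1 h1
    exact ⟨r, Finset.mem_biUnion.2 ⟨y, Finset.mem_univ _, hr⟩, hS y hr⟩

private lemma GoodZ.eq {a : ℕ} {P : Finset (Pt a)} {b : ℕ} {R Z Z' : Finset (E a)}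
    (hR : ∀ i, (cls P (sv P i)).card < b + 5 → i ∈ R)
    (hR' : ∀ y, b + 5 ≤ (cls P y).card → ∃ r ∈ R, r ∈ cls P y)
    (hZ : GoodZ P b Z) (hZ' : GoodZ P b Z') (h : ∀ r ∈ R, r ∈ Z ↔ r ∈ Z') : Z = Z' := by
  ext e
  by_cases he : (cls P (sv P e)).card < b + 5
  · exact h e (hR e he)
  · rw [not_lt] at he
    obtain ⟨r, hr, hr'⟩ := hR' _ he
    have hmem : e ∈ cls P (sv P e) := by simp [cls]
    constructor
    · intro h1
      exact hZ'.mem he hr' hmem ((h r hr).1 (hZ.mem he hmem hr' h1))
    · intro h1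
      exact hZ.mem he hr' hmem ((h r hr).2 (hZ'.mem he hmem hr' h1))

/-- the code of a point -/
private noncomputable def code {a : ℕ} (R : Finset (E a)) :
    Pt a → Fin 3 × Finset R × Finset R × Finset R × ZMod 2 × ZMod 3
  | Pt.el i => (0, ({i} : Finset (E a)).subtype (· ∈ R), ∅, ∅, 0, 0)
  | Pt.p2 i Z v => (1, ({i} : Finset (E a)).subtype (· ∈ R), Z.subtype (· ∈ R), ∅, v, 0)
  | Pt.p3 A B v => (2, ∅, A.subtype (· ∈ R), B.subtype (· ∈ R), 0, v)

private lemma subtype_eq {a : ℕ} {R Z Z' : Finset (E a)}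
    (h : Z.subtype (· ∈ R) = Z'.subtype (· ∈ R)) : ∀ r ∈ R, r ∈ Z ↔ r ∈ Z' := by
  intro r hr
  have h1 : (⟨r, hr⟩ : R) ∈ Z.subtype (· ∈ R) ↔ (⟨r, hr⟩ : R) ∈ Z'.subtype (· ∈ R) := by
    rw [h]
  simpa [Finset.mem_subtype] using h1

private lemma single_eq {a : ℕ} {R : Finset (E a)} {i j : E a} (hi : i ∈ R)
    (h : ({i} : Finset (E a)).subtype (· ∈ R) = ({j} : Finset (E a)).subtype (· ∈ R)) :
    i = j := by
  have h1 := (subtype_eq h i hi).1 (Finset.mem_singleton_self i)
  exact Finset.mem_singleton.1 h1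

theorem fixT_bound (n b : ℕ) : ∃ N : ℕ, ∀ (a : ℕ) (P : Finset (Pt a)), P.card ≤ n →
    Nat.card {p : Pt a // FixT P b p} ≤ N := by
  refine ⟨18 * 8 ^ (4 ^ n * (b + 5)), fun a P hP => ?_⟩
  obtain ⟨R, hRc, hR, hR'⟩ := exists_rep P b n hP
  have hel : ∀ i, FixT P b (Pt.el i) → Goodi P b i := fun i h T h1 h2 π h3 h4 =>
    h T h1 h2 π h3 h4
  have h2i : ∀ i Z v, FixT P b (Pt.p2 i Z v) → Goodi P b i := fun i Z v h T h1 h2 π h3 h4 =>
    (h T h1 h2 π h3 h4).1
  have h2Z : ∀ i Z v, FixT P b (Pt.p2 i Z v) → GoodZ P b Z := fun i Z v h T h1 h2 π h3 h4 =>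
    (h T h1 h2 π h3 h4).2
  have h3A : ∀ A B v, FixT P b (Pt.p3 A B v) → GoodZ P b A := fun i Z v h T h1 h2 π h3 h4 =>
    (h T h1 h2 π h3 h4).1
  have h3B : ∀ A B v, FixT P b (Pt.p3 A B v) → GoodZ P b B := fun i Z v h T h1 h2 π h3 h4 =>
    (h T h1 h2 π h3 h4).2
  have hinj : Function.Injective (fun p : {p : Pt a // FixT P b p} => code R p.1) := by
    rintro ⟨p, hp⟩ ⟨q, hq⟩ hpq
    refine Subtype.ext ?_
    change code R p = code R q at hpq
    change p = q
    cases p with
    | el i =>
      cases q with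
      | el j =>
        simp only [code, Prod.mk.injEq, true_and, and_true] at hpq
        rw [single_eq (hR i (hel i hp).small) hpq]
      | p2 j Z v => simp [code] at hpq
      | p3 A B v => simp [code] at hpq
    | p2 i Z v =>
      cases q with
      | el j => simp [code] at hpq
      | p2 j Z' v' =>
        simp only [code, Prod.mk.injEq, true_and, and_true] at hpq
        rw [single_eq (hR i (h2i i Z v hp).small) hpq.1,
          GoodZ.eq hR hR' (h2Z i Z v hp) (h2Z j Z' v' hq) (subtype_eq hpq.2.1), hpq.2.2]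
      | p3 A B v => simp [code] at hpq
    | p3 A B v =>
      cases q with
      | el j => simp [code] at hpq
      | p2 j Z v => simp [code] at hpq
      | p3 A' B' v' =>
        simp only [code, Prod.mk.injEq, true_and] at hpq
        rw [GoodZ.eq hR hR' (h3A A B v hp) (h3A A' B' v' hq) (subtype_eq hpq.1),
          GoodZ.eq hR hR' (h3B A B v hp) (h3B A' B' v' hq) (subtype_eq hpq.2.1), hpq.2.2]
  have h1 := Nat.card_le_card_of_injective _ hinj
  refine h1.trans ?_
  have h2 : Nat.card (Fin 3 × Finset R × Finset R × Finset R × ZMod 2 × ZMod 3) =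
      18 * 8 ^ R.card := by
    rw [Nat.card_eq_fintype_card]
    simp only [Fintype.card_prod, Fintype.card_fin, Fintype.card_finset, Fintype.card_coe,
      ZMod.card]
    rw [show (8 : ℕ) = 2 ^ 3 by norm_num, ← pow_mul, mul_comm 3 R.card, pow_mul]
    ring
  rw [h2]
  exact Nat.mul_le_mul_left _ (Nat.pow_le_pow_right (by norm_num) hRc)

end Pool.Agent.CoWL
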