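import Pool.Agent.LWL.AutG
import Pool.Agent.CoWL.BaseFrames

/-!
# A global map through a good section

PROOF. `Good.odd` (`CoWL/BaseFrames.lean`) gives `g₁`, good for `P`, equal to `g` on `P`, with
`Equiv.Perm.sign g₁.π ≠ 1` and all node equations. Its layer 3: `w' ∈ P3 (g₁.π * ρ)`, `ρ` hidden for `P`,
`X3 A B g₁.w = X3 A B w'` on `P`; `sign ρ = -1` (`P3_sign`). `indep` (`Big P` by `T`) moves `ρ` to
`swap u u'`: `w₃ ∈ P3 (g₁.π * swap u u')` with `X3 A B w₃ = X3 A B w'` on `P`. Take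
`h = ⟨g₁.π, g₁.x, w₃⟩`: it equals `g₁` on `P`, and for every `D` with `Inv D (swap u u')` it is good
(`ρ := swap u u'`).
-/

namespace Pool.Agent.CoWL

open Finset Classical

variable {a : ℕ}

theorem glob {ch ch' : E a → ZMod 2} (hch : ∑ i, ch i + ∑ i, ch' i = 1) {P : Finset (Pt a)}
    {g : Gd a} (hg : Good ch ch' P g) (hP : P.card < 2 * a) {T : Finset (E a)} (hT6 : 6 ≤ T.card)
    (hT : ∀ u ∈ T, ∀ v ∈ T, Inv P (Equiv.swap u v)) {u u' : E a} (hu : u ∈ T) (hu' : u' ∈ T)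
    (huu : u ≠ u') :
    ∃ h : Gd a, (∀ p ∈ P, phi h p = phi g p) ∧
      ∀ D : Finset (Pt a), Inv D (Equiv.swap u u') → Good ch ch' D h := by
  have hB : Big P := ⟨T, hT6, hT⟩
  obtain ⟨g₁, hg₁, hφ, hs₁, hN₁⟩ := hg.odd hch hB hP
  obtain ⟨ρ, hi, hρ, w', hw', hag⟩ := hg₁.lay3
  have hsw : OneOrSwap (Equiv.swap u u') := Or.inr ⟨u, u', huu, rfl⟩
  have hs : Equiv.Perm.sign (g₁.π * Equiv.swap u u') = 1 := by
    rw [Equiv.Perm.sign_mul, Equiv.Perm.sign_swap huu]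
    rcases Int.units_eq_one_or (Equiv.Perm.sign g₁.π) with h1 | h1
    · exact absurd h1 hs₁
    · rw [h1]
      decide
  obtain ⟨w₃, hw₃, e⟩ := indep hB hρ hsw hi (hT u hu u' hu') hw' hs
  refine ⟨⟨g₁.π, g₁.x, w₃⟩, ?_, ?_⟩
  · intro p hp
    rw [← hφ p hp]
    rcases p with i | ⟨i, Z, v⟩ | ⟨A, B, v⟩
    · rfl
    · rfl
    · simp only [phi_p3]
      rw [e A B v hp, hag A B v hp]
  · intro D hD
    exact ⟨hg₁.lnk, fun i _ _ _ => hN₁ i, Equiv.swap u u', hD, hsw, w₃, hw₃, fun _ _ _ _ => rfl⟩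

end Pool.Agent.CoWL
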