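import Pool.Agent.LWL.Logic

/-!
# Relations between assignments; structures of low symmetry
-/

namespace Pool.Agent.LWL

open Finset Classical

variable {K : ℕ} {V W : Type}

/-- `X` and `X'` take the same values at related assignments -/
def Cpt {α : Type} (E : (Fin K → V) → (Fin K → W) → Prop) (X : (Fin K → V) → α)
    (X' : (Fin K → W) → α) : Prop := ∀ v w, E v w → X v = X' w

/-- `E` passes through atomic formulas -/
def AtT (G : SimpleGraph V) (H : SimpleGraph W) (E : (Fin K → V) → (Fin K → W) → Prop) : Prop :=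
  ∀ v w, E v w → ∀ i j, (v i = v j ↔ w i = w j) ∧ (G.Adj (v i) (v j) ↔ H.Adj (w i) (w j))

/-- `E` passes through counting quantifiers -/
def CntT (E : (Fin K → V) → (Fin K → W) → Prop) : Prop :=
  ∀ v w, E v w → ∀ i, ∃ f : V ≃ W, ∀ x, E (Function.update v i x) (Function.update w i (f x))

/-- `E` passes through solvability quantifiers -/
def SlvT [Fintype V] [Fintype W] (E : (Fin K → V) → (Fin K → W) → Prop) : Prop :=
  ∀ v w, E v w → ∀ (m n : ℕ) (I : Fin m ↪ Fin K) (J : Fin n ↪ Fin K) (R : Type) [Ring R]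
    (A : (Fin K → V) → R) (A' : (Fin K → W) → R) (b : (Fin K → V) → R) (b' : (Fin K → W) → R),
    Cpt E A A' → Cpt E b b' →
    ((∃ x : (Fin n → V) → R, ∀ u : Fin m → V,
        ∑ z : Fin n → V, A (ov J z (ov I u v)) * x z = b (ov I u v)) ↔
      ∃ x : (Fin n → W) → R, ∀ u : Fin m → W,
        ∑ z : Fin n → W, A' (ov J z (ov I u w)) * x z = b' (ov I u w))

section low

variable {X Y Γ : Type}

lemma Conn.map {c : X → X → Option Γ} {c' : Y → Y → Option Γ} (e : X ≃ Y)
    (h : ∀ x y, c' (e x) (e y) = c x y) {x y : X} (hxy : Conn c x y) : Conn c' (e x) (e y) := by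
  induction hxy with
  | refl => exact Relation.ReflTransGen.refl
  | tail _ h2 ih =>
    refine Relation.ReflTransGen.tail ih ?_
    rw [h, h]; exact h2

/-- The group `G` has no section isomorphic to an alternating group of degree greater
than `D`. -/
def NoAlt (D : ℕ) (G : Type) [Group G] : Prop :=
  ∀ n, D < n → ∀ (B : Subgroup G) (f : B →* alternatingGroup (Fin n)), ¬ Function.Surjective f

/-- The stabiliser of the vertex `x` in the automorphism group of its connected component in
the arc-coloured digraph `c`. -/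
def Stab {X Γ : Type} (c : X → X → Option Γ) (x : X) : Subgroup (Equiv.Perm {y // Conn c x y}) where
  carrier := {g | g ⟨x, Relation.ReflTransGen.refl⟩ = ⟨x, Relation.ReflTransGen.refl⟩ ∧
    ∀ p q, c (g p).1 (g q).1 = c p.1 q.1}
  mul_mem' := by
    rintro g h ⟨hg, hg'⟩ ⟨hh, hh'⟩
    refine ⟨?_, fun p q => ?_⟩
    · rw [Equiv.Perm.mul_apply, hh, hg]
    · rw [Equiv.Perm.mul_apply, Equiv.Perm.mul_apply, hg', hh']
  one_mem' := ⟨rfl, fun _ _ => rfl⟩
  inv_mem' := by
    rintro g ⟨hg, hg'⟩
    refine ⟨?_, fun p q => ?_⟩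
    · rw [Equiv.Perm.inv_eq_iff_eq]; exact hg.symm
    · have h := hg' (g⁻¹ p) (g⁻¹ q)
      have h1 : ∀ r, g (g⁻¹ r) = r := fun r => Equiv.apply_symm_apply g r
      rw [h1, h1] at h
      exact h.symm

/-- low symmetry is invariant under isomorphism -/
theorem Low.map {D : ℕ} {c : X → X → Option Γ} {c' : Y → Y → Option Γ} (e : X ≃ Y)
    (h : ∀ x y, c' (e x) (e y) = c x y) (hc : Low D c) : Low D c' := by
  intro y B hB n hn f hf
  have h' : ∀ x y, c (e.symm x) (e.symm y) = c' x y := fun x y => by
    rw [← h, Equiv.apply_symm_apply, Equiv.apply_symm_apply]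
  obtain ⟨x, rfl⟩ := e.surjective y
  have hφ : ∀ (g : Equiv.Perm X) (p : X), e.permCongrHom g (e p) = e (g p) := fun g p => by
    change e (g (e.symm (e p))) = e (g p)
    rw [Equiv.symm_apply_apply]
  refine hc x (B.comap e.permCongrHom.toMonoidHom) (fun g hg => ?_) n hn
    (f.comp (e.permCongrHom.toMonoidHom.subgroupComap B)) fun z => ?_
  · have hg' : e.permCongrHom g ∈ B := hg
    obtain ⟨h1, h2, h3⟩ := hB _ hg'
    refine ⟨e.injective ?_, fun y hy => e.injective ?_, fun p q => ?_⟩
    · rw [← hφ, h1]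
    · rw [← hφ]
      refine h2 _ fun hcon => hy ?_
      have := Conn.map e.symm h' hcon
      rwa [Equiv.symm_apply_apply, Equiv.symm_apply_apply] at this
    · rw [← h (g p) (g q), ← hφ, ← hφ, h3, h]
  · obtain ⟨b, rfl⟩ := hf z
    refine ⟨⟨e.permCongrHom.symm b.1, ?_⟩, ?_⟩
    · change e.permCongrHom (e.permCongrHom.symm b.1) ∈ B
      rw [MulEquiv.apply_symm_apply]; exact b.2
    · change f _ = f b
      congr 1
      apply Subtype.ext
      change e.permCongrHom (e.permCongrHom.symm b.1) = b.1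
      rw [MulEquiv.apply_symm_apply]

/-- the stabilisers in the components of a structure of low symmetry -/
theorem Low.noAlt {D : ℕ} {c : X → X → Option Γ} (h : Low D c) (x : X) : NoAlt D (Stab c x) := by
  intro n hn B f hf
  let ι : Stab c x →* Equiv.Perm X := Equiv.Perm.ofSubtype.comp (Stab c x).subtype
  have hι : Function.Injective ι :=
    Equiv.Perm.ofSubtype_injective.comp (Stab c x).subtype_injective
  refine h x (B.map ι) ?_ n hn (f.comp (B.equivMapOfInjective ι hι).symm.toMonoidHom)
    (hf.comp (B.equivMapOfInjective ι hι).symm.surjective)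
  rintro g ⟨b, -, rfl⟩
  have hin : ∀ (y : X) (hy : Conn c x y), ι b y = (b.1 ⟨y, hy⟩).1 := fun y hy =>
    Equiv.Perm.ofSubtype_apply_of_mem b.1 hy
  have hout : ∀ y, ¬ Conn c x y → ι b y = y := fun y hy =>
    Equiv.Perm.ofSubtype_apply_of_not_mem b.1 hy
  refine ⟨?_, hout, fun p q => ?_⟩
  · rw [hin x Relation.ReflTransGen.refl, b.2.1]
  · by_cases hp : Conn c x p
    · by_cases hq : Conn c x q
      · rw [hin p hp, hin q hq]
        exact b.2.2 ⟨p, hp⟩ ⟨q, hq⟩
      · rw [hin p hp, hout q hq]
        have e1 : ∀ r, Conn c x r → c r q = none := fun r hr => by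
          by_contra hcon
          exact hq (Relation.ReflTransGen.tail hr (Or.inl hcon))
        rw [e1 _ (b.1 ⟨p, hp⟩).2, e1 p hp]
    · by_cases hq : Conn c x q
      · rw [hout p hp, hin q hq]
        have e1 : ∀ r, Conn c x r → c p r = none := fun r hr => by
          by_contra hcon
          exact hp (Relation.ReflTransGen.tail hr (Or.inr hcon))
        rw [e1 _ (b.1 ⟨q, hq⟩).2, e1 q hq]
      · rw [hout p hp, hout q hq]

end low

end Pool.Agent.LWL
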