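import Pool.Agent.LWL.Solv

/-!
# Induction over formulas

`S` is a set of partial isomorphisms between `G` and `H`, closed under restriction.  If `S` passes
through all quantifiers of the logic, then assignments that are related by an element of `S` satisfy
the same formulas.
-/

namespace Pool.Agent.LWL

open Finset Classical Pool.Agent.CoWL

variable {V W : Type} {K : ℕ}

/-- `A` and `A'` agree at pairs of tuples that are related over `s` by an element of `S` -/
def Cp {m n : ℕ} {α : Type} (S : Set (Finset (V × W))) (s : Finset (V × W))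
    (A : (Fin m → V) → (Fin n → V) → α) (A' : (Fin m → W) → (Fin n → W) → α) : Prop :=
  ∀ u z u' z', s ∪ zp z z' ∪ zp u u' ∈ S → A u z = A' u' z'

/-- `S` passes through linear-algebraic quantifiers -/
def SimT (K : ℕ) (S : Set (Finset (V × W))) [Finite V] [Finite W] : Prop :=
  ∀ s ∈ S, s.card ≤ K → ∀ (m : ℕ), m ≤ K → ∀ (τ : Type) (t : (Fin m → V) → (Fin m → V) → τ)
    (t' : (Fin m → W) → (Fin m → W) → τ), Cp S s t t' → ∀ (r : Set τ) (R : Type) [Ring R],
    Adm R →
    letI := Fintype.ofFinite (Qt t r)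
    letI := Fintype.ofFinite (Qt t' r)
    ∃ (P : Matrix (Qt t' r) (Qt t r) R) (Q : Matrix (Qt t r) (Qt t' r) R),
      P * Q = 1 ∧ Q * P = 1 ∧ ∀ c : Set τ → R,
        (Matrix.of fun p q => c (qt t' r p q)) * P = P * Matrix.of fun p q => c (qt t r p q)

/-- `S` passes through isomorphism quantifiers -/
def IsoT (K D : ℕ) (S : Set (Finset (V × W))) : Prop :=
  ∀ s ∈ S, s.card ≤ K → ∀ (m : ℕ), m ≤ K → ∀ (τ : Type) (t : (Fin m → V) → (Fin m → V) → τ)
    (t' : (Fin m → W) → (Fin m → W) → τ), Cp S s t t' → ∀ (r : Set τ) (Γ : Type)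
    (c : Set τ → Option Γ),
    (Low D (fun p q => c (qt t r p q)) ∨ Low D (fun p q => c (qt t' r p q))) →
    ∃ e : Qt t r ≃ Qt t' r, ∀ p q, c (qt t' r (e p) (e q)) = c (qt t r p q)

/-- **Induction over formulas.** -/
theorem sat_iff [Fintype V] [Fintype W] {D : ℕ} {G : SimpleGraph V} {H : SimpleGraph W}
    {S : Set (Finset (V × W))} (hS : PB S) (h1 : AtT G H (RelS (K := K) S))
    (h2 : CntT (RelS (K := K) S)) (h3 : SlvT (RelS (K := K) S))
    (h4 : SimT K S) (h5 : IsoT K D S) (φ : Fml K D) :
    ∀ v w, RelS S v w → (Sat G φ v ↔ Sat H φ w) := by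
  induction φ with
  | eq i j => intro v w h; exact (h1 v w h i j).1
  | adj i j => intro v w h; exact (h1 v w h i j).2
  | neg φ ih => intro v w h; exact not_congr (ih v w h)
  | inf ι φ ih => intro v w h; exact forall_congr' fun i => ih i v w h
  | cnt i n φ ih =>
    intro v w h
    obtain ⟨f, hf⟩ := h2 v w h i
    have : Nat.card {x : V // Sat G φ (Function.update v i x)} =
        Nat.card {x : W // Sat H φ (Function.update w i x)} :=
      Nat.card_congr (f.subtypeEquiv fun x => ih _ _ (hf x))
    unfold Sat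
    rw [this]
  | @slv m n I J R _ ι A c b ih =>
    intro v w h
    have hT : Cpt (RelS S) (fun v => {i | Sat G (A i) v}) (fun w => {i | Sat H (A i) w}) :=
      fun v w h => Set.ext fun i => ih i v w h
    exact h3 v w h m n I J R (fun v => c {i | Sat G (A i) v}) (fun w => c {i | Sat H (A i) w})
      (fun v => b {i | Sat G (A i) v}) (fun w => b {i | Sat H (A i) w})
      (fun v w h => congrArg c (hT v w h)) (fun v w h => congrArg b (hT v w h))
  | @sim m I J ι A r R _ hR Γ c N B ih =>
    intro v w h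
    have hm : m ≤ K := by simpa using Fintype.card_le_of_embedding I
    have hT : Cp S (zp v w) (fun u z => {i | Sat G (A i) (ov J z (ov I u v))})
        (fun u z => {i | Sat H (A i) (ov J z (ov I u w))}) := fun u z u' z' h =>
      Set.ext fun i => ih i _ _ (hS.down _ h _ (zp_ov2 I J u u' z z' v w))
    obtain ⟨P, Q, hPQ, hQP, hA⟩ := h4 _ h (card_zp v w) m hm _ _ _ hT r R hR
    unfold Sat Similar
    letI := Fintype.ofFinite (Qt (fun u z => {i | Sat G (A i) (ov J z (ov I u v))}) r)
    letI := Fintype.ofFinite (Qt (fun u z => {i | Sat H (A i) (ov J z (ov I u w))}) r)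
    constructor
    · rintro ⟨P₁, Q₁, e1, e2, e3⟩
      refine ⟨P * P₁, Q₁ * Q, ?_, ?_, fun γ => ?_⟩
      · rw [Matrix.mul_assoc, ← Matrix.mul_assoc P₁, e1, Matrix.one_mul, hPQ]
      · rw [Matrix.mul_assoc, ← Matrix.mul_assoc Q, hQP, Matrix.one_mul, e2]
      · rw [← Matrix.mul_assoc, hA, Matrix.mul_assoc, e3, Matrix.mul_assoc]
    · rintro ⟨P₁, Q₁, e1, e2, e3⟩
      refine ⟨Q * P₁, Q₁ * P, ?_, ?_, fun γ => ?_⟩
      · rw [Matrix.mul_assoc, ← Matrix.mul_assoc P₁, e1, Matrix.one_mul, hQP]
      · rw [Matrix.mul_assoc, ← Matrix.mul_assoc P, hPQ, Matrix.one_mul, e2]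
      · have h6 := hA (c γ)
        have h7 : (Matrix.of fun p q => c γ (qt
            (fun u z => {i | Sat G (A i) (ov J z (ov I u v))}) r p q)) * Q =
            Q * Matrix.of fun p q => c γ (qt
            (fun u z => {i | Sat H (A i) (ov J z (ov I u w))}) r p q) := by
          have h8 := congrArg (fun M => Q * M * Q) h6
          simp only [Matrix.mul_assoc, hPQ, Matrix.mul_one] at h8
          rw [← Matrix.mul_assoc Q P, hQP, Matrix.one_mul] at h8
          exact h8.symm
        rw [← Matrix.mul_assoc, h7, Matrix.mul_assoc, e3, Matrix.mul_assoc]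
  | @iso m I J ι A r Γ c N B ih =>
    intro v w h
    have hm : m ≤ K := by simpa using Fintype.card_le_of_embedding I
    have hT : Cp S (zp v w) (fun u z => {i | Sat G (A i) (ov J z (ov I u v))})
        (fun u z => {i | Sat H (A i) (ov J z (ov I u w))}) := fun u z u' z' h =>
      Set.ext fun i => ih i _ _ (hS.down _ h _ (zp_ov2 I J u u' z z' v w))
    have h6 := h5 _ h (card_zp v w) m hm _ _ _ hT r Γ c
    unfold Sat
    constructor
    · rintro ⟨hL, e, he⟩
      obtain ⟨f, hf⟩ := h6 (Or.inl hL)
      refine ⟨hL.map f hf, f.symm.trans e, fun u z => ?_⟩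
      have h7 := hf (f.symm u) (f.symm z)
      rw [f.apply_symm_apply, f.apply_symm_apply] at h7
      exact h7.trans (he _ _)
    · rintro ⟨hL, e, he⟩
      obtain ⟨f, hf⟩ := h6 (Or.inr hL)
      refine ⟨?_, f.trans e, fun u z => ?_⟩
      · refine hL.map f.symm fun u z => ?_
        have h7 := hf (f.symm u) (f.symm z)
        rw [f.apply_symm_apply, f.apply_symm_apply] at h7
        exact h7.symm
      · exact (hf u z).symm.trans (he _ _)

end Pool.Agent.LWL
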