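import Pool.Agent.LWL.Oper
import Pool.Agent.LWL.Sat

/-!
# Invertible integral intertwiners from torsor frames
-/

namespace Pool.Agent.LWL

open Finset Classical Pool.Agent.CoWL

variable {V W : Type} {k : ℕ} {S : Set (Finset (V × W))} {s₀ : Finset (V × W)} {𝓐 : Type}
  [AddCommGroup 𝓐]

namespace TF

variable (Fr : TF k S s₀ 𝓐) {m : ℕ}

/-- the bijection of tuples -/
def FF (z : Fin m → V) : Fin m → W := fun i => Fr.F₀ (z i)

/-- the inverse bijection of tuples -/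
def FI (z : Fin m → W) : Fin m → V := fun i => Fr.F₀.symm (z i)

lemma FI_FF (z : Fin m → V) : Fr.FI (Fr.FF z) = z := funext fun i => Fr.F₀.symm_apply_apply _

lemma FF_FI (z : Fin m → W) : Fr.FF (Fr.FI z) = z := funext fun i => Fr.F₀.apply_symm_apply _

/-- membership for pairs of tuples -/
lemma mem_pair (hS : PB S) {f : 𝓐} {u z : Fin m → V} (hk : 2 * m ≤ k)
    (hf : f ∈ Fr.Y (rg u ∪ rg z)) :
    s₀ ∪ zp z (Fr.FF (Fr.tt f z)) ∪ zp u (Fr.FF (Fr.tt f u)) ∈ S := by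
  have h1 : (rg u ∪ rg z).card ≤ k := by
    have h2 := card_union_le (rg u) (rg z)
    have h3 := card_rg u
    have h4 := card_rg z
    omega
  refine hS.down _ (Fr.mem _ f h1 hf) _ ?_
  intro p hp
  rw [mem_union, mem_union, mem_zp, mem_zp] at hp
  rw [mem_union]
  rcases hp with (h | ⟨i, rfl⟩) | ⟨i, rfl⟩
  · exact Or.inl h
  · right
    exact mem_graphOn.2 ⟨mem_union_right _ (mem_rg z i), rfl⟩
  · right
    exact mem_graphOn.2 ⟨mem_union_left _ (mem_rg u i), rfl⟩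

/-- invariance under the stabiliser -/
lemma T_inv (hS : PB S) (hk : 2 * m ≤ k) {α : Type} {A : (Fin m → V) → (Fin m → V) → α}
    {A' : (Fin m → W) → (Fin m → W) → α} (hA : Cp S s₀ A A') {t : 𝓐} (ht : t ∈ Fr.T)
    (u z : Fin m → V) : A (Fr.tt t u) (Fr.tt t z) = A u z := by
  have h1 : (rg u ∪ rg z).card ≤ k := by
    have h2 := card_union_le (rg u) (rg z)
    have h3 := card_rg u
    have h4 := card_rg z
    omega
  obtain ⟨f, hf⟩ := Fr.ne _ h1
  have e1 : A u z = A' (Fr.FF (Fr.tt (f + t) u)) (Fr.FF (Fr.tt (f + t) z)) :=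
    hA _ _ _ _ (Fr.mem_pair hS hk (Fr.tors _ f hf t ht))
  have h2 : f ∈ Fr.Y (rg (Fr.tt t u) ∪ rg (Fr.tt t z)) := by
    have h3 := Fr.idx ∅ (rg u ∪ rg z) t
    rw [empty_union, empty_union, image_union, ← Fr.rg_tt, ← Fr.rg_tt] at h3
    rw [h3]; exact hf
  have e2 := hA _ _ _ _ (Fr.mem_pair hS hk h2)
  rw [e1, e2, Fr.tt_add, Fr.tt_add]

variable [Fintype V] [Fintype 𝓐]

/-- the joint kernel -/
noncomputable def jk (C : Finset V) (w : 𝓐) (u z v₀ z₀ : Fin m → V) : ℤ :=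
  ((Fintype.card 𝓐 / (Fr.YP C w (rg z ∪ rg u)).card : ℕ) : ℤ) *
    ∑ f, if f ∈ Fr.YP C w (rg z ∪ rg u) ∧ Fr.tt f u = v₀ ∧ Fr.tt f z = z₀ then 1 else 0

lemma fibc_sum {α : Type} (Y : Finset 𝓐) (ρ : 𝓐 → α) (t : α)
    {_ : ∀ f, Decidable (f ∈ Y ∧ ρ f = t)} :
    (∑ f, if f ∈ Y ∧ ρ f = t then (1 : ℤ) else 0) = (fibc Y ρ t : ℤ) := by
  unfold fibc
  rw [← Finset.sum_filter, Finset.sum_const, nsmul_eq_mul, mul_one]
  congr 2
  ext f
  simp

/-- the sum over the second coordinate of the image -/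
lemma jk_sum2 {C : Finset V} {w : 𝓐} (hw : w ∈ Fr.Y C) (hk : C.card + 2 * m ≤ k)
    (u v₀ z : Fin m → V) : ∑ z₀, Fr.jk C w u z v₀ z₀ = Fr.uu C w v₀ u := by
  have hc : (C ∪ (rg z ∪ rg u)).card ≤ k := by
    have h1 := card_union_le C (rg z ∪ rg u)
    have h2 := card_union_le (rg z) (rg u)
    have h3 := card_rg u
    have h4 := card_rg z
    omega
  unfold jk
  rw [← Finset.mul_sum, Finset.sum_comm]
  have h1 : ∀ f, (∑ z₀, if f ∈ Fr.YP C w (rg z ∪ rg u) ∧ Fr.tt f u = v₀ ∧ Fr.tt f z = z₀ then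
      (1 : ℤ) else 0) = if f ∈ Fr.YP C w (rg z ∪ rg u) ∧ Fr.tt f u = v₀ then 1 else 0 := by
    intro f
    rw [Finset.sum_eq_single (Fr.tt f z)]
    · simp
    · intro z₀ _ hz
      rw [if_neg]
      rintro ⟨-, -, h⟩
      exact hz h.symm
    · intro h; exact absurd (mem_univ _) h
  rw [Finset.sum_congr rfl fun f _ => h1 f, Fr.uu_apply,
    ← Fr.YP_prop hw (D' := rg u) subset_union_right hc subset_rfl]
  exact congrArg _ (fibc_sum _ (fun f => Fr.tt f u) v₀)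

/-- the sum over the first tuple -/
lemma jk_sum1 {C : Finset V} {w : 𝓐} (hw : w ∈ Fr.Y C) (hk : C.card + 2 * m ≤ k)
    (z z₀ v₀ : Fin m → V) : ∑ u, Fr.jk C w u z v₀ z₀ = Fr.uu C w z₀ z := by
  have hc : (C ∪ (rg z ∪ rg v₀)).card ≤ k := by
    have h1 := card_union_le C (rg z ∪ rg v₀)
    have h2 := card_union_le (rg z) (rg v₀)
    have h3 := card_rg v₀
    have h4 := card_rg z
    omega
  unfold jk
  simp only [Finset.mul_sum]
  rw [Finset.sum_comm]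
  have h1 : ∀ f, (∑ u, ((Fintype.card 𝓐 / (Fr.YP C w (rg z ∪ rg u)).card : ℕ) : ℤ) *
      (if f ∈ Fr.YP C w (rg z ∪ rg u) ∧ Fr.tt f u = v₀ ∧ Fr.tt f z = z₀ then (1 : ℤ) else 0)) =
      ((Fintype.card 𝓐 / (Fr.YP C w (rg z ∪ rg v₀)).card : ℕ) : ℤ) *
      (if f ∈ Fr.YP C w (rg z ∪ rg v₀) ∧ Fr.tt f z = z₀ then (1 : ℤ) else 0) := by
    intro f
    have e1 : Fr.YP C w (rg z ∪ rg (Fr.tt (-f) v₀)) = Fr.YP C w (rg z ∪ rg v₀) := by
      rw [Fr.rg_tt, Fr.YP_idx]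
    have e2 : Fr.tt f (Fr.tt (-f) v₀) = v₀ := by
      rw [← Fr.tt_add, add_neg_cancel, Fr.tt_zero]
    rw [Finset.sum_eq_single (Fr.tt (-f) v₀)]
    · rw [e1]
      simp [e2]
    · intro u _ hu
      rw [if_neg, mul_zero]
      rintro ⟨-, h, -⟩
      exact hu (Fr.tt_eq_iff.1 h)
    · intro h; exact absurd (mem_univ _) h
  rw [Finset.sum_congr rfl fun f _ => h1 f, ← Finset.mul_sum, Fr.uu_apply,
    ← Fr.YP_prop hw (D' := rg z) subset_union_left hc subset_rfl]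
  exact congrArg _ (fibc_sum _ (fun f => Fr.tt f z) z₀)

/-- the matrix between the two sides -/
def Ph (R : Type) [Ring R] (x : Matrix (Fin m → V) (Fin m → V) ℤ) :
    Matrix (Fin m → W) (Fin m → V) R := Matrix.of fun z' z => ((x (Fr.FI z') z : ℤ) : R)

/-- the matrix in the other direction -/
def Ph' (R : Type) [Ring R] (x : Matrix (Fin m → V) (Fin m → V) ℤ) :
    Matrix (Fin m → V) (Fin m → W) R := Matrix.of fun z z' => ((x z (Fr.FI z') : ℤ) : R)

/-- the matrix `x` intertwines -/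
def Itw (x : Matrix (Fin m → V) (Fin m → V) ℤ) [Fintype W] : Prop :=
  ∀ (R : Type) [Ring R] (A : Matrix (Fin m → V) (Fin m → V) R)
    (A' : Matrix (Fin m → W) (Fin m → W) R), Cp S s₀ A A' → A' * Fr.Ph R x = Fr.Ph R x * A

lemma Ph_mul (R : Type) [Ring R] (x y : Matrix (Fin m → V) (Fin m → V) ℤ) :
    Fr.Ph R (x * y) = Fr.Ph R x * y.map (Int.cast : ℤ → R) := by
  ext z' z
  simp only [Ph, Matrix.of_apply, Matrix.mul_apply, Matrix.map_apply, Int.cast_sum, Int.cast_mul]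

variable [Fintype W]

lemma Itw_uu (hS : PB S) {C : Finset V} {w : 𝓐} (hw : w ∈ Fr.Y C) (hk : C.card + 2 * m ≤ k) :
    Fr.Itw (Fr.uu C w : Matrix (Fin m → V) (Fin m → V) ℤ) := by
  intro R _ A A' hA
  ext u' z
  rw [Matrix.mul_apply, Matrix.mul_apply]
  refine transport (fun u z u' z' => Fr.jk C w u z (Fr.FI u') (Fr.FI z'))
    (fun z z' => Fr.uu C w (Fr.FI z') z) (fun u u' => Fr.uu C w (Fr.FI u') u) ?_ ?_ A A' ?_ u' z
  · intro z z' u'
    exact Fr.jk_sum1 hw hk z (Fr.FI z') (Fr.FI u')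
  · intro u u' z
    rw [← Fr.jk_sum2 hw hk u (Fr.FI u') z]
    exact Function.Bijective.sum_comp (e := Fr.FI)
      ⟨fun a b h => by rw [← Fr.FF_FI a, h, Fr.FF_FI], fun b => ⟨Fr.FF b, Fr.FI_FF b⟩⟩
      (fun z₀ => Fr.jk C w u z (Fr.FI u') z₀)
  · intro u z u' z' hne
    have h1 : ∃ f, f ∈ Fr.YP C w (rg z ∪ rg u) ∧ Fr.tt f u = Fr.FI u' ∧
        Fr.tt f z = Fr.FI z' := by
      by_contra hcon
      push Not at hcon
      refine hne ?_
      change Fr.jk C w u z (Fr.FI u') (Fr.FI z') = 0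
      unfold jk
      rw [Finset.sum_eq_zero, mul_zero]
      intro f _
      rw [if_neg]
      rintro ⟨h1, h2, h3⟩
      exact hcon f h1 h2 h3
    obtain ⟨f, h1, h2, h3⟩ := h1
    have h4 : f ∈ Fr.Y (rg u ∪ rg z) := by
      have h5 := (Fr.mem_YP.1 h1).1
      rw [union_comm (rg z) (rg u)] at h5
      exact Fr.anti _ _ subset_union_right h5
    have h5 := hA _ _ _ _ (Fr.mem_pair hS (by omega) h4)
    rw [h2, h3, Fr.FF_FI, Fr.FF_FI] at h5
    exact h5

lemma Itw_ee (hS : PB S) (C : Finset V) (hk : 2 * m ≤ k)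
    {x : Matrix (Fin m → V) (Fin m → V) ℤ} (hx : Fr.Itw x) : Fr.Itw (x * Fr.ee C) := by
  intro R _ A A' hA
  have h1 : (A * (Fr.ee C : Matrix (Fin m → V) (Fin m → V) ℤ).map (Int.cast : ℤ → R)) =
      (Fr.ee C : Matrix (Fin m → V) (Fin m → V) ℤ).map (Int.cast : ℤ → R) * A := by
    ext u z
    rw [Matrix.mul_apply, Matrix.mul_apply]
    simp only [Matrix.map_apply]
    have e1 : ∀ y, A u y * ((Fr.ee C y z : ℤ) : R) =
        ∑ a, if Fr.tt a z = y then A u y * ((Fr.ep C z a : ℤ) : R) else 0 := by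
      intro y
      unfold ee
      rw [Fr.Mk_apply, Int.cast_sum, Finset.mul_sum]
      refine Finset.sum_congr rfl fun a _ => ?_
      split_ifs <;> simp
    have e2 : ∀ y, ((Fr.ee C u y : ℤ) : R) * A y z =
        ∑ a, if Fr.tt a y = u then ((Fr.ep C y a : ℤ) : R) * A y z else 0 := by
      intro y
      unfold ee
      rw [Fr.Mk_apply, Int.cast_sum, Finset.sum_mul]
      refine Finset.sum_congr rfl fun a _ => ?_
      split_ifs <;> simp
    refine (Finset.sum_congr rfl fun y _ => e1 y).trans (Eq.trans Finset.sum_comm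
      (Eq.trans ?_ (Eq.trans Finset.sum_comm (Finset.sum_congr rfl fun y _ => e2 y).symm)))
    refine Finset.sum_congr rfl fun a _ => ?_
    rw [Finset.sum_eq_single (Fr.tt a z) (fun y _ hy => if_neg fun h => hy h.symm)
      (fun h => absurd (mem_univ _) h), if_pos rfl, Finset.sum_eq_single (Fr.tt (-a) u)]
    · rw [if_pos (by rw [← Fr.tt_add, add_neg_cancel, Fr.tt_zero])]
      unfold ep
      by_cases ha : a ∈ Fr.TC C
      · have h2 := Fr.T_inv hS hk hA (Fr.mem_TC.1 ha).1 (Fr.tt (-a) u) z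
        rw [← Fr.tt_add, add_neg_cancel, Fr.tt_zero] at h2
        rw [if_pos ha, h2]
        exact (Int.cast_commute _ _).symm.eq
      · rw [if_neg ha]; simp
    · intro y _ hy
      rw [if_neg]
      intro h
      exact hy (Fr.tt_eq_iff.1 h)
    · intro h; exact absurd (mem_univ _) h
  rw [Fr.Ph_mul, ← Matrix.mul_assoc, hx R A A' hA, Matrix.mul_assoc, h1, Matrix.mul_assoc]

omit [Fintype V] [Fintype 𝓐] [Fintype W] [AddCommGroup 𝓐] in
lemma one_inst {Z : Type} {d d' : DecidableEq Z} {x : Matrix Z Z ℤ} {c : ℤ}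
    (h : x = c • (@OfNat.ofNat (Matrix Z Z ℤ) 1 (@One.toOfNat1 _ (@Matrix.one Z ℤ d _ _)))) :
    x = c • (@OfNat.ofNat (Matrix Z Z ℤ) 1 (@One.toOfNat1 _ (@Matrix.one Z ℤ d' _ _))) := by
  cases Subsingleton.elim d d'
  exact h

/-- **Invertible intertwiners.** -/
theorem glued (hS : PB S) (hk : 3 * m ≤ k) :
    ∃ (x y : Matrix (Fin m → V) (Fin m → V) ℤ) (α : ℕ),
      y * x = ((Fintype.card 𝓐 : ℤ) ^ α) • 1 ∧ x * y = ((Fintype.card 𝓐 : ℤ) ^ α) • 1 ∧
      Fr.Itw x := by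
  let ι := {C : Finset V // C.card ≤ m}
  have hne : ∀ C : ι, (Fr.Y C.1).Nonempty := fun C => Fr.ne _ (C.2.trans (by omega))
  choose w hw using hne
  let L : List ι := (univ : Finset ι).toList
  have h := mat_glue (Fintype.card 𝓐) (fun C : ι => (Fr.uu C.1 (w C) :
      Matrix (Fin m → V) (Fin m → V) ℤ)) (fun C : ι => Fr.uu' C.1 (w C))
    (fun C : ι => Fr.ee C.1)
    (fun i j => Fr.Mk_comm (Fr.mu_inv _ _) (Fr.mu_inv _ _))
    (fun i j => Fr.Mk_comm (Fr.mu_inv _ _) (Fr.mu'_inv _ _))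
    (fun i j => Fr.Mk_comm (Fr.mu_inv _ _) (Fr.ep_inv _))
    (fun i j => Fr.Mk_comm (Fr.mu'_inv _ _) (Fr.mu'_inv _ _))
    (fun i j => Fr.Mk_comm (Fr.mu'_inv _ _) (Fr.ep_inv _))
    (fun i j => Fr.Mk_comm (Fr.ep_inv _) (Fr.ep_inv _))
    (fun i => Fr.uu'_mul_uu (hw i) (by have := i.2; omega))
    (fun i => Fr.ee_mul_ee _)
    (fun i => Fr.uu_mul_ee _ _)
    (fun i => Fr.uu'_mul_ee _ _) L
    (fun z => ⟨⟨rg z, card_rg z⟩, Finset.mem_toList.2 (mem_univ _), fun z' => by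
      refine (Fr.ee_rg z z').trans ?_
      by_cases h : z' = z
      · rw [if_pos h, if_pos h]
      · rw [if_neg h, if_neg h]⟩)
    (fun x => Fr.Itw x) ?_ ?_ ?_ ?_ ?_
  · obtain ⟨s, s', h1, h2, h3⟩ := h
    exact ⟨s, s', 2 * L.length, one_inst h1, one_inst h2, h3⟩
  · intro R _ A A' _
    ext u' z
    simp [Matrix.mul_apply, Ph]
  · intro x y hx hy R _ A A' hA
    have e : Fr.Ph R (x + y) = Fr.Ph R x + Fr.Ph R y := by
      ext u' z; simp [Ph]
    rw [e, Matrix.mul_add, Matrix.add_mul, hx R A A' hA, hy R A A' hA]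
  · intro n x hx R _ A A' hA
    have e : Fr.Ph R (n • x) = n • Fr.Ph R x := by
      ext u' z; simp [Ph]
    rw [e, Matrix.mul_smul, Matrix.smul_mul, hx R A A' hA]
  · intro i x hx
    exact Fr.Itw_ee hS _ (by omega) hx
  · intro i
    exact Fr.Itw_uu hS (hw i) (by have := i.2; omega)

end TF

end Pool.Agent.LWL
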