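import Pool.Agent.LWL.IsoAbs
import Pool.Agent.CoWL.SysCohom

/-!
# Inverse sections; isomorphism quantifiers
-/

namespace Pool.Agent.LWL

open Finset Classical Pool.Agent.CoWL

section generic

variable {V W : Type}

lemma mem_inv {s : Finset (V × W)} {p : W × V} : p ∈ inv s ↔ (p.2, p.1) ∈ s := by
  unfold inv
  rw [mem_image]
  constructor
  · rintro ⟨⟨a, b⟩, h, rfl⟩; exact h
  · intro h; exact ⟨(p.2, p.1), h, rfl⟩

lemma inv_inv (s : Finset (V × W)) : inv (inv s) = s := by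
  ext p
  rw [mem_inv, mem_inv]

lemma card_inv (s : Finset (V × W)) : (inv s).card ≤ s.card := card_image_le

lemma inv_union2 {m n : ℕ} (s : Finset (V × W)) (z : Fin n → V) (z' : Fin n → W)
    (u : Fin m → V) (u' : Fin m → W) :
    inv (s ∪ zp z z' ∪ zp u u') = inv s ∪ zp z' z ∪ zp u' u := by
  ext p
  rw [mem_inv, mem_union, mem_union, mem_union, mem_union, mem_inv, mem_zp, mem_zp, mem_zp,
    mem_zp]
  have h : ∀ {n : ℕ} (z : Fin n → V) (z' : Fin n → W),
      (∃ i, (z i, z' i) = (p.2, p.1)) ↔ ∃ i, (z' i, z i) = p := by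
    intro n z z'
    refine exists_congr fun i => ?_
    rw [Prod.ext_iff, Prod.ext_iff]
    exact and_comm
  rw [h, h]

/-- one half of the condition for isomorphism quantifiers -/
def IsoH (K D : ℕ) (S : Set (Finset (V × W))) : Prop :=
  ∀ s ∈ S, s.card ≤ K → ∀ (m : ℕ), m ≤ K → ∀ (τ : Type) (t : (Fin m → V) → (Fin m → V) → τ)
    (t' : (Fin m → W) → (Fin m → W) → τ), Cp S s t t' → ∀ (r : Set τ) (Γ : Type)
    (c : Set τ → Option Γ), Low D (fun p q => c (qt t r p q)) →
    ∃ e : Qt t r ≃ Qt t' r, ∀ p q, c (qt t' r (e p) (e q)) = c (qt t r p q)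

theorem isoT_of {K D : ℕ} {S : Set (Finset (V × W))} {S' : Set (Finset (W × V))}
    (h1 : ∀ s ∈ S, inv s ∈ S') (h2 : ∀ s ∈ S', inv s ∈ S) (hS : IsoH K D S)
    (hS' : IsoH K D S') : IsoT K D S := by
  intro s hs hsK m hm τ t t' hC r Γ c hL
  rcases hL with hL | hL
  · exact hS s hs hsK m hm τ t t' hC r Γ c hL
  · have hC' : Cp S' (inv s) t' t := by
      intro u z u' z' h
      have h3 := h2 _ h
      rw [inv_union2, inv_inv] at h3
      exact (hC _ _ _ _ h3).symm
    obtain ⟨e, he⟩ := hS' _ (h1 s hs) ((card_inv s).trans hsK) m hm τ t' t hC' r Γ c hL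
    refine ⟨e.symm, fun p q => ?_⟩
    have h3 := he (e.symm p) (e.symm q)
    rw [e.apply_symm_apply, e.apply_symm_apply] at h3
    exact h3.symm

end generic

section sys

variable {V : Type} {N : ℕ}

lemma inv_graphOn' {A B : Type} (C : Finset A) (f : A ≃ B) :
    inv (graphOn C f) = graphOn (C.map f.toEmbedding) f.symm := by
  ext p
  rw [mem_inv, mem_graphOn, mem_graphOn, mem_map_equiv]
  constructor
  · rintro ⟨h1, h2⟩
    dsimp only at h1 h2
    have : f.symm p.1 = p.2 := by rw [h2]; simp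
    exact ⟨by rw [this]; exact h1, this.symm⟩
  · rintro ⟨h1, h2⟩
    dsimp only
    rw [h2]
    exact ⟨h1, by simp⟩

theorem inv_mem' {κA κB : V → V → V → Fin N} {k K : ℕ} (M : Sys κA κB K)
    (M' : Sys κB κA K)
    (hi : ∀ D g, M.Good D g → ∃ g', M'.Good (D.map (M.φ g).toEmbedding) g' ∧
      M'.φ g' = (M.φ g).symm) (s : Finset (GV V N × GV V N)) (hs : s ∈ M.S k) :
    inv s ∈ M'.S k := by
  obtain ⟨C, g, hC, hg, rfl⟩ := hs
  obtain ⟨g', hg', he⟩ := hi _ g hg
  refine ⟨C.map (hat N (M.φ g)).toEmbedding, g', by rw [card_map]; exact hC, ?_, ?_⟩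
  · have h1 : suppS (C.map (hat N (M.φ g)).toEmbedding) =
        (suppS C).map (M.φ g).toEmbedding := by
      have h2 := suppS_hat_symm C (M.φ g).symm
      exact h2
    rw [h1]; exact hg'
  · rw [inv_graphOn', he]
    rfl

end sys

end Pool.Agent.LWL
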