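import Pool.Agent.LWL.QBF
import Pool.Agent.LWL.Glue

/-!
# From local embeddings to an isomorphism of the quotient digraphs

PROOF. Write `[y]` for the class of `y`. `F` = bijection of `forth_tuple` for `s`. Fix `x`, `x' = F x`,
and `Wd`, `θ` from `key`. Map the component of `[x]` to that of `[x']`: `q ↦ [θ y]` for any `y ∈ Wd` with
`[y] = q`. Well defined, injective (`quot_iff`), colours are preserved (`qt_eq`), `[θ y]` is in the
component of `[x']` (`conn_iff` for `(x, y)`, `(x', θ y)`; sets of the form `s ∪ zp y₂ (θ y₂) ∪ zp y₁ (θ y₁)`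
are in `S` by `PB.down`), and `[x]` goes to `[x']` (`quot_iff` for `y` with `[y] = [x]` and `x`).
The two components have the same size: for `s₁ = s ∪ zp x x'` the bijection `F₁` of `forth_tuple` satisfies
`Conn [x] [y] ↔ Conn [x'] [F₁ y]` (`conn_iff`) and the class of `y` has as many elements as that of `F₁ y`
(`class_card` with `s ∪ zp y (F₁ y) ∈ S`); the number of classes in the component is
`∑ y with Conn [x] [y], 1 / (size of the class of y)` (in `ℚ`). So the injective map is a bijection, an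
isomorphism of the component of `[x]` onto that of `[F x]`.
Counting once more with weights `1 / (size of the class of y)` and the bijection `F` (`class_card`): for
each isomorphism type of components, `Qt t r` and `Qt t' r` have the same number of vertices whose
component has this type. Hence there is a bijection `f : Qt t r ≃ Qt t' r` that respects the types of the
components (choose it type by type: `Equiv.sigmaFiberEquiv` or `Equiv.ofFiberEquiv`), and
`iso_of_components` finishes. (Finiteness: `Quot.finite`.)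
-/

namespace Pool.Agent.LWL

open Finset Classical Pool.Agent.CoWL

variable {V W : Type}

private def IsoAbs_G {X Y Γ : Type} (c : X → X → Option Γ) (c' : Y → Y → Option Γ) (x : X)
    (y : Y) : Prop :=
  ∃ e : {z // Conn c x z} ≃ {z // Conn c' y z}, ∀ p q, c' (e p).1 (e q).1 = c p.1 q.1

private lemma IsoAbs_refl {X Γ : Type} (c : X → X → Option Γ) (x : X) : IsoAbs_G c c x x :=
  ⟨Equiv.refl _, fun _ _ => rfl⟩

private lemma IsoAbs_symm {X Y Γ : Type} {c : X → X → Option Γ} {c' : Y → Y → Option Γ} {x : X}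
    {y : Y} (h : IsoAbs_G c c' x y) : IsoAbs_G c' c y x := by
  obtain ⟨e, he⟩ := h
  refine ⟨e.symm, fun p q => ?_⟩
  have := he (e.symm p) (e.symm q)
  rw [Equiv.apply_symm_apply, Equiv.apply_symm_apply] at this
  exact this.symm

private lemma IsoAbs_trans {X Y Z Γ : Type} {c : X → X → Option Γ} {c' : Y → Y → Option Γ}
    {c'' : Z → Z → Option Γ} {x : X} {y : Y} {z : Z} (h : IsoAbs_G c c' x y)
    (h' : IsoAbs_G c' c'' y z) : IsoAbs_G c c'' x z := by
  obtain ⟨e, he⟩ := h
  obtain ⟨e', he'⟩ := h'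
  refine ⟨e.trans e', fun p q => ?_⟩
  rw [Equiv.trans_apply, Equiv.trans_apply, he', he]

/-- counting the classes by their elements -/
private lemma IsoAbs_count {T X : Type} [Fintype T] [Fintype X] (π : T → X)
    (hπ : Function.Surjective π) (P : X → Prop) :
    (Nat.card {p // P p} : ℚ) =
      ∑ x : T, if P (π x) then (1 : ℚ) / Nat.card {y // π y = π x} else 0 := by
  have h1 : ∑ x : T, (if P (π x) then (1 : ℚ) / Nat.card {y // π y = π x} else 0) =
      ∑ p : X, ∑ x ∈ univ.filter (fun x => π x = p),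
        (if P p then (1 : ℚ) / Nat.card {y // π y = p} else 0) := by
    rw [← Finset.sum_fiberwise (s := univ) (g := π)]
    refine Finset.sum_congr rfl fun p _ => Finset.sum_congr rfl fun x hx => ?_
    rw [(Finset.mem_filter.1 hx).2]
  rw [h1]
  have h2 : ∀ p : X, ∑ x ∈ univ.filter (fun x => π x = p),
      (if P p then (1 : ℚ) / Nat.card {y // π y = p} else 0) = if P p then 1 else 0 := by
    intro p
    rw [Finset.sum_const]
    have h3 : (univ.filter (fun x => π x = p)).card = Nat.card {y // π y = p} := by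
      rw [Nat.card_eq_fintype_card, Fintype.card_subtype]
    have h4 : 0 < Nat.card {y // π y = p} := by
      obtain ⟨x, hx⟩ := hπ p
      exact Nat.card_pos_iff.2 ⟨⟨⟨x, hx⟩⟩, inferInstance⟩
    have h5 : (Nat.card {y // π y = p} : ℚ) ≠ 0 := by
      exact_mod_cast h4.ne'
    rw [h3, nsmul_eq_mul]
    split_ifs
    · exact mul_one_div_cancel h5
    · rw [mul_zero]
  rw [Finset.sum_congr rfl fun p _ => h2 p, Finset.sum_boole, Nat.card_eq_fintype_card,
    Fintype.card_subtype]

private lemma IsoAbs_card {T X T' X' : Type} [Finite T] [Finite T'] (π : T → X)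
    (hπ : Function.Surjective π) (π' : T' → X') (hπ' : Function.Surjective π') (F : T ≃ T')
    (hn : ∀ x, Nat.card {y // π y = π x} = Nat.card {y // π' y = π' (F x)})
    (P : X → Prop) (P' : X' → Prop) (hP : ∀ x, P (π x) ↔ P' (π' (F x))) :
    Nat.card {p // P p} = Nat.card {p // P' p} := by
  have hX : Finite X := Finite.of_surjective π hπ
  have hX' : Finite X' := Finite.of_surjective π' hπ'
  let _ := Fintype.ofFinite T
  let _ := Fintype.ofFinite T'
  let _ := Fintype.ofFinite X
  let _ := Fintype.ofFinite X'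
  have h1 := IsoAbs_count π hπ P
  have h2 := IsoAbs_count π' hπ' P'
  rw [← Equiv.sum_comp F] at h2
  have h3 : (Nat.card {p // P p} : ℚ) = Nat.card {p // P' p} := by
    rw [h1, h2]
    refine Finset.sum_congr rfl fun x _ => ?_
    rw [hn x]
    exact if_congr (hP x) rfl rfl
  exact_mod_cast h3

/-- the component of `[x]` is isomorphic to the component of `[x']` -/
private lemma IsoAbs_comp [Finite V] [Finite W] {k m : ℕ} {S : Set (Finset (V × W))} (hS : PB S)
    (hf : Forth k S) {s : Finset (V × W)} {τ Γ : Type}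
    {t : (Fin m → V) → (Fin m → V) → τ} {t' : (Fin m → W) → (Fin m → W) → τ}
    (hC : Cp S s t t') (r : Set τ) (c : Set τ → Option Γ) (hk : s.card + 6 * m ≤ k)
    (key : ∀ x x', s ∪ zp x x' ∈ S → ∃ (Wd : Set (Fin m → V)) (θ : (Fin m → V) → (Fin m → W)),
      (∀ q, Conn (fun p q : Qt t r => c (qt t r p q)) (Quot.mk _ x) q →
        ∃ y ∈ Wd, Quot.mk _ y = q) ∧
      ∀ y₁ ∈ Wd, ∀ y₂ ∈ Wd, s ∪ zp x x' ∪ zp y₁ (θ y₁) ∪ zp y₂ (θ y₂) ∈ S)
    (x : Fin m → V) (x' : Fin m → W) (hx : s ∪ zp x x' ∈ S) :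
    IsoAbs_G (fun p q : Qt t r => c (qt t r p q)) (fun p q : Qt t' r => c (qt t' r p q))
      (Quot.mk _ x) (Quot.mk _ x') := by
  obtain ⟨Wd, θ, h1, h2⟩ := key x x' hx
  -- the sizes
  have hs1 : (s ∪ zp x x').card + m ≤ k := by
    have h3 := Finset.card_union_le s (zp x x')
    have h4 := card_zp x x'
    omega
  obtain ⟨F, hF⟩ := forth_tuple hf m _ hx hs1
  have hcard : Nat.card {q // Conn (fun p q : Qt t r => c (qt t r p q)) (Quot.mk _ x) q} =
      Nat.card {q // Conn (fun p q : Qt t' r => c (qt t' r p q)) (Quot.mk _ x') q} := by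
    refine IsoAbs_card (Quot.mk _) Quot.mk_surjective (Quot.mk _) Quot.mk_surjective F ?_ _ _ ?_
    · intro y
      refine class_card hS hf hC r (by omega) (hS.down _ (hF y) _ ?_)
      intro a ha
      simp only [mem_union] at ha ⊢
      tauto
    · intro y
      refine conn_iff hS hf hC r c (by omega) (hS.down _ (hF y) _ ?_)
      intro a ha
      simp only [mem_union] at ha ⊢
      tauto
  have : Nonempty (Fin m → V) := ⟨x⟩
  choose! y hy1 hy2 using h1
  have hconn : ∀ q, Conn (fun p q : Qt t r => c (qt t r p q)) (Quot.mk _ x) q →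
      Conn (fun p q : Qt t' r => c (qt t' r p q)) (Quot.mk _ x') (Quot.mk _ (θ (y q))) := by
    intro q hq
    have h3 := conn_iff hS hf hC r c (by omega) (u := x) (z := y q) (u' := x') (z' := θ (y q))
      (hS.down _ (h2 _ (hy1 q hq) _ (hy1 q hq)) _ (by
        intro a ha
        simp only [mem_union] at ha ⊢
        tauto))
    rw [hy2 q hq] at h3
    exact h3.1 hq
  have hquot : ∀ q₁ q₂, Conn (fun p q : Qt t r => c (qt t r p q)) (Quot.mk _ x) q₁ →
      Conn (fun p q : Qt t r => c (qt t r p q)) (Quot.mk _ x) q₂ →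
      (q₁ = q₂ ↔ (Quot.mk _ (θ (y q₁)) : Qt t' r) = Quot.mk _ (θ (y q₂))) := by
    intro q₁ q₂ hq₁ hq₂
    have h3 := quot_iff hS hf hC r (by omega) (u := y q₁) (z := y q₂) (u' := θ (y q₁))
      (z' := θ (y q₂))
      (hS.down _ (h2 _ (hy1 q₁ hq₁) _ (hy1 q₂ hq₂)) _ (by
        intro a ha
        simp only [mem_union] at ha ⊢
        tauto))
    rw [hy2 q₁ hq₁, hy2 q₂ hq₂] at h3
    exact h3
  have hqt : ∀ q₁ q₂, Conn (fun p q : Qt t r => c (qt t r p q)) (Quot.mk _ x) q₁ →
      Conn (fun p q : Qt t r => c (qt t r p q)) (Quot.mk _ x) q₂ →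
      qt t r q₁ q₂ = qt t' r (Quot.mk _ (θ (y q₁))) (Quot.mk _ (θ (y q₂))) := by
    intro q₁ q₂ hq₁ hq₂
    have h3 := qt_eq hS hf hC r (by omega) (u := y q₁) (z := y q₂) (u' := θ (y q₁))
      (z' := θ (y q₂))
      (hS.down _ (h2 _ (hy1 q₁ hq₁) _ (hy1 q₂ hq₂)) _ (by
        intro a ha
        simp only [mem_union] at ha ⊢
        tauto))
    rw [hy2 q₁ hq₁, hy2 q₂ hq₂] at h3
    exact h3
  let g : {q // Conn (fun p q : Qt t r => c (qt t r p q)) (Quot.mk _ x) q} →
      {q // Conn (fun p q : Qt t' r => c (qt t' r p q)) (Quot.mk _ x') q} :=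
    fun q => ⟨Quot.mk _ (θ (y q.1)), hconn q.1 q.2⟩
  have hginj : Function.Injective g := by
    intro q₁ q₂ h
    have h3 : (Quot.mk _ (θ (y q₁.1)) : Qt t' r) = Quot.mk _ (θ (y q₂.1)) :=
      congrArg Subtype.val h
    exact Subtype.ext ((hquot _ _ q₁.2 q₂.2).2 h3)
  have hgbij : Function.Bijective g := hginj.bijective_of_nat_card_le hcard.ge
  refine ⟨Equiv.ofBijective g hgbij, fun p q => ?_⟩
  show c (qt t' r (Quot.mk _ (θ (y p.1))) (Quot.mk _ (θ (y q.1)))) = c (qt t r p.1 q.1)
  rw [hqt _ _ p.2 q.2]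

theorem iso_of_key [Finite V] [Finite W] {k m : ℕ} {S : Set (Finset (V × W))} (hS : PB S)
    (hf : Forth k S) {s : Finset (V × W)} (hs : s ∈ S) {τ Γ : Type}
    {t : (Fin m → V) → (Fin m → V) → τ} {t' : (Fin m → W) → (Fin m → W) → τ}
    (hC : Cp S s t t') (r : Set τ) (c : Set τ → Option Γ) (hk : s.card + 6 * m ≤ k)
    (key : ∀ x x', s ∪ zp x x' ∈ S → ∃ (Wd : Set (Fin m → V)) (θ : (Fin m → V) → (Fin m → W)),
      (∀ q, Conn (fun p q : Qt t r => c (qt t r p q)) (Quot.mk _ x) q →
        ∃ y ∈ Wd, Quot.mk _ y = q) ∧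
      ∀ y₁ ∈ Wd, ∀ y₂ ∈ Wd, s ∪ zp x x' ∪ zp y₁ (θ y₁) ∪ zp y₂ (θ y₂) ∈ S) :
    ∃ e : Qt t r ≃ Qt t' r, ∀ p q, c (qt t' r (e p) (e q)) = c (qt t r p q) := by
  set C : Qt t r → Qt t r → Option Γ := fun p q => c (qt t r p q) with hCdef
  set C' : Qt t' r → Qt t' r → Option Γ := fun p q => c (qt t' r p q) with hCdef'
  have hcomp := IsoAbs_comp hS hf hC r c hk key
  obtain ⟨F, hF⟩ := forth_tuple hf m s hs (by omega)
  set tX : Qt t r → Set (Qt t' r) := fun p => {p' | IsoAbs_G C C' p p'} with htX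
  set tX' : Qt t' r → Set (Qt t' r) := fun p => {p' | IsoAbs_G C' C' p p'} with htX'
  have hkey : ∀ p p', tX p = tX' p' → IsoAbs_G C C' p p' := by
    intro p p' h
    have h1 : p' ∈ tX' p' := IsoAbs_refl C' p'
    rw [← h] at h1
    exact h1
  have hkey' : ∀ p p', IsoAbs_G C C' p p' → tX p = tX' p' := by
    intro p p' h
    ext q
    exact ⟨fun h1 => IsoAbs_trans (IsoAbs_symm h) h1, fun h1 => IsoAbs_trans h h1⟩
  have hcard : ∀ σ, Nat.card {p // tX p = σ} = Nat.card {p // tX' p = σ} := by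
    intro σ
    refine IsoAbs_card (Quot.mk _) Quot.mk_surjective (Quot.mk _) Quot.mk_surjective F ?_ _ _ ?_
    · intro y
      exact class_card hS hf hC r (by omega) (hF y)
    · intro y
      rw [hkey' _ _ (hcomp y (F y) (hF y))]
  have hfib : ∀ σ, Nonempty ({p // tX p = σ} ≃ {p // tX' p = σ}) := fun σ =>
    (Finite.card_eq).1 (hcard σ)
  let f : Qt t r ≃ Qt t' r :=
    ((Equiv.sigmaFiberEquiv tX).symm.trans
      (Equiv.sigmaCongrRight fun σ => (hfib σ).some)).trans (Equiv.sigmaFiberEquiv tX')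
  have hfX : ∀ p, tX' (f p) = tX p := fun p => ((hfib (tX p)).some ⟨p, rfl⟩).2
  exact iso_of_components C C' f fun p => hkey p (f p) (hfX p).symm

end Pool.Agent.LWL
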