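import Pool.Agent.LWL.TInv
import Pool.Agent.LWL.AltCov
import Pool.Agent.LWL.GlobP

/-!
# The key lemma for isomorphism quantifiers

PROOF. `s ∪ zp x x' = graphOn C₀ (hat (phi g₀))`, `g₀` good for `P = suppS C₀` (at most `3 * k` points).
Let `T` be a class of the signatures with respect to `P` (as in `big_of_card`, `CoWL/Hidden.lean`) with at
least `D + 6 + 4 ^ (3 * k)` elements (pigeonhole, `hD`); all transpositions in `T` are hidden for `P`. Fix
`u₁ ≠ u₂` in `T` and `h` from `glob` for `P`, `g₀`. Let `Wd` be the set of `y` with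
`Inv (suppS (range y)) (swap u₁ u₂)` and `θ y = hat (phi h) ∘ y`. For `y₁, y₂ ∈ Wd`:
`s ∪ zp x x' ∪ zp y₁ (θ y₁) ∪ zp y₂ (θ y₂) = graphOn C₂ (hat (phi h))`,
`C₂ = C₀ ∪ range y₁ ∪ range y₂`, and `h` is good for `suppS C₂` because
`Inv (suppS C₂) (swap u₁ u₂)`; at most `s.card + 3 * m ≤ k` elements.
`G1 ch P T` acts on tuples by `hat ψ`; it preserves `t` (`t_inv`), hence acts on `Qt t r` preserving `qt`,
and it fixes `x` and the class of `x`; so we get `f : G1 ch P T →* Stab col (Quot.mk _ x)`,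
`col p q = c (qt t r p q)`. Let `q` be in the component of the class of `x`, `q = Quot.mk _ y`. The
signatures with respect to `suppS (range y)` (at most `3 * m ≤ 3 * k` points) have at most `4 ^ (3 * k)`
values on `T`, so there are `t₁ ≠ t₂` in `T` with the same signature: `Inv (suppS (range y)) (swap t₁ t₂)`.
`alt_cover`: `ψ` with `f ψ = 1`, `ψ (el t₁) = el u₁`, `ψ (el t₂) = el u₂`. Then `y₁ = hat ψ ∘ y` has class
`q` (as `f ψ = 1`) and is in `Wd` (the names of `hat ψ ∘ y` are the images of the names of `y` under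
`g.π`; `swap u₁ u₂ = g.π * swap t₁ t₂ * g.π⁻¹`).
-/

namespace Pool.Agent.CoWL

open Finset Classical Pool.Agent.LWL

variable {a : ℕ}

/-! ### groups acting on the quotient -/

private theorem Key_qmap {X τ : Type} {t : X → X → τ} {e : Equiv.Perm X}
    (ht : ∀ u z, t (e u) (e z) = t u z) (r : Set τ) {u z : X} (h : t u z ∈ r) :
    t (e u) (e z) ∈ r := by rw [ht]; exact h

/-- the action on the quotient -/
private def Key_q {X τ : Type} {t : X → X → τ} (e : Equiv.Perm X)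
    (ht : ∀ u z, t (e u) (e z) = t u z) (r : Set τ) : Qt t r → Qt t r :=
  Quot.map e fun _ _ h => Key_qmap ht r h

private theorem Key_qt_le {X τ : Type} {t : X → X → τ} {e : Equiv.Perm X}
    (ht : ∀ u z, t (e u) (e z) = t u z) (r : Set τ) (p q : Qt t r) :
    qt t r p q ⊆ qt t r (Key_q e ht r p) (Key_q e ht r q) := by
  rintro b ⟨u, z, rfl, rfl, rfl⟩
  exact ⟨e u, e z, rfl, rfl, ht u z⟩

private theorem Key_inv_q {X τ : Type} {t : X → X → τ} {e e' : Equiv.Perm X}
    (ht : ∀ u z, t (e u) (e z) = t u z) (ht' : ∀ u z, t (e' u) (e' z) = t u z) (r : Set τ)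
    (h : ∀ x, e' (e x) = x) (p : Qt t r) : Key_q e' ht' r (Key_q e ht r p) = p := by
  obtain ⟨x, rfl⟩ := Quot.exists_rep p
  show Quot.mk _ (e' (e x)) = Quot.mk _ x
  rw [h]

private theorem Key_conn {Y Γ : Type} {c : Y → Y → Option Γ} {f : Y → Y}
    (hf : ∀ p q, c (f p) (f q) = c p q) {x y : Y} (h : Conn c x y) : Conn c (f x) (f y) := by
  unfold Conn at h ⊢
  induction h with
  | refl => exact Relation.ReflTransGen.refl
  | tail _ h2 ih =>
    refine ih.tail ?_
    rw [hf, hf]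
    exact h2

private theorem Key_hom {G X τ Γ : Type} [Group G] (act : G →* Equiv.Perm X) {t : X → X → τ}
    (ht : ∀ g u z, t (act g u) (act g z) = t u z) (r : Set τ) (c : Set τ → Option Γ) (x : X)
    (hx : ∀ g, act g x = x) :
    ∃ f : G →* Stab (fun p q : Qt t r => c (qt t r p q)) (Quot.mk _ x),
      ∀ (g : G) (y : X) (hy : Conn (fun p q : Qt t r => c (qt t r p q)) (Quot.mk _ x)
        (Quot.mk _ y)), ((f g).1 ⟨Quot.mk _ y, hy⟩).1 = Quot.mk _ (act g y) := by
  set col : Qt t r → Qt t r → Option Γ := fun p q => c (qt t r p q) with hcol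
  have hinv : ∀ (g : G) (x : X), act g⁻¹ (act g x) = x := by
    intro g x
    rw [← Equiv.Perm.mul_apply, ← map_mul, inv_mul_cancel, map_one, Equiv.Perm.one_apply]
  have hinv' : ∀ (g : G) (x : X), act g (act g⁻¹ x) = x := by
    intro g x
    rw [← Equiv.Perm.mul_apply, ← map_mul, mul_inv_cancel, map_one, Equiv.Perm.one_apply]
  have hqt : ∀ (g : G) (p q : Qt t r), qt t r (Key_q (act g) (ht g) r p)
      (Key_q (act g) (ht g) r q) = qt t r p q := by
    intro g p q
    refine Set.Subset.antisymm ?_ (Key_qt_le (ht g) r p q)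
    have h1 := Key_qt_le (ht g⁻¹) r (Key_q (act g) (ht g) r p) (Key_q (act g) (ht g) r q)
    rwa [Key_inv_q (ht g) (ht g⁻¹) r (hinv g), Key_inv_q (ht g) (ht g⁻¹) r (hinv g)] at h1
  have hc : ∀ (g : G) (p q : Qt t r), col (Key_q (act g) (ht g) r p)
      (Key_q (act g) (ht g) r q) = col p q := by
    intro g p q
    show c _ = c _
    rw [hqt]
  have hbase : ∀ g : G, Key_q (act g) (ht g) r (Quot.mk _ x) = Quot.mk _ x := by
    intro g
    show Quot.mk _ (act g x) = Quot.mk _ x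
    rw [hx]
  have hconn : ∀ (g : G) (q : Qt t r), Conn col (Quot.mk _ x) q →
      Conn col (Quot.mk _ x) (Key_q (act g) (ht g) r q) := by
    intro g q hq
    have h1 := Key_conn (hc g) hq
    rwa [hbase] at h1
  let F : G → Equiv.Perm {q // Conn col (Quot.mk _ x) q} := fun g =>
    { toFun := fun q => ⟨Key_q (act g) (ht g) r q.1, hconn g q.1 q.2⟩
      invFun := fun q => ⟨Key_q (act g⁻¹) (ht g⁻¹) r q.1, hconn g⁻¹ q.1 q.2⟩
      left_inv := fun q => Subtype.ext (Key_inv_q (ht g) (ht g⁻¹) r (hinv g) q.1)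
      right_inv := fun q => Subtype.ext (Key_inv_q (ht g⁻¹) (ht g) r (hinv' g) q.1) }
  have hF : ∀ g, F g ∈ Stab col (Quot.mk _ x) := by
    intro g
    refine ⟨Subtype.ext (hbase g), fun p q => hc g p.1 q.1⟩
  let f : G →* Stab col (Quot.mk _ x) :=
    { toFun := fun g => ⟨F g, hF g⟩
      map_one' := by
        refine Subtype.ext (Equiv.ext fun q => Subtype.ext ?_)
        obtain ⟨q, hq⟩ := q
        obtain ⟨y, rfl⟩ := Quot.exists_rep q
        show Quot.mk _ (act 1 y) = Quot.mk _ y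
        rw [map_one, Equiv.Perm.one_apply]
      map_mul' := by
        intro g g'
        refine Subtype.ext (Equiv.ext fun q => Subtype.ext ?_)
        obtain ⟨q, hq⟩ := q
        obtain ⟨y, rfl⟩ := Quot.exists_rep q
        show Quot.mk _ (act (g * g') y) = Quot.mk _ (act g (act g' y))
        rw [map_mul, Equiv.Perm.mul_apply] }
  exact ⟨f, fun g y hy => rfl⟩

/-! ### the action on tuples -/

private theorem Key_hat_mul (ψ φ : Equiv.Perm (Pt a)) (w : GV (Pt a) NC) :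
    hat NC (ψ * φ) w = hat NC ψ (hat NC φ w) := by
  rcases w with ⟨p | ⟨⟨p, q, r⟩, l⟩, o⟩ <;> rfl

private theorem Key_hat_one (w : GV (Pt a) NC) : hat NC (1 : Equiv.Perm (Pt a)) w = w := by
  rcases w with ⟨p | ⟨⟨p, q, r⟩, l⟩, o⟩ <;> rfl

/-- the action of the permutations of the points on the tuples of vertices -/
private def Key_act (a m : ℕ) :
    Equiv.Perm (Pt a) →* Equiv.Perm (Fin m → GV (Pt a) NC) where
  toFun ψ := Equiv.piCongrRight fun _ => hat NC ψ
  map_one' := by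
    ext1 y
    funext i
    exact Key_hat_one (y i)
  map_mul' ψ φ := by
    ext1 y
    funext i
    exact Key_hat_mul ψ φ (y i)

private theorem Key_act_apply {m : ℕ} (ψ : Equiv.Perm (Pt a)) (y : Fin m → GV (Pt a) NC) :
    Key_act a m ψ y = fun i => hat NC ψ (y i) := rfl

private theorem Key_fix {P : Finset (Pt a)} {ψ : Equiv.Perm (Pt a)} (h : ∀ p ∈ P, ψ p = p)
    {w : GV (Pt a) NC} (hw : supp w ⊆ P) : hat NC ψ w = w := by
  have h1 : hat NC ψ w = hat NC (1 : Equiv.Perm (Pt a)) w :=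
    (hat_eq_iff w).2 fun p hp => by rw [h p (hw hp)]; rfl
  rw [h1, Key_hat_one]

/-! ### signatures -/

private theorem Key_sig {n N : ℕ} (D : Finset (Pt a)) (hD : D.card ≤ n) (T : Finset (E a))
    (hT : N * 4 ^ n < T.card) : ∃ T' ⊆ T, N < T'.card ∧
      ∀ u ∈ T', ∀ v ∈ T', Inv D (Equiv.swap u v) := by
  obtain ⟨y, -, hy⟩ := Finset.exists_lt_card_fiber_of_mul_lt_card_of_maps_to
    (s := T) (t := (Finset.univ : Finset (D → Bool × Bool)))
    (f := fun u (p : D) => sig u p.1) (n := N) (fun _ _ => Finset.mem_univ _) (by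
      have h1 : (Finset.univ : Finset (D → Bool × Bool)).card = 4 ^ D.card := by simp
      have h3 : 4 ^ D.card ≤ 4 ^ n := Nat.pow_le_pow_right (by norm_num) hD
      rw [h1]
      calc 4 ^ D.card * N ≤ 4 ^ n * N := Nat.mul_le_mul_right N h3
        _ = N * 4 ^ n := Nat.mul_comm _ _
        _ < T.card := hT)
  refine ⟨_, Finset.filter_subset _ _, hy, fun u hu v hv p hp => ?_⟩
  rw [Finset.mem_filter] at hu hv
  exact fixP_swap (congrFun (hu.2.trans hv.2.symm) ⟨p, hp⟩)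

private theorem Key_fixP {g : Gd a} {t₁ t₂ : E a} {p : Pt a} (h : fixP (Equiv.swap t₁ t₂) p) :
    fixP (Equiv.swap (g.π t₁) (g.π t₂)) (phi g p) := by
  have h1 : Equiv.swap (g.π t₁) (g.π t₂) = g.π * Equiv.swap t₁ t₂ * g.π⁻¹ :=
    Equiv.swap_apply_apply g.π t₁ t₂
  have he : ∀ i : E a, Equiv.swap t₁ t₂ i = i →
      (g.π * Equiv.swap t₁ t₂ * g.π⁻¹) (g.π i) = g.π i := by
    intro i hi
    rw [Equiv.Perm.mul_apply, Equiv.Perm.mul_apply, inv_ap, hi]
  have hs : ∀ Z : Finset (E a), im (Equiv.swap t₁ t₂) Z = Z →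
      im (g.π * Equiv.swap t₁ t₂ * g.π⁻¹) (im g.π Z) = im g.π Z := by
    intro Z hZ
    rw [im_mul, im_mul, im_inv_im, hZ]
  rw [h1]
  cases p with
  | el i => exact he i h
  | p2 i Z v => exact ⟨he i h.1, hs Z h.2⟩
  | p3 A B v => exact ⟨hs A h.1, hs B h.2⟩

private theorem Key_supp_hat (φ : Pt a ≃ Pt a) (w : GV (Pt a) NC) (p : Pt a)
    (hp : p ∈ supp (hat NC φ w)) : ∃ q ∈ supp w, φ q = p := by
  rcases w with ⟨u | ⟨⟨u, v, z⟩, l⟩, o⟩
  · simp only [hat, supp, Equiv.prodCongr_apply, Prod.map, Equiv.sumCongr_apply, Sum.map_inl,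
      mem_singleton] at hp ⊢
    exact ⟨u, rfl, hp.symm⟩
  · simp only [hat, supp, mapT, Equiv.prodCongr_apply, Prod.map, Equiv.sumCongr_apply,
      Sum.map_inr, mem_insert, mem_singleton] at hp ⊢
    rcases hp with h | h | h
    · exact ⟨u, Or.inl rfl, h.symm⟩
    · exact ⟨v, Or.inr (Or.inl rfl), h.symm⟩
    · exact ⟨z, Or.inr (Or.inr rfl), h.symm⟩

private theorem Key_mem_suppS {V : Type} {N : ℕ} {C : Finset (GV V N)} {p : V} :
    p ∈ suppS C ↔ ∃ w ∈ C, p ∈ supp w := by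
  unfold suppS
  rw [mem_biUnion]

private theorem Key_mem_dom {A B : Type} {s : Finset (A × B)} {v : A} :
    v ∈ dom s ↔ ∃ p ∈ s, p.1 = v := by
  unfold dom
  rw [mem_image]

private theorem Key_card_dom {A B : Type} (s : Finset (A × B)) : (dom s).card ≤ s.card := by
  unfold dom
  exact card_image_le

private theorem Key_inv_union {C D : Finset (GV (Pt a) NC)} {ρ : Equiv.Perm (E a)}
    (h1 : Inv (suppS C) ρ) (h2 : Inv (suppS D) ρ) : Inv (suppS (C ∪ D)) ρ := by
  intro p hp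
  obtain ⟨w, hw, hp⟩ := Key_mem_suppS.1 hp
  rw [mem_union] at hw
  rcases hw with hw | hw
  · exact h1 p (Key_mem_suppS.2 ⟨w, hw, hp⟩)
  · exact h2 p (Key_mem_suppS.2 ⟨w, hw, hp⟩)

private theorem Key_graph_union {C D : Finset (GV (Pt a) NC)}
    (f : GV (Pt a) NC → GV (Pt a) NC) :
    graphOn (C ∪ D) f = graphOn C f ∪ graphOn D f := by
  ext p
  rw [mem_union, mem_graphOn, mem_graphOn, mem_graphOn, mem_union]
  tauto

private theorem Key_zp {m : ℕ} (f : GV (Pt a) NC → GV (Pt a) NC) (y : Fin m → GV (Pt a) NC) :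
    zp y (fun i => f (y i)) = graphOn (univ.image y) f := by
  ext p
  rw [mem_zp, mem_graphOn, mem_image]
  constructor
  · rintro ⟨i, rfl⟩
    exact ⟨⟨i, mem_univ i, rfl⟩, rfl⟩
  · rintro ⟨⟨i, -, hi⟩, hp⟩
    exact ⟨i, Prod.ext hi (by rw [hp, ← hi])⟩

theorem key_lemma {ch ch' : E a → ZMod 2} (hch : ∑ i, ch i + ∑ i, ch' i = 1) {k D : ℕ}
    (ha : 5 * 4 ^ (2 * (3 * k)) < 2 * a) (hD : (D + 6 + 4 ^ (3 * k)) * 4 ^ (3 * k) < 2 * a)
    {s : Finset (GV (Pt a) NC × GV (Pt a) NC)} (hs : s ∈ (baseSys ch ch' hch ha).S k) {m : ℕ}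
    (hk : s.card + 6 * m ≤ k) {τ Γ : Type} {t t' : (Fin m → GV (Pt a) NC) →
      (Fin m → GV (Pt a) NC) → τ} (hC : Cp ((baseSys ch ch' hch ha).S k) s t t') (r : Set τ)
    (c : Set τ → Option Γ) (hL : Low D (fun p q : Qt t r => c (qt t r p q)))
    (x x' : Fin m → GV (Pt a) NC) (hx : s ∪ zp x x' ∈ (baseSys ch ch' hch ha).S k) :
    ∃ (Wd : Set (Fin m → GV (Pt a) NC))
      (θ : (Fin m → GV (Pt a) NC) → (Fin m → GV (Pt a) NC)),
      (∀ q, Conn (fun p q : Qt t r => c (qt t r p q)) (Quot.mk _ x) q →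
        ∃ y ∈ Wd, Quot.mk _ y = q) ∧
      ∀ y₁ ∈ Wd, ∀ y₂ ∈ Wd,
        s ∪ zp x x' ∪ zp y₁ (θ y₁) ∪ zp y₂ (θ y₂) ∈ (baseSys ch ch' hch ha).S k := by
  obtain ⟨C₀, g₀, hC₀, hg₀, hs₀⟩ := id hx
  change Good ch ch' (suppS C₀) g₀ at hg₀
  change s ∪ zp x x' = graphOn C₀ (hat NC (phi g₀)) at hs₀
  set P : Finset (Pt a) := suppS C₀ with hPdef
  have hC₀dom : C₀ = dom (s ∪ zp x x') := by rw [hs₀, dom_graphOn]
  have hC₀card : C₀.card ≤ s.card + m := by
    rw [hC₀dom]
    refine (Key_card_dom _).trans ((card_union_le _ _).trans ?_)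
    exact Nat.add_le_add_left (card_zp x x') _
  have hPcard : P.card ≤ 3 * k := by
    have h1 : P.card ≤ 3 * C₀.card := card_suppS C₀
    omega
  have hpow : 3 * k < 4 ^ (3 * k) := Nat.lt_pow_self (by norm_num)
  have hP2a : P.card < 2 * a := by
    have h1 : 4 ^ (3 * k) ≤ 4 ^ (2 * (3 * k)) := Nat.pow_le_pow_right (by norm_num) (by omega)
    omega
  -- the class
  obtain ⟨T, -, hTcard, hT⟩ := Key_sig (n := 3 * k) (N := D + 6 + 4 ^ (3 * k)) P hPcard
    (univ : Finset (E a)) (by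
      have h2 : (Finset.univ : Finset (E a)).card = 2 * a := by simp [mul_comm]
      rw [h2]
      exact hD)
  obtain ⟨u₁, hu₁, u₂, hu₂, huu⟩ := Finset.one_lt_card.1 (show 1 < T.card by omega)
  obtain ⟨h, hhP, hh⟩ := glob hch hg₀ hP2a (show 6 ≤ T.card by omega) hT hu₁ hu₂ huu
  have hInvP : Inv P (Equiv.swap u₁ u₂) := hT u₁ hu₁ u₂ hu₂
  refine ⟨{y | Inv (suppS (univ.image y)) (Equiv.swap u₁ u₂)},
    fun y i => hat NC (phi h) (y i), ?_, ?_⟩
  · intro q hq
    obtain ⟨y, rfl⟩ := Quot.exists_rep q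
    -- the action
    let act : G1 ch P T →* Equiv.Perm (Fin m → GV (Pt a) NC) :=
      (Key_act a m).comp (G1 ch P T).subtype
    have hact : ∀ (ψ : G1 ch P T) (z : Fin m → GV (Pt a) NC),
        act ψ z = fun i => hat NC ψ.1 (z i) := fun _ _ => rfl
    have hsubs : suppS (dom s) ⊆ P := by
      refine suppS_mono fun v hv => ?_
      rw [hC₀dom]
      obtain ⟨p, hp, hpv⟩ := Key_mem_dom.1 hv
      exact Key_mem_dom.2 ⟨p, mem_union_left _ hp, hpv⟩
    have ht : ∀ (ψ : G1 ch P T) (u z : Fin m → GV (Pt a) NC),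
        t (act ψ u) (act ψ z) = t u z := by
      intro ψ u z
      obtain ⟨g, hgψ, hgex, -, -, hgP⟩ := ψ.2
      have h1 := t_inv hch ha hs (by omega) hC hgex (fun p hp => hgP p (hsubs hp)) u z
      rw [hact, hact]
      have h2 : (phi g : Pt a ≃ Pt a) = ψ.1 := hgψ
      rwa [h2] at h1
    have hxfix : ∀ ψ : G1 ch P T, act ψ x = x := by
      intro ψ
      obtain ⟨g, hgψ, -, -, -, hgP⟩ := ψ.2
      rw [hact]
      funext i
      refine Key_fix (P := P) (fun p hp => ?_) ?_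
      · have h2 : (phi g : Pt a ≃ Pt a) = ψ.1 := hgψ
        rw [← h2]
        exact hgP p hp
      · intro p hp
        refine Key_mem_suppS.2 ⟨x i, ?_, hp⟩
        rw [hC₀dom]
        exact Key_mem_dom.2 ⟨(x i, x' i), mem_union_right _ (mem_zp.2 ⟨i, rfl⟩), rfl⟩
    obtain ⟨f, hf⟩ := Key_hom act ht r c x hxfix
    -- two elements with the same signature
    have hycard : (suppS (univ.image y)).card ≤ 3 * k := by
      have h1 : (suppS (univ.image y)).card ≤ 3 * (univ.image y).card := card_suppS _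
      have h2 : (univ.image y).card ≤ m := by
        refine card_image_le.trans ?_
        simp
      omega
    obtain ⟨T', hT'T, hT'card, hT'⟩ := Key_sig (n := 3 * k) (N := 1)
      (suppS (univ.image y)) hycard T (by omega)
    obtain ⟨t₁, ht₁, t₂, ht₂, htt⟩ := Finset.one_lt_card.1 hT'card
    obtain ⟨ψ, hψ1, hψt₁, hψt₂⟩ := alt_cover hP2a (show 6 ≤ T.card by omega) hT
      (show D < T.card by omega) (hL.noAlt (Quot.mk _ x)) f (hT'T ht₁) (hT'T ht₂) hu₁ hu₂ htt huu
    refine ⟨act ψ y, ?_, ?_⟩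
    · show Inv (suppS (univ.image (act ψ y))) (Equiv.swap u₁ u₂)
      intro p hp
      obtain ⟨w, hw, hp⟩ := Key_mem_suppS.1 hp
      obtain ⟨i, -, rfl⟩ := mem_image.1 hw
      obtain ⟨g, hgψ, -, -, -, -⟩ := ψ.2
      have h2 : (phi g : Pt a ≃ Pt a) = ψ.1 := hgψ
      rw [hact] at hp
      obtain ⟨p', hp', rfl⟩ := Key_supp_hat _ _ _ hp
      have h3 : fixP (Equiv.swap t₁ t₂) p' := hT' t₁ ht₁ t₂ ht₂ p'
        (Key_mem_suppS.2 ⟨y i, mem_image_of_mem _ (mem_univ i), hp'⟩)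
      have h4 := Key_fixP (g := g) h3
      rw [← h2] at hψt₁ hψt₂ ⊢
      have h5 : g.π t₁ = u₁ := by
        rw [phi_el] at hψt₁
        exact Pt.el.inj hψt₁
      have h6 : g.π t₂ = u₂ := by
        rw [phi_el] at hψt₂
        exact Pt.el.inj hψt₂
      rwa [h5, h6] at h4
    · rw [← hf ψ y hq, hψ1]
      rfl
  · intro y₁ hy₁ y₂ hy₂
    refine ⟨C₀ ∪ univ.image y₁ ∪ univ.image y₂, h, ?_, ?_, ?_⟩
    · have h1 : ∀ y : Fin m → GV (Pt a) NC, (univ.image y).card ≤ m := by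
        intro y
        refine card_image_le.trans ?_
        simp
      have h2 := card_union_le (C₀ ∪ univ.image y₁) (univ.image y₂)
      have h3 := card_union_le C₀ (univ.image y₁)
      have h4 := h1 y₁
      have h5 := h1 y₂
      omega
    · exact hh _ (Key_inv_union (Key_inv_union hInvP hy₁) hy₂)
    · show _ = graphOn (C₀ ∪ univ.image y₁ ∪ univ.image y₂) (hat NC (phi h))
      rw [Key_graph_union, Key_graph_union, hs₀, Key_zp (hat NC (phi h)) y₁,
        Key_zp (hat NC (phi h)) y₂]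
      have h1 : graphOn C₀ (hat NC (phi g₀)) = graphOn C₀ (hat NC (phi h)) :=
        graphOn_hat_iff.2 fun p hp => (hhP p hp).symm
      rw [h1]

end Pool.Agent.CoWL
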