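import Pool.Agent.LWL.AutG
import Pool.Agent.CoWL.BaseForth

/-!
# Lifts of even hidden permutations

PROOF. Layer 2: `nodes P` is not everything (`card_nodes`); every `i ∈ nodes P` is fixed by `π` (if
`i ∈ T`, choose `u ∈ T` different from `i`: `Inv P (swap u i)` says `swap u i` fixes `i`, absurd; so
`i ∉ T`). `x₀ = 0` solves `Lnk 1`; `lnk_change` gives `x₁` with `Lnk π x₁`, zero on the rows of
`nodes P`; the nodes of `nodes P` satisfy `Nod ch ch π` (`2 * ch i = 0`). Then a perfect solution as in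
`lnk_perfect`, but for an even permutation and total charge `∑ ch + ∑ ch = 0` (copy the proof: by
`lnk_fix` with `I' = univ.erase k` all nodes but `k` are right, and `parity` gives the node `k`).
Layer 3: the set of all `π` with `∃ w ∈ P3 π` vanishing on `P` (`X3 A B w = 0` for all
`p3 A B v ∈ P`) and `Inv P π` is closed under products (`P3_comp`, `X3_comp`: `X3 A B (w ∘ im ρ) =
X3 (im ρ A) (im ρ B) w = X3 A B w`), and it contains `ρ₁ * ρ₂` for all transpositions `ρ₁, ρ₂` in `T`
(`indep` with `π := ρ₁`, `ρ := ρ₁`, `ρ' := ρ₂`, `w := 0 ∈ P3 (ρ₁ * ρ₁)`; `Big P` holds by `T`). An even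
permutation that moves only elements of `T` is a product of an even number of transpositions in `T`
(`Equiv.Perm.swap_induction_on'` for `π` restricted to `T`, or induct on `π.support.card`: multiply by
`swap i (π i)`; keep the sign).
-/

namespace Pool.Agent.CoWL

open Finset Classical

variable {a : ℕ}

/-- a permutation moving only hidden elements leaves the points invariant -/
private lemma inv_of_hidden {P : Finset (Pt a)} {T : Finset (E a)} (hT6 : 6 ≤ T.card)
    (hT : ∀ u ∈ T, ∀ v ∈ T, Inv P (Equiv.swap u v)) {π : Equiv.Perm (E a)}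
    (hs : ∀ i, i ∉ T → π i = i) : Inv P π := by
  have hpt : ∀ i : E a, (∀ u ∈ T, ∀ v ∈ T, Equiv.swap u v i = i) → π i = i := by
    intro i hi
    refine hs i fun hiT => ?_
    obtain ⟨u, hu, hne⟩ := Finset.exists_mem_ne (lt_of_lt_of_le (by norm_num) hT6) i
    have h1 := hi u hu i hiT
    rw [Equiv.swap_apply_right] at h1
    exact hne h1
  have hset : ∀ Z : Finset (E a), (∀ u ∈ T, ∀ v ∈ T, im (Equiv.swap u v) Z = Z) → im π Z = Z := by
    intro Z hZ
    ext e
    rw [mem_im]
    by_cases he : e ∈ T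
    · have h1 : π.symm e ∈ T := by
        by_contra hcon
        have h2 := hs _ hcon
        rw [Equiv.apply_symm_apply] at h2
        exact hcon (h2 ▸ he)
      have h2 := hZ e he _ h1
      have h3 : e ∈ im (Equiv.swap e (π.symm e)) Z ↔ π.symm e ∈ Z := by
        rw [mem_im, Equiv.symm_swap, Equiv.swap_apply_left]
      rw [h2] at h3
      exact h3.symm
    · have h1 : π.symm e = e := by
        rw [Equiv.symm_apply_eq]; exact (hs e he).symm
      rw [h1]
  intro p hp
  cases p with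
  | el i => exact hpt i fun u hu v hv => hT u hu v hv _ hp
  | p2 i Z v =>
    exact ⟨hpt i fun u hu v' hv' => (hT u hu v' hv' _ hp).1,
      hset Z fun u hu v' hv' => (hT u hu v' hv' _ hp).2⟩
  | p3 A B v =>
    exact ⟨hset A fun u hu v' hv' => (hT u hu v' hv' _ hp).1,
      hset B fun u hu v' hv' => (hT u hu v' hv' _ hp).2⟩

/-- perfect layer 3 data for `π` vanishing on `P` -/
private def Van (P : Finset (Pt a)) (π : Equiv.Perm (E a)) : Prop :=
  Inv P π ∧ ∃ w ∈ P3 π, ∀ A B v, Pt.p3 A B v ∈ P → X3 A B w = 0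

private lemma zero_mem_P3 : (0 : Finset (E a) → ZMod 3) ∈ P3 (1 : Equiv.Perm (E a)) := by
  refine ⟨fun A _ => rfl, fun ω _ => ?_⟩
  rw [im_one, sub_self]
  simp [X3]

private lemma Van.one (P : Finset (Pt a)) : Van P 1 := by
  refine ⟨fun p _ => by cases p <;> simp [fixP], 0, zero_mem_P3, fun A B v _ => by simp [X3]⟩

private lemma Van.mul {P : Finset (Pt a)} {π ρ : Equiv.Perm (E a)} (h : Van P π)
    (h' : Van P ρ) : Van P (π * ρ) := by
  obtain ⟨h1, w, hw, hwP⟩ := h
  obtain ⟨h2, w', hw', hwP'⟩ := h'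
  refine ⟨h1.mul h2, _, P3_comp hw hw', fun A B v hp => ?_⟩
  have h3 := h2 _ hp
  rw [X3_add, X3_comp, h3.1, h3.2, hwP A B v hp, hwP' A B v hp, add_zero]

private lemma Van.swaps {P : Finset (Pt a)} {T : Finset (E a)} (hT6 : 6 ≤ T.card)
    (hT : ∀ u ∈ T, ∀ v ∈ T, Inv P (Equiv.swap u v)) {u v u' v' : E a} (hu : u ∈ T) (hv : v ∈ T)
    (huv : u ≠ v) (hu' : u' ∈ T) (hv' : v' ∈ T) (huv' : u' ≠ v') :
    Van P (Equiv.swap u v * Equiv.swap u' v') := by
  have h0 : (0 : Finset (E a) → ZMod 3) ∈ P3 (Equiv.swap u v * Equiv.swap u v) := by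
    rw [Equiv.swap_mul_self]; exact zero_mem_P3
  have hs : Equiv.Perm.sign (Equiv.swap u v * Equiv.swap u' v') = 1 := by
    rw [Equiv.Perm.sign_mul, Equiv.Perm.sign_swap huv, Equiv.Perm.sign_swap huv']; rfl
  obtain ⟨w, hw, hwP⟩ := indep (D := P) ⟨T, hT6, hT⟩ (Or.inr ⟨u, v, huv, rfl⟩)
    (Or.inr ⟨u', v', huv', rfl⟩) (hT u hu v hv) (hT u' hu' v' hv') h0 hs
  refine ⟨(hT u hu v hv).mul (hT u' hu' v' hv'), w, hw, fun A B v hp => ?_⟩
  rw [hwP A B v hp]
  simp [X3]

private lemma van_of_hidden {P : Finset (Pt a)} {T : Finset (E a)} (hT6 : 6 ≤ T.card)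
    (hT : ∀ u ∈ T, ∀ v ∈ T, Inv P (Equiv.swap u v)) (n : ℕ) :
    ∀ π : Equiv.Perm (E a), π.support.card < n → (∀ i, i ∉ T → π i = i) →
      (Equiv.Perm.sign π = 1 → Van P π) ∧
      (Equiv.Perm.sign π = -1 → ∀ u ∈ T, ∀ v ∈ T, u ≠ v → Van P (Equiv.swap u v * π)) := by
  induction n with
  | zero => intro π h; exact absurd h (Nat.not_lt_zero _)
  | succ n ih =>
    intro π hc hs
    by_cases h1 : π = 1
    · subst h1
      refine ⟨fun _ => Van.one P, fun h => ?_⟩
      rw [Equiv.Perm.sign_one] at h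
      exact absurd h (by decide)
    · obtain ⟨i, hi⟩ : ∃ i, π i ≠ i := by
        by_contra hcon
        push Not at hcon
        exact h1 (Equiv.ext hcon)
      have hiT : i ∈ T := by
        by_contra hcon; exact hi (hs i hcon)
      have hjT : π i ∈ T := by
        by_contra hcon; exact hi (π.injective (hs _ hcon))
      have hlt := Equiv.Perm.card_support_swap_mul hi
      set ρ : Equiv.Perm (E a) := Equiv.swap i (π i) * π with hρ
      have hπ : π = Equiv.swap i (π i) * ρ := by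
        rw [hρ, ← mul_assoc, Equiv.swap_mul_self, one_mul]
      have hρs : ∀ k, k ∉ T → ρ k = k := by
        intro k hk
        rw [hρ, Equiv.Perm.mul_apply, hs k hk]
        exact Equiv.swap_apply_of_ne_of_ne (fun h => hk (h ▸ hiT)) (fun h => hk (h ▸ hjT))
      have hsg : Equiv.Perm.sign ρ = - Equiv.Perm.sign π := by
        rw [hρ, Equiv.Perm.sign_mul, Equiv.Perm.sign_swap (Ne.symm hi)]
        simp
      obtain ⟨h2, h3⟩ := ih ρ (by omega) hρs
      constructor
      · intro h
        have := h3 (by rw [hsg, h]) i hiT (π i) hjT (Ne.symm hi)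
        rwa [← hπ] at this
      · intro h u hu v hv huv
        have h4 := h2 (by rw [hsg, h]; simp)
        have h5 := (Van.swaps hT6 hT hu hv huv hiT hjT (Ne.symm hi)).mul h4
        rwa [mul_assoc, ← hπ] at h5

theorem exists_lift {ch : E a → ZMod 2} {P : Finset (Pt a)} (hP : P.card < 2 * a)
    {T : Finset (E a)} (hT6 : 6 ≤ T.card) (hT : ∀ u ∈ T, ∀ v ∈ T, Inv P (Equiv.swap u v))
    {π : Equiv.Perm (E a)} (hπ : Equiv.Perm.sign π = 1) (hs : ∀ i, i ∉ T → π i = i) :
    ∃ g : Gd a, g.π = π ∧ Ex ch ch g ∧ ∀ p ∈ P, phi g p = p := by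
  have hInv : Inv P π := inv_of_hidden hT6 hT hs
  have h2 : (2 : ZMod 2) = 0 := by decide
  -- layer 3
  obtain ⟨-, w, hw, hwP⟩ := (van_of_hidden hT6 hT (π.support.card + 1) π (Nat.lt_succ_self _) hs).1 hπ
  -- layer 2
  have hfix : ∀ i ∈ nodes P, π i = i := by
    intro i hi
    obtain ⟨Z, v, hp⟩ := mem_nodes.1 hi
    exact (hInv _ hp).1
  have hne : ∃ k, k ∉ nodes P := by
    by_contra hcon
    push Not at hcon
    have h1 : nodes P = univ := Finset.eq_univ_iff_forall.2 hcon
    have h3 := card_nodes P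
    rw [h1, Finset.card_univ] at h3
    simp [E] at h3
    omega
  obtain ⟨k, hk⟩ := hne
  have h0 : Lnk (1 : Equiv.Perm (E a)) (fun _ _ => 0) := by
    intro i j _
    rw [Equiv.Perm.one_apply, Equiv.Perm.one_apply]
    linear_combination (- tt i j) * h2
  obtain ⟨x₁, hx₁, hx₁0⟩ := lnk_change (ρ := π) h0 (nodes P) hfix
  rw [one_mul] at hx₁
  have hN₁ : ∀ i ∈ nodes P, Nod ch ch π x₁ i := by
    intro i hi
    unfold Nod P2
    rw [Finset.sum_eq_zero fun j _ => hx₁0 i hi j, hfix i hi]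
    linear_combination (- ch i) * h2
  obtain ⟨x, hx, hN, hxag⟩ := lnk_fix hx₁ (nodes P) (univ.erase k) hN₁ (k := k) (by simp [hk])
  have hx0 : ∀ i ∈ nodes P, ∀ j, x i j = 0 := fun i hi j => (hxag i hi j).trans (hx₁0 i hi j)
  have hNall : ∀ i, Nod ch ch π x i := by
    intro i
    by_cases hik : i = k
    · subst hik
      have h4 := parity hx
      rw [if_pos hπ, ← Finset.add_sum_erase _ _ (Finset.mem_univ i)] at h4
      have h5 : ∑ j ∈ univ.erase i, P2 x j (univ.erase j) =
          ∑ j ∈ univ.erase i, (ch (π j) + ch j) :=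
        Finset.sum_congr rfl fun j hj => hN j (Finset.mem_union_right _ hj)
      have h6 : ∑ j, (ch (π j) + ch j) = 0 := by
        rw [Finset.sum_add_distrib, Equiv.sum_comp π ch]
        linear_combination (∑ i, ch i) * h2
      rw [← Finset.add_sum_erase _ _ (Finset.mem_univ i)] at h6
      rw [h5] at h4
      unfold Nod
      linear_combination h4 - h6
    · exact hN i (Finset.mem_union_right _ (by simp [hik]))
  refine ⟨⟨π, x, w⟩, rfl, ⟨hx, hNall, hw⟩, fun p hp => ?_⟩
  have h3 := hInv p hp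
  cases p with
  | el i => rw [phi_el]; exact congrArg Pt.el h3
  | p2 i Z v =>
    rw [phi_p2]
    have h4 : P2 x i Z = 0 := Finset.sum_eq_zero fun j _ => hx0 i (mem_nodes.2 ⟨Z, v, hp⟩) j
    simp only [h3.1, h3.2, h4, add_zero]
  | p3 A B v =>
    rw [phi_p3]
    simp only [h3.1, h3.2, hwP A B v hp, add_zero]

end Pool.Agent.CoWL
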