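import Mathlib

/-!
# The logic

`Fml K D` is the `K`-variable infinitary logic with counting quantifiers, extended by
* solvability quantifiers over arbitrary rings,
* linear-algebraic quantifiers over all fields, all local rings and all finite rings,
* isomorphism quantifiers for arc-coloured digraphs of low symmetry.
-/

namespace Pool.Agent.LWL

open Finset Classical

/-! ### Interpretations -/

/-- The assignment `v` with the variables in the list `I` reassigned to `u`. -/
noncomputable def ov {K m : ℕ} {V : Type} (I : Fin m ↪ Fin K) (u : Fin m → V) (v : Fin K → V) :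
    Fin K → V := Function.extend I u v

/-- The set `X` modulo the equivalence relation generated by the pairs `(x, y)` with
`t x y ∈ r`. -/
abbrev Qt {X τ : Type} (t : X → X → τ) (r : Set τ) : Type := Quot fun x y => t x y ∈ r

/-- The set of the values of `t` at the representatives of a pair of classes. -/
def qt {X τ : Type} (t : X → X → τ) (r : Set τ) (p q : Qt t r) : Set τ :=
  {a | ∃ x y, Quot.mk _ x = p ∧ Quot.mk _ y = q ∧ t x y = a}

/-! ### Linear algebra -/

/-- The ring `R` contains `1 / 2` (for instance a field of characteristic other than `2`), or it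
contains `1 / 3` (for instance a field of characteristic `2`), or it has positive characteristic
(for instance a finite ring). -/
def Adm (R : Type) [Ring R] : Prop :=
  IsUnit (2 : R) ∨ IsUnit (3 : R) ∨ ∃ n : ℕ, 0 < n ∧ (n : R) = 0

/-- The family `C` of square matrices is simultaneously similar to the family `B`. -/
def Similar {X Γ R : Type} [Finite X] [Ring R] {N : ℕ} (C : Γ → Matrix X X R)
    (B : Γ → Matrix (Fin N) (Fin N) R) : Prop :=
  letI := Fintype.ofFinite X
  ∃ (P : Matrix X (Fin N) R) (Q : Matrix (Fin N) X R), P * Q = 1 ∧ Q * P = 1 ∧
    ∀ γ, C γ * P = P * B γ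

/-! ### Structures of low symmetry -/

/-- `y` is in the connected component of `x` in the arc-coloured digraph `c` (where the colour
`none` means that there is no arc). -/
def Conn {X Γ : Type} (c : X → X → Option Γ) (x y : X) : Prop :=
  Relation.ReflTransGen (fun p q => c p q ≠ none ∨ c q p ≠ none) x y

/-- The arc-coloured digraph `c` has low symmetry: no group `B` of automorphisms that fix a vertex `x`
and all vertices outside the connected component of `x` has a homomorphism onto an alternating group of
degree greater than `D`. -/
def Low (D : ℕ) {X Γ : Type} (c : X → X → Option Γ) : Prop :=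
  ∀ (x : X) (B : Subgroup (Equiv.Perm X)),
    (∀ g ∈ B, g x = x ∧ (∀ y, ¬ Conn c x y → g y = y) ∧ ∀ p q, c (g p) (g q) = c p q) →
    ∀ n, D < n → ∀ f : B →* alternatingGroup (Fin n), ¬ Function.Surjective f

/-! ### Formulas -/

/-- Formulas of the logic with `K` variables; `D` bounds the alternating sections in the
isomorphism quantifiers. -/
inductive Fml (K D : ℕ) : Type 1
  /-- equality of two variables -/
  | eq (i j : Fin K)
  /-- adjacency of two variables -/
  | adj (i j : Fin K)
  /-- negation -/
  | neg (φ : Fml K D)
  /-- conjunction of an arbitrary family of formulas -/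
  | inf (ι : Type) (φ : ι → Fml K D)
  /-- there are at least `n` values of the variable `i` such that `φ` holds -/
  | cnt (i : Fin K) (n : ℕ) (φ : Fml K D)
  /-- solvability quantifier over an arbitrary ring `R`: the system of linear equations, with
  one unknown for each tuple `z` and one equation for each tuple `u`, with coefficients
  `c` of the set of formulas in `A` that hold at `(u, z)` and with right hand sides `b` of the
  set of formulas in `A` that hold at `u`, has a solution in `R` -/
  | slv {m n : ℕ} (I : Fin m ↪ Fin K) (J : Fin n ↪ Fin K) (R : Type) [Ring R] (ι : Type)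
      (A : ι → Fml K D) (c b : Set ι → R)
  /-- linear-algebraic quantifier over an admissible ring `R`: the matrices indexed by the tuples
  modulo the equivalence relation generated by the pairs whose type is in `r`, with entries
  `c γ` of the set of types of the representatives, are simultaneously similar to the matrices
  `B γ`; the type of `(u, z)` is the set of formulas in `A` that hold at `(u, z)` -/
  | sim {m : ℕ} (I J : Fin m ↪ Fin K) (ι : Type) (A : ι → Fml K D) (r : Set (Set ι))
      (R : Type) [Ring R] (hR : Adm R) (Γ : Type) (c : Γ → Set (Set ι) → R) (N : ℕ)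
      (B : Γ → Matrix (Fin N) (Fin N) R)
  /-- isomorphism quantifier: the arc-coloured digraph on the tuples modulo the equivalence
  relation generated by the pairs whose type is in `r`, with colours `c` of the set of types of
  the representatives, has low symmetry and is isomorphic to `B` -/
  | iso {m : ℕ} (I J : Fin m ↪ Fin K) (ι : Type) (A : ι → Fml K D) (r : Set (Set ι))
      (Γ : Type) (c : Set (Set ι) → Option Γ) (N : ℕ) (B : Fin N → Fin N → Option Γ)

/-- Satisfaction of formulas in graphs. -/
noncomputable def Sat {K D : ℕ} {V : Type} [Fintype V] (G : SimpleGraph V) :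
    Fml K D → (Fin K → V) → Prop
  | .eq i j, v => v i = v j
  | .adj i j, v => G.Adj (v i) (v j)
  | .neg φ, v => ¬ Sat G φ v
  | .inf _ φ, v => ∀ i, Sat G (φ i) v
  | .cnt i n φ, v => n ≤ Nat.card {x : V // Sat G φ (Function.update v i x)}
  | @Fml.slv _ _ m n I J R _ _ A c b, v => ∃ x : (Fin n → V) → R, ∀ u : Fin m → V,
      ∑ z : Fin n → V, c {i | Sat G (A i) (ov J z (ov I u v))} * x z =
        b {i | Sat G (A i) (ov I u v)}
  | @Fml.sim _ _ m I J ι A r R _ _ _ c _ B, v =>
      let t : (Fin m → V) → (Fin m → V) → Set ι := fun u z =>
        {i | Sat G (A i) (ov J z (ov I u v))}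
      Similar (fun γ => Matrix.of fun p q => c γ (qt t r p q)) B
  | @Fml.iso _ _ m I J ι A r _ c N B, v =>
      let t : (Fin m → V) → (Fin m → V) → Set ι := fun u z =>
        {i | Sat G (A i) (ov J z (ov I u v))}
      Low D (fun p q => c (qt t r p q)) ∧
        ∃ e : Qt t r ≃ Fin N, ∀ p q, c (qt t r p q) = B (e p) (e q)

/-- The graphs `G` and `H` satisfy the same sentences (a formula is read as a sentence by
quantifying over all assignments). -/
def SameTheory (K D : ℕ) {V W : Type} [Fintype V] [Fintype W] (G : SimpleGraph V)
    (H : SimpleGraph W) : Prop :=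
  ∀ φ : Fml K D, (∀ v, Sat G φ v) ↔ ∀ w, Sat H φ w

end Pool.Agent.LWL
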