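import Pool.Agent.LWL.PF
import Pool.Agent.CoWL.BaseFrames

/-!
# The torsor frame of layer 2

PROOF. Copy `frame2` of `CoWL/BaseFrames.lean`; permutation `g.π * ρ` (even), `w ∈ P3 (g.π * ρ)` exact.
`𝓐 = E a → E a → ZMod 2`, `τ x = phi ⟨1, x, 0⟩`, `F₀ = phi ⟨g.π * ρ, 0, w⟩`, `Ψ x = ⟨g.π * ρ, x, w⟩`
(`P2_add`, `X3` of `0` is `0`).
`Y D' = {x | Lnk (g.π * ρ) x ∧ (∀ i ∈ nodes D' ∪ nodes D, Nod ch ch' (g.π * ρ) x i) ∧
∀ i ∈ nodes D, ∀ j, x i j = g.x i j} ∩ (all of it only if (nodes D' ∪ nodes D) ≠ univ)`: put the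
condition `∃ k, k ∉ nodes D' ∪ nodes D` into `Y D'` (it holds for `D'.card ≤ K`, is antitone in `D'`, and
depends only on `nodes D'`).
`T = {y | (∀ i j, i ≠ j → y i j + y j i = 0) ∧ (∀ i, P2 y i (univ.erase i) = 0) ∧ ∀ i ∈ nodes D, ∀ j,
y i j = 0}`.
`tors'`: `d = f' - f` satisfies `d i j + d j i = 0`, `P2 d i (univ.erase i) = 0` for `i ∈ nodes D' ∪ nodes D`,
and `d i j = 0` for `i ∈ nodes D`. Homogeneous version of `lnk_fix`: with `k ∉ nodes D' ∪ nodes D` put
`y i j = d i j + [j = k] e i + [i = k] e j`, `e i = P2 d i (univ.erase i)` for `i ∉ nodes D' ∪ nodes D`,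
`i ≠ k`, else `0`; then all nodes but `k` have sum `0`, and the node `k` has sum `0` because
`∑ i, P2 y i (univ.erase i) = 0` for `y` with `y i j + y j i = 0` (each pair counts twice; e.g. the
difference of two applications of `parity`, with `exists_lnk 1`). `y = d` on the rows of
`nodes D' ∪ nodes D`, so `y ∈ T` and `τ f' p = τ (f + y) p` for `p ∈ D'`.
`idx`: `nodes (C ∪ D.image (τ a)) = nodes (C ∪ D)`. `good`: as in `frame2`, with `D₀ ∪ D'`
(`ρ := 1`).
-/

namespace Pool.Agent.LWL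

open Finset Classical Pool.Agent.CoWL

variable {a : ℕ}

lemma pf2_union (C D : Finset (Pt a)) : nodes (C ∪ D) = nodes C ∪ nodes D := by
  ext i
  simp only [Finset.mem_union, mem_nodes]
  constructor
  · rintro ⟨Z, v, h | h⟩
    · exact Or.inl ⟨Z, v, h⟩
    · exact Or.inr ⟨Z, v, h⟩
  · rintro (⟨Z, v, h⟩ | ⟨Z, v, h⟩)
    · exact ⟨Z, v, Or.inl h⟩
    · exact ⟨Z, v, Or.inr h⟩

lemma pf2_image (x : E a → E a → ZMod 2) (D : Finset (Pt a)) :
    nodes (D.image (phi ⟨1, x, 0⟩)) = nodes D := by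
  ext i
  simp only [mem_nodes, Finset.mem_image]
  constructor
  · rintro ⟨Z, v, p, hp, h⟩
    rcases p with i' | ⟨i', Z', v'⟩ | ⟨A, B, v'⟩
    · simp at h
    · simp only [phi_p2, Pt.p2.injEq, Equiv.Perm.one_apply] at h
      obtain ⟨rfl, -, -⟩ := h
      exact ⟨Z', v', hp⟩
    · simp at h
  · rintro ⟨Z, v, hp⟩
    exact ⟨Z, v + P2 x i Z, _, hp, by simp⟩

lemma pf2_X3 (A B : Finset (E a)) : X3 A B (0 : Finset (E a) → ZMod 3) = 0 := by
  simp [X3]

lemma pf2_P2 (i : E a) (Z : Finset (E a)) : P2 (0 : E a → E a → ZMod 2) i Z = 0 := by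
  simp [P2]

lemma pf2_neg (y : E a → E a → ZMod 2) : -y = y := by
  funext i j
  have h : ∀ u : ZMod 2, -u = u := by decide
  exact h _

/-- the node sums of an alternating family add up to zero -/
lemma pf2_total {y : E a → E a → ZMod 2} (hy : ∀ i j, i ≠ j → y i j + y j i = 0) :
    ∑ i, P2 y i (univ.erase i) = 0 := by
  obtain ⟨x, hx⟩ := exists_lnk (1 : Equiv.Perm (E a))
  have hxy : Lnk (1 : Equiv.Perm (E a)) (x + y) := by
    intro i j hij
    have h1 := hx i j hij
    have h2 := hy i j hij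
    simp only [Pi.add_apply]
    linear_combination h1 + h2
  have h3 := parity hx
  have h4 := parity hxy
  rw [if_pos (map_one _)] at h3 h4
  simp only [P2_add, Finset.sum_add_distrib] at h4
  rw [h3, zero_add] at h4
  exact h4

theorem pf2 {ch ch' : E a → ZMod 2} {K : ℕ} (ha : 5 * 4 ^ (2 * K) < 2 * a)
    {D : Finset (Pt a)} {g : Gd a} (h : Good ch ch' D g) (hD : D.card ≤ K) :
    Nonempty (PF K phi (Good ch ch') D g (E a → E a → ZMod 2)) := by
  have h20 : (2 : ZMod 2) = 0 := by decide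
  have hna : 2 * K < 2 * a := by
    have h1 : 2 * K < 4 ^ (2 * K) := Nat.lt_pow_self (by norm_num)
    omega
  obtain ⟨ρ, hi, hρ, w, hw, hag⟩ := h.lay3
  obtain ⟨x₀, hx₀, hx₀g⟩ := lnk_change h.lnk (nodes D) (ρ := ρ) (fun i hi' => by
    obtain ⟨Z, v, hp⟩ := mem_nodes.1 hi'
    exact (hi _ hp).1)
  have hN₀ : ∀ i ∈ nodes D, Nod ch ch' (g.π * ρ) x₀ i := by
    intro i hi'
    obtain ⟨Z, v, hp⟩ := mem_nodes.1 hi'
    have h1 := h.nod i Z v hp
    have h2 : ρ i = i := (hi _ hp).1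
    unfold Nod at h1 ⊢
    rw [P2_congr (hx₀g i hi'), h1, Equiv.Perm.mul_apply, h2]
  have hex : ∀ D' : Finset (Pt a), D'.card ≤ K → ∃ k, k ∉ nodes D' ∪ nodes D := by
    intro D' hD'
    by_contra hcon
    push Not at hcon
    have h2 : nodes D' ∪ nodes D = univ := Finset.eq_univ_iff_forall.2 hcon
    have h3 : (nodes D' ∪ nodes D).card ≤ 2 * K := by
      have h6 := card_union_le (nodes D') (nodes D)
      have h7 := card_nodes D
      have h8 := card_nodes D'
      omega
    rw [h2, Finset.card_univ] at h3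
    simp [E] at h3
    omega
  refine ⟨{
    τ := fun x => phi ⟨1, x, 0⟩
    τ_zero := ?_
    τ_add := ?_
    F₀ := phi ⟨g.π * ρ, 0, w⟩
    Ψ := fun x => ⟨g.π * ρ, x, w⟩
    hF := ?_
    T :=
      { carrier := {y | (∀ i j, i ≠ j → y i j + y j i = 0) ∧ (∀ i, P2 y i (univ.erase i) = 0) ∧
          ∀ i ∈ nodes D, ∀ j, y i j = 0}
        add_mem' := ?_
        zero_mem' := ?_
        neg_mem' := ?_ }
    Y := fun D' => {x | (∃ k, k ∉ nodes D' ∪ nodes D) ∧ Lnk (g.π * ρ) x ∧
      (∀ i ∈ nodes D' ∪ nodes D, Nod ch ch' (g.π * ρ) x i) ∧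
      ∀ i ∈ nodes D, ∀ j, x i j = g.x i j}
    ne := ?_
    aff := ?_
    anti := ?_
    tors := ?_
    tors' := ?_
    idx := ?_
    good := ?_ }⟩
  · rintro (i | ⟨i, Z, v⟩ | ⟨A, B, v⟩)
    · simp
    · simp [pf2_P2]
    · simp [pf2_X3]
  · rintro x y (i | ⟨i, Z, v⟩ | ⟨A, B, v⟩)
    · simp
    · simp only [phi_p2, P2_add, Pt.p2.injEq, Equiv.Perm.one_apply, im_one, true_and]
      ring
    · simp [pf2_X3]
  · rintro f (i | ⟨i, Z, v⟩ | ⟨A, B, v⟩)
    · simp
    · simp [pf2_P2]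
    · simp [pf2_X3]
  · rintro y z ⟨h1, h2, h3⟩ ⟨h1', h2', h3'⟩
    refine ⟨?_, ?_, ?_⟩
    · intro i j hij
      have e1 := h1 i j hij
      have e2 := h1' i j hij
      simp only [Pi.add_apply]
      linear_combination e1 + e2
    · intro i
      rw [P2_add, h2 i, h2' i, add_zero]
    · intro i hi' j
      simp only [Pi.add_apply]
      rw [h3 i hi' j, h3' i hi' j, add_zero]
  · exact ⟨fun i j _ => by simp, fun i => pf2_P2 _ _, fun i _ j => rfl⟩
  · intro y hy
    rw [pf2_neg]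
    exact hy
  · intro D' hD'
    obtain ⟨k, hk⟩ := hex D' hD'
    obtain ⟨x', h1, h2, h3⟩ := lnk_fix hx₀ (nodes D) (nodes D') hN₀
      (by rw [Finset.union_comm]; exact hk)
    refine ⟨x', ⟨k, hk⟩, h1, fun i hi' => h2 i ?_, fun i hi' j => (h3 i hi' j).trans
      (hx₀g i hi' j)⟩
    rwa [Finset.union_comm]
  · rintro D' f₁ f₂ f₃ ⟨hk, h1, h2, h3⟩ ⟨-, h1', h2', h3'⟩ ⟨-, h1'', h2'', h3''⟩
    refine ⟨hk, ?_, ?_, ?_⟩
    · intro i j hij
      have e1 := h1 i j hij
      have e2 := h1' i j hij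
      have e3 := h1'' i j hij
      simp only [Pi.add_apply, Pi.sub_apply]
      linear_combination e1 + e2 - e3
    · intro i hi'
      have e1 := h2 i hi'
      have e2 := h2' i hi'
      have e3 := h2'' i hi'
      unfold Nod at *
      rw [P2_add, P2_sub]
      linear_combination e1 + e2 - e3
    · intro i hi' j
      have e1 := h3 i hi' j
      have e2 := h3' i hi' j
      have e3 := h3'' i hi' j
      simp only [Pi.add_apply, Pi.sub_apply]
      linear_combination e1 + e2 - e3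
  · rintro D₁ D₂ hsub f ⟨⟨k, hk⟩, h1, h2, h3⟩
    have hs : nodes D₁ ∪ nodes D ⊆ nodes D₂ ∪ nodes D :=
      Finset.union_subset_union (nodes_mono hsub) subset_rfl
    exact ⟨⟨k, fun hh => hk (hs hh)⟩, h1, fun i hi' => h2 i (hs hi'), h3⟩
  · rintro D' f ⟨hk, h1, h2, h3⟩ t ⟨h1', h2', h3'⟩
    refine ⟨hk, ?_, ?_, ?_⟩
    · intro i j hij
      have e1 := h1 i j hij
      have e2 := h1' i j hij
      simp only [Pi.add_apply]
      linear_combination e1 + e2
    · intro i hi'
      have e1 := h2 i hi'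
      unfold Nod at *
      rw [P2_add, e1, h2' i, add_zero]
    · intro i hi' j
      simp only [Pi.add_apply]
      rw [h3 i hi' j, h3' i hi' j, add_zero]
  · rintro D' f f' ⟨⟨k, hk⟩, h1, h2, h3⟩ ⟨-, h1', h2', h3'⟩
    -- the difference
    obtain ⟨d, hd⟩ : ∃ d : E a → E a → ZMod 2, ∀ i j, d i j = f' i j - f i j := ⟨_, fun _ _ => rfl⟩
    have hds : ∀ i j, i ≠ j → d i j + d j i = 0 := by
      intro i j hij
      have e1 := h1 i j hij
      have e2 := h1' i j hij
      rw [hd, hd]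
      linear_combination e2 - e1
    have hdN : ∀ i ∈ nodes D' ∪ nodes D, P2 d i (univ.erase i) = 0 := by
      intro i hi'
      have e1 := h2 i hi'
      have e2 := h2' i hi'
      have e3 : P2 d i (univ.erase i) = P2 (f' - f) i (univ.erase i) :=
        P2_congr (fun j => hd i j) _
      unfold Nod at e1 e2
      rw [e3, P2_sub, e1, e2, sub_self]
    have hdD : ∀ i ∈ nodes D, ∀ j, d i j = 0 := by
      intro i hi' j
      rw [hd, h3 i hi' j, h3' i hi' j, sub_self]
    -- the correction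
    obtain ⟨e, he⟩ : ∃ e : E a → ZMod 2, ∀ i, e i = if i = k then 0 else
      P2 d i (univ.erase i) := ⟨_, fun _ => rfl⟩
    have hek : e k = 0 := by rw [he, if_pos rfl]
    have heN : ∀ i ∈ nodes D' ∪ nodes D, e i = 0 := by
      intro i hi'
      rw [he, hdN i hi', ite_self]
    obtain ⟨y, hy⟩ : ∃ y : E a → E a → ZMod 2, ∀ i j, y i j = d i j +
      ((if j = k then e i else 0) + (if i = k then e j else 0)) := ⟨_, fun _ _ => rfl⟩
    have hyd : ∀ i ∈ nodes D' ∪ nodes D, ∀ j, y i j = d i j := by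
      intro i hi' j
      have hik : i ≠ k := fun hh => hk (hh ▸ hi')
      rw [hy, heN i hi', if_neg hik, ite_self, add_zero, add_zero]
    have hys : ∀ i j, i ≠ j → y i j + y j i = 0 := by
      intro i j hij
      have e1 := hds i j hij
      rw [hy, hy]
      linear_combination e1 + ((if j = k then e i else 0) + (if i = k then e j else 0)) * h20
    have hyk : ∀ i, i ≠ k → P2 y i (univ.erase i) = 0 := by
      intro i hik
      have e1 : P2 y i (univ.erase i) = P2 d i (univ.erase i) + e i := by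
        unfold P2
        rw [Finset.sum_congr rfl fun j _ => hy i j]
        simp only [if_neg hik, add_zero]
        rw [Finset.sum_add_distrib, Finset.sum_ite_eq']
        rw [if_pos (by simp [hik.symm])]
      rw [e1, he, if_neg hik]
      linear_combination (P2 d i (univ.erase i)) * h20
    have hyN : ∀ i, P2 y i (univ.erase i) = 0 := by
      intro i
      by_cases hik : i = k
      · subst hik
        have h4 := pf2_total hys
        rw [← Finset.add_sum_erase _ _ (Finset.mem_univ i),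
          Finset.sum_eq_zero (fun j hj => hyk j (Finset.ne_of_mem_erase hj)), add_zero] at h4
        exact h4
      · exact hyk i hik
    refine ⟨y, ⟨hys, hyN, fun i hi' j => ?_⟩, ?_⟩
    · rw [hyd i (Finset.mem_union_right _ hi') j, hdD i hi' j]
    · rintro (i | ⟨i, Z, v⟩ | ⟨A, B, v⟩) hp
      · rfl
      · have hi' : i ∈ nodes D' ∪ nodes D := Finset.mem_union_left _ (mem_nodes.2 ⟨_, _, hp⟩)
        have e1 : P2 f' i Z = P2 (f + y) i Z := P2_congr (fun j => by
          rw [Pi.add_apply, Pi.add_apply, hyd i hi' j, hd]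
          ring) Z
        simp only [phi_p2]
        rw [e1]
      · rfl
  · intro C D' x
    have h1 : nodes (C ∪ D'.image (phi ⟨1, x, 0⟩)) = nodes (C ∪ D') := by
      rw [pf2_union, pf2_image, pf2_union]
    simp only [h1]
  · rintro D' f ⟨hk, h1, h2, h3⟩
    refine ⟨⟨h1, ?_, 1, ?_, Or.inl rfl, w, by simpa using hw, fun _ _ _ _ => rfl⟩, ?_⟩
    · intro i Z v hp
      refine h2 i ?_
      rw [Finset.union_comm, ← pf2_union]
      exact mem_nodes.2 ⟨_, _, hp⟩
    · intro p _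
      cases p <;> simp [fixP]
    · exact phi_congr hi h3 (fun A B v hp => (hag A B v hp).symm)

end Pool.Agent.LWL
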