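import Pool.Agent.LWL.PF
import Pool.Agent.CoWL.BaseFrames

/-!
# The torsor frame of layer 3

PROOF. Copy `frame3` of `CoWL/BaseFrames.lean`; `g₁` from `Good.odd`. `𝓐 = Finset (E a) → ZMod 3`,
`τ w = phi ⟨1, 0, w⟩`, `F₀ = phi ⟨g₁.π, g₁.x, 0⟩`, `Ψ w = ⟨g₁.π, g₁.x, w⟩` (`X3_add`),
`Y D' = {w | Big (D' ∪ D) ∧ C (D' ∪ D) w ∧ ∀ A B v, p3 A B v ∈ D → X3 A B w = X3 A B g₁.w}` as there,
`T = {w ∈ P3 1 | ∀ A B v, p3 A B v ∈ D → X3 A B w = 0}` (an additive subgroup: `P3 1` consists of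
the `w` with `w A = 0` for `A.card = a` and `X3 ∅ ω w = 0` for `ω.card = a`, as `im 1 ω = ω`).
`tors`: add `t` to the witness `w'` (`P3_aff` or `P3_comp` with `ρ = 1`).
`tors'`: witnesses `w₁' ∈ P3 (g₁.π * ρ)`, `w₂' ∈ P3 (g₁.π * ρ')`; `indep` moves the second one to
`w₂'' ∈ P3 (g₁.π * ρ)` with the same values on `D' ∪ D`; `t = w₂'' - w₁'` is in `P3 1`, vanishes on `D`
(both `f` and `f'` equal `g₁.w` there), and `X3 A B f' = X3 A B (f + t)` for `p3 A B v ∈ D'`.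
`anti`, `idx` (by `SubSh` in both directions: `C ∪ D.image (τ a)` and `C ∪ D` have the same sets), `aff`,
`ne`: as in `frame3`. `good`: as in `frame3`, with `D ∪ D'`.
-/

namespace Pool.Agent.LWL

open Finset Classical Pool.Agent.CoWL

variable {a : ℕ}

lemma PF3_sh (w : Finset (E a) → ZMod 3) (p : Pt a) : sh (phi ⟨1, 0, w⟩ p) = sh p := by
  rcases p with i | ⟨i, Z, v⟩ | ⟨A, B, v⟩
  · rfl
  · simp only [phi_p2, im_one, Equiv.Perm.one_apply]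
    rfl
  · simp only [phi_p3, im_one]
    rfl

lemma PF3_sub (w : Finset (E a) → ZMod 3) (C D : Finset (Pt a)) :
    SubSh (C ∪ D.image (phi ⟨1, 0, w⟩)) (C ∪ D) := by
  intro p hp
  rw [Finset.mem_union] at hp
  rcases hp with hp | hp
  · exact ⟨p, Finset.mem_union_left _ hp, rfl⟩
  · rw [Finset.mem_image] at hp
    obtain ⟨q, hq, rfl⟩ := hp
    exact ⟨q, Finset.mem_union_right _ hq, (PF3_sh w q).symm⟩

lemma PF3_sub' (w : Finset (E a) → ZMod 3) (C D : Finset (Pt a)) :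
    SubSh (C ∪ D) (C ∪ D.image (phi ⟨1, 0, w⟩)) := by
  intro p hp
  rw [Finset.mem_union] at hp
  rcases hp with hp | hp
  · exact ⟨p, Finset.mem_union_left _ hp, rfl⟩
  · exact ⟨phi ⟨1, 0, w⟩ p, Finset.mem_union_right _ (Finset.mem_image_of_mem _ hp), PF3_sh w p⟩

lemma PF3_zero (A B : Finset (E a)) : X3 A B (0 : Finset (E a) → ZMod 3) = 0 := by
  simp [X3]

lemma PF3_P2_zero (i : E a) (Z : Finset (E a)) : P2 (0 : E a → E a → ZMod 2) i Z = 0 := by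
  simp [P2]

/-- the vector space of perfect solutions for the identity that vanish on `D` -/
def PF3_T (D : Finset (Pt a)) : AddSubgroup (Finset (E a) → ZMod 3) where
  carrier := {w | w ∈ P3 1 ∧ ∀ A B v, Pt.p3 A B v ∈ D → X3 A B w = 0}
  zero_mem' := by
    refine ⟨⟨fun _ _ => rfl, fun ω _ => ?_⟩, fun A B v _ => PF3_zero A B⟩
    rw [PF3_zero, im_one, sub_self]
  add_mem' := by
    rintro f g ⟨⟨h1, h2⟩, h3⟩ ⟨⟨h1', h2'⟩, h3'⟩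
    refine ⟨⟨fun A hA => ?_, fun ω hω => ?_⟩, fun A B v hp => ?_⟩
    · rw [Pi.add_apply, h1 A hA, h1' A hA, add_zero]
    · rw [X3_add, h2 ω hω, h2' ω hω, im_one, sub_self, add_zero]
    · rw [X3_add, h3 A B v hp, h3' A B v hp, add_zero]
  neg_mem' := by
    rintro f ⟨⟨h1, h2⟩, h3⟩
    refine ⟨⟨fun A hA => ?_, fun ω hω => ?_⟩, fun A B v hp => ?_⟩
    · rw [Pi.neg_apply, h1 A hA, neg_zero]
    · rw [X3_neg, h2 ω hω, im_one, sub_self, neg_zero]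
    · rw [X3_neg, h3 A B v hp, neg_zero]

theorem pf3 {ch ch' : E a → ZMod 2} (hch : ∑ i, ch i + ∑ i, ch' i = 1) {K : ℕ}
    (ha : 5 * 4 ^ (2 * K) < 2 * a) {D : Finset (Pt a)} {g : Gd a} (h : Good ch ch' D g)
    (hD : D.card ≤ K) :
    Nonempty (PF K phi (Good ch ch') D g (Finset (E a) → ZMod 3)) := by
  have hna : 2 * K < 2 * a := by
    have h1 : 2 * K < 4 ^ (2 * K) := Nat.lt_pow_self (by norm_num)
    omega
  have hbig : ∀ D' : Finset (Pt a), D'.card ≤ K → Big (D' ∪ D) := fun D' hD' =>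
    big_of_card (n := 2 * K) _ ((card_union_le _ _).trans (by omega)) ha
  have hB : Big D := big_of_card (n := 2 * K) _ (by omega) ha
  obtain ⟨g₁, hg₁, hφ, hs₁, hN₁⟩ := h.odd hch hB (by omega)
  -- the family
  let C : Finset (Pt a) → (Finset (E a) → ZMod 3) → Prop := fun D' w =>
    ∃ ρ, Inv D' ρ ∧ OneOrSwap ρ ∧ ∃ w' ∈ P3 (g₁.π * ρ), ∀ A B v, Pt.p3 A B v ∈ D' →
      X3 A B w = X3 A B w'
  have hmove : ∀ D' D'' w, Big D'' → D' ⊆ D'' → C D' w → ∃ w', C D'' w' ∧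
      ∀ A B v, Pt.p3 A B v ∈ D' → X3 A B w' = X3 A B w := by
    rintro D' D'' w hB'' hsub ⟨ρ, hi, hρ, w', hw', hag⟩
    have hgood : Good ch ch' D' ⟨g₁.π, g₁.x, w⟩ :=
      ⟨hg₁.lnk, fun i _ _ _ => hN₁ i, ρ, hi, hρ, w', hw', hag⟩
    obtain ⟨w'', ⟨ρ'', h1, h2, h3⟩, h4⟩ := hgood.lay3_ext hsub hB''
    exact ⟨w'', ⟨ρ'', h1, h2, w'', h3, fun _ _ _ _ => rfl⟩, h4⟩
  refine ⟨{
    τ := fun w => phi ⟨1, 0, w⟩
    τ_zero := ?_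
    τ_add := ?_
    F₀ := phi ⟨g₁.π, g₁.x, 0⟩
    Ψ := fun w => ⟨g₁.π, g₁.x, w⟩
    hF := ?_
    T := PF3_T D
    Y := fun D' => {w | Big (D' ∪ D) ∧ C (D' ∪ D) w ∧
      ∀ A B v, Pt.p3 A B v ∈ D → X3 A B w = X3 A B g₁.w}
    ne := ?_
    aff := ?_
    anti := ?_
    tors := ?_
    tors' := ?_
    idx := ?_
    good := ?_ }⟩
  · rintro (i | ⟨i, Z, v⟩ | ⟨A, B, v⟩)
    · rfl
    · simp only [phi_p2, im_one, Equiv.Perm.one_apply, PF3_P2_zero, add_zero]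
    · simp only [phi_p3, im_one, PF3_zero, add_zero]
  · rintro f f' (i | ⟨i, Z, v⟩ | ⟨A, B, v⟩)
    · rfl
    · simp only [phi_p2, im_one, Equiv.Perm.one_apply, PF3_P2_zero, add_zero]
    · simp only [phi_p3, im_one, X3_add, Pt.p3.injEq, true_and]
      ring
  · rintro f (i | ⟨i, Z, v⟩ | ⟨A, B, v⟩)
    · rfl
    · simp only [phi_p2, im_one, Equiv.Perm.one_apply, PF3_P2_zero, add_zero]
    · simp only [phi_p3, im_one, PF3_zero, add_zero]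
  · intro D' hD'
    obtain ⟨w', h1, h2⟩ := hmove D (D' ∪ D) g₁.w (hbig D' hD') Finset.subset_union_right
      hg₁.lay3
    exact ⟨w', hbig D' hD', h1, h2⟩
  · rintro D' f₁ f₂ f₃ ⟨hB', ⟨ρ₁, hi₁, hρ₁, w₁, hw₁, e₁⟩, k₁⟩ ⟨-, ⟨ρ₂, hi₂, hρ₂, w₂, hw₂, e₂⟩, k₂⟩
      ⟨-, ⟨ρ₃, hi₃, hρ₃, w₃, hw₃, e₃⟩, k₃⟩
    have hs := P3_sign hw₁
    obtain ⟨w₂', hw₂', e₂'⟩ := indep hB' hρ₂ hρ₁ hi₂ hi₁ hw₂ hs
    obtain ⟨w₃', hw₃', e₃'⟩ := indep hB' hρ₃ hρ₁ hi₃ hi₁ hw₃ hs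
    refine ⟨hB', ⟨ρ₁, hi₁, hρ₁, w₁ + (w₂' - w₃'), P3_aff hw₁ hw₂' hw₃', ?_⟩, ?_⟩
    · intro A B v hp
      rw [X3_add, X3_sub, X3_add, X3_sub, e₁ A B v hp, e₂ A B v hp, e₃ A B v hp, e₂' A B v hp,
        e₃' A B v hp]
    · intro A B v hp
      rw [X3_add, X3_sub, k₁ A B v hp, k₂ A B v hp, k₃ A B v hp]
      ring
  · rintro D' D'' hsub f ⟨hB', ⟨ρ, hi, hρ, w, hw, e⟩, k⟩
    have hs : D' ∪ D ⊆ D'' ∪ D := Finset.union_subset_union hsub subset_rfl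
    exact ⟨hB'.mono hs, ⟨ρ, fun p hp => hi p (hs hp), hρ, w, hw,
      fun A B v hp => e A B v (hs hp)⟩, k⟩
  · rintro D' f ⟨hB', ⟨ρ, hi, hρ, w, hw, e⟩, k⟩ t ⟨ht, ht0⟩
    refine ⟨hB', ⟨ρ, hi, hρ, w + t, ?_, ?_⟩, ?_⟩
    · have h1 := P3_comp hw ht
      rw [mul_one] at h1
      simpa only [im_one] using h1
    · intro A B v hp
      rw [X3_add, X3_add, e A B v hp]
    · intro A B v hp
      rw [X3_add, ht0 A B v hp, add_zero, k A B v hp]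
  · rintro D' f f' ⟨hB', ⟨ρ₁, hi₁, hρ₁, w₁, hw₁, e₁⟩, k₁⟩ ⟨-, ⟨ρ₂, hi₂, hρ₂, w₂, hw₂, e₂⟩, k₂⟩
    have hs := P3_sign hw₁
    obtain ⟨w₂', hw₂', e₂'⟩ := indep hB' hρ₂ hρ₁ hi₂ hi₁ hw₂ hs
    refine ⟨w₂' - w₁, ⟨⟨fun A hA => ?_, fun ω hω => ?_⟩, fun A B v hp => ?_⟩, ?_⟩
    · rw [Pi.sub_apply, hw₂'.1 A hA, hw₁.1 A hA, sub_zero]
    · rw [X3_sub, hw₂'.2 ω hω, hw₁.2 ω hω, im_one, sub_self, sub_self]
    · have hp' := Finset.mem_union_right D' hp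
      rw [X3_sub, e₂' A B v hp', ← e₂ A B v hp', ← e₁ A B v hp', k₁ A B v hp, k₂ A B v hp, sub_self]
    · rintro (i | ⟨i, Z, v⟩ | ⟨A, B, v⟩) hp
      · rfl
      · rfl
      · have hp' : Pt.p3 A B v ∈ D' ∪ D := Finset.mem_union_left D hp
        simp only [phi_p3, im_one, X3_add, X3_sub, Pt.p3.injEq, true_and]
        rw [e₂' A B v hp', ← e₂ A B v hp', ← e₁ A B v hp']
        ring
  · have key : ∀ D₁ D₂ : Finset (Pt a), SubSh D₁ D₂ → SubSh D₂ D₁ → ∀ w,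
        (Big (D₁ ∪ D) ∧ C (D₁ ∪ D) w ∧ ∀ A B v, Pt.p3 A B v ∈ D → X3 A B w = X3 A B g₁.w) →
        (Big (D₂ ∪ D) ∧ C (D₂ ∪ D) w ∧ ∀ A B v, Pt.p3 A B v ∈ D → X3 A B w = X3 A B g₁.w) := by
      rintro D₁ D₂ h12 h21 f ⟨hB', ⟨ρ, hi, hρ, w, hw, e⟩, k⟩
      refine ⟨(h21.union D).big hB', ⟨ρ, (h21.union D).inv hi, hρ, w, hw, ?_⟩, k⟩
      intro A B v hp
      obtain ⟨v', hp'⟩ := (h21.union D).p3 hp
      exact e A B v' hp'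
    intro C' D' f
    ext w
    exact ⟨key _ _ (PF3_sub f C' D') (PF3_sub' f C' D') w, key _ _ (PF3_sub' f C' D') (PF3_sub f C' D') w⟩
  · rintro D' f ⟨-, ⟨ρ, hi, hρ, w, hw, e⟩, k⟩
    refine ⟨⟨hg₁.lnk, fun i _ _ _ => hN₁ i, ρ, fun p hp => hi p ?_, hρ,
      w, hw, fun A B v hp => e A B v ?_⟩, ?_⟩
    · rw [Finset.union_comm]; exact hp
    · rw [Finset.union_comm]; exact hp
    rintro q hq
    rw [← hφ q hq]
    rcases q with i | ⟨i, Z, v⟩ | ⟨A, B, v⟩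
    · rfl
    · rfl
    · simp only [phi_p3]
      rw [k A B v hq]

end Pool.Agent.LWL
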