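import Pool.Agent.LWL.QBF

/-!
# Simultaneous similarity on quotients

PROOF. Let `Z = Fin m → V`, `Z' = Fin m → W`, `σ = Quot.mk _`, and let `ρ` choose a representative of each
class (`Quot.out`). `P`, `Q` from `SimP` for `s` and the given ring. Matrices: `E u z = 1` if `σ u = σ z`,
else `0`; `L z q = 1` if `σ z = q` (`Z × Qt`), `κ z q = 1` if `z = ρ q` (`Z × Qt`); similarly with primes.
Then `E = L Lᵀ`, `E κ = L`, `κᵀ L = 1`, `Lᵀ κ = 1`. `Cp S s E E'` by `quot_iff`, so `E' P = P E`, hence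
`E Q = Q E'` (multiply by `Q` on both sides). Put `P₁ = κ'ᵀ P L`, `Q₁ = κᵀ Q L'`.
`P L = P E κ = E' P κ = L' (L'ᵀ P κ)`, so `L' P₁ = L' κ'ᵀ (P L) = L' κ'ᵀ L' (L'ᵀ P κ) = P L`; similarly
`L Q₁ = Q L'`. So `P₁ Q₁ = κ'ᵀ P L Q₁ = κ'ᵀ P Q L' = 1`, `Q₁ P₁ = 1`. `L'ᵀ P = P₁ Lᵀ`: from
`L' L'ᵀ P = E' P = P E = P L Lᵀ = L' P₁ Lᵀ` multiply by `κ'ᵀ`. For `c : Set τ → R` let `C p q = c (qt t r p q)`;
`A = L C Lᵀ`, that is `A u z = c (qt t r (σ u) (σ z))`, and `A' = L' C' L'ᵀ`; `Cp S s A A'` by `qt_eq`; so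
`L' C' P₁ Lᵀ = L' C' L'ᵀ P = A' P = P A = P L C Lᵀ = L' P₁ C Lᵀ`; multiply by `κ'ᵀ` and `κ`:
`C' P₁ = P₁ C`. (The instances `Fintype.ofFinite` on the quotients: `Matrix.mul` only depends on the
`Fintype` instance through the sum; everything can be done for arbitrary `Fintype` instances.)
-/

namespace Pool.Agent.LWL

open Finset Classical Pool.Agent.CoWL

variable {V W : Type}

/-- `S` passes through linear-algebraic quantifiers on tuples -/
def SimP (K : ℕ) (S : Set (Finset (V × W))) [Fintype V] [Fintype W] : Prop :=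
  ∀ s ∈ S, s.card ≤ K → ∀ (m : ℕ), m ≤ K → ∀ (R : Type) [Ring R], Adm R →
    ∃ (P : Matrix (Fin m → W) (Fin m → V) R) (Q : Matrix (Fin m → V) (Fin m → W) R),
      P * Q = 1 ∧ Q * P = 1 ∧ ∀ (A : Matrix (Fin m → V) (Fin m → V) R)
        (A' : Matrix (Fin m → W) (Fin m → W) R), Cp S s A A' → A' * P = P * A

section abs

variable {R : Type} [Ring R] {Z X Z' X' : Type}

/-- the matrix of the projection -/
def qsL (R : Type) [Ring R] (σ : Z → X) [DecidableEq X] : Matrix Z X R :=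
  Matrix.of fun z q => if σ z = q then 1 else 0

/-- the transpose of the matrix of the projection -/
def qsLt (R : Type) [Ring R] (σ : Z → X) [DecidableEq X] : Matrix X Z R :=
  Matrix.of fun q z => if σ z = q then 1 else 0

/-- the matrix of the section -/
def qsK (R : Type) [Ring R] (ρ : X → Z) [DecidableEq Z] : Matrix Z X R :=
  Matrix.of fun z q => if z = ρ q then 1 else 0

/-- the transpose of the matrix of the section -/
def qsKt (R : Type) [Ring R] (ρ : X → Z) [DecidableEq Z] : Matrix X Z R :=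
  Matrix.of fun q z => if z = ρ q then 1 else 0

theorem qsL_mul [Fintype X] [DecidableEq X] (σ : Z → X) {Y : Type} (M : Matrix X Y R) :
    qsL R σ * M = Matrix.of fun z y => M (σ z) y := by
  ext z y
  simp [qsL, Matrix.mul_apply]

theorem mul_qsLt [Fintype X] [DecidableEq X] (σ : Z → X) {Y : Type} (M : Matrix Y X R) :
    M * qsLt R σ = Matrix.of fun y z => M y (σ z) := by
  ext y z
  simp [qsLt, Matrix.mul_apply]

theorem qsKt_mul [Fintype Z] [DecidableEq Z] (ρ : X → Z) {Y : Type} (M : Matrix Z Y R) :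
    qsKt R ρ * M = Matrix.of fun q y => M (ρ q) y := by
  ext q y
  simp [qsKt, Matrix.mul_apply]

theorem mul_qsK [Fintype Z] [DecidableEq Z] (ρ : X → Z) {Y : Type} (M : Matrix Y Z R) :
    M * qsK R ρ = Matrix.of fun y q => M y (ρ q) := by
  ext y q
  simp [qsK, Matrix.mul_apply]

theorem qsKt_qsL [Fintype Z] [DecidableEq Z] [DecidableEq X] (σ : Z → X) (ρ : X → Z)
    (h : ∀ q, σ (ρ q) = q) : qsKt R ρ * qsL R σ = 1 := by
  rw [qsKt_mul]
  ext p q
  simp [qsL, h, Matrix.one_apply]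

theorem qsLt_qsK [Fintype Z] [DecidableEq Z] [DecidableEq X] (σ : Z → X) (ρ : X → Z)
    (h : ∀ q, σ (ρ q) = q) : qsLt R σ * qsK R ρ = 1 := by
  rw [mul_qsK]
  ext p q
  simp [qsLt, h, Matrix.one_apply, eq_comm]

theorem qs_main [Fintype Z] [DecidableEq Z] [Fintype X] [DecidableEq X] [Fintype Z']
    [DecidableEq Z'] [Fintype X'] [DecidableEq X'] (σ : Z → X) (ρ : X → Z)
    (h : ∀ q, σ (ρ q) = q) (σ' : Z' → X') (ρ' : X' → Z') (h' : ∀ q, σ' (ρ' q) = q)
    (P : Matrix Z' Z R) (Q : Matrix Z Z' R) (hPQ : P * Q = 1) (hQP : Q * P = 1)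
    (hE : (qsL R σ' * qsLt R σ') * P = P * (qsL R σ * qsLt R σ)) :
    ∃ (P₁ : Matrix X' X R) (Q₁ : Matrix X X' R), P₁ * Q₁ = 1 ∧ Q₁ * P₁ = 1 ∧
      ∀ (C : Matrix X X R) (C' : Matrix X' X' R),
        (qsL R σ' * C' * qsLt R σ') * P = P * (qsL R σ * C * qsLt R σ) → C' * P₁ = P₁ * C := by
  have hE2 : (qsL R σ * qsLt R σ) * Q = Q * (qsL R σ' * qsLt R σ') := by
    have h1 := congrArg (fun M => Q * M * Q) hE
    simp only [Matrix.mul_assoc, hPQ, Matrix.mul_one] at h1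
    rw [← Matrix.mul_assoc Q P, hQP, Matrix.one_mul] at h1
    simp only [Matrix.mul_assoc]
    exact h1.symm
  have a1 : qsL R σ = (qsL R σ * qsLt R σ) * qsK R ρ := by
    rw [Matrix.mul_assoc, qsLt_qsK σ ρ h, Matrix.mul_one]
  have a2 : qsL R σ' = (qsL R σ' * qsLt R σ') * qsK R ρ' := by
    rw [Matrix.mul_assoc, qsLt_qsK σ' ρ' h', Matrix.mul_one]
  have b1 : P * qsL R σ = qsL R σ' * (qsLt R σ' * (P * qsK R ρ)) := by
    calc P * qsL R σ = P * ((qsL R σ * qsLt R σ) * qsK R ρ) := by rw [← a1]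
      _ = (P * (qsL R σ * qsLt R σ)) * qsK R ρ := by simp only [Matrix.mul_assoc]
      _ = ((qsL R σ' * qsLt R σ') * P) * qsK R ρ := by rw [hE]
      _ = _ := by simp only [Matrix.mul_assoc]
  have b2 : Q * qsL R σ' = qsL R σ * (qsLt R σ * (Q * qsK R ρ')) := by
    calc Q * qsL R σ' = Q * ((qsL R σ' * qsLt R σ') * qsK R ρ') := by rw [← a2]
      _ = (Q * (qsL R σ' * qsLt R σ')) * qsK R ρ' := by simp only [Matrix.mul_assoc]
      _ = ((qsL R σ * qsLt R σ) * Q) * qsK R ρ' := by rw [hE2]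
      _ = _ := by simp only [Matrix.mul_assoc]
  have c1 : qsL R σ' * (qsKt R ρ' * (P * qsL R σ)) = P * qsL R σ := by
    rw [b1, ← Matrix.mul_assoc (qsKt R ρ'), qsKt_qsL σ' ρ' h', Matrix.one_mul]
  have c2 : qsL R σ * (qsKt R ρ * (Q * qsL R σ')) = Q * qsL R σ' := by
    rw [b2, ← Matrix.mul_assoc (qsKt R ρ), qsKt_qsL σ ρ h, Matrix.one_mul]
  refine ⟨qsKt R ρ' * (P * qsL R σ), qsKt R ρ * (Q * qsL R σ'), ?_, ?_, ?_⟩
  · calc qsKt R ρ' * (P * qsL R σ) * (qsKt R ρ * (Q * qsL R σ'))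
        = qsKt R ρ' * (P * (qsL R σ * (qsKt R ρ * (Q * qsL R σ')))) := by
          simp only [Matrix.mul_assoc]
      _ = qsKt R ρ' * (P * (Q * qsL R σ')) := by rw [c2]
      _ = qsKt R ρ' * ((P * Q) * qsL R σ') := by simp only [Matrix.mul_assoc]
      _ = 1 := by rw [hPQ, Matrix.one_mul, qsKt_qsL σ' ρ' h']
  · calc qsKt R ρ * (Q * qsL R σ') * (qsKt R ρ' * (P * qsL R σ))
        = qsKt R ρ * (Q * (qsL R σ' * (qsKt R ρ' * (P * qsL R σ)))) := by
          simp only [Matrix.mul_assoc]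
      _ = qsKt R ρ * (Q * (P * qsL R σ)) := by rw [c1]
      _ = qsKt R ρ * ((Q * P) * qsL R σ) := by simp only [Matrix.mul_assoc]
      _ = 1 := by rw [hQP, Matrix.one_mul, qsKt_qsL σ ρ h]
  · intro C C' hC
    have d1 : qsLt R σ' * P = (qsKt R ρ' * (P * qsL R σ)) * qsLt R σ := by
      calc qsLt R σ' * P = (qsKt R ρ' * qsL R σ') * (qsLt R σ' * P) := by
            rw [qsKt_qsL σ' ρ' h', Matrix.one_mul]
        _ = qsKt R ρ' * ((qsL R σ' * qsLt R σ') * P) := by simp only [Matrix.mul_assoc]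
        _ = qsKt R ρ' * (P * (qsL R σ * qsLt R σ)) := by rw [hE]
        _ = _ := by simp only [Matrix.mul_assoc]
    have e1 : qsL R σ' * ((C' * (qsKt R ρ' * (P * qsL R σ))) * qsLt R σ) =
        qsL R σ' * (((qsKt R ρ' * (P * qsL R σ)) * C) * qsLt R σ) := by
      calc qsL R σ' * ((C' * (qsKt R ρ' * (P * qsL R σ))) * qsLt R σ)
          = qsL R σ' * (C' * ((qsKt R ρ' * (P * qsL R σ)) * qsLt R σ)) := by
            simp only [Matrix.mul_assoc]
        _ = qsL R σ' * (C' * (qsLt R σ' * P)) := by rw [← d1]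
        _ = (qsL R σ' * C' * qsLt R σ') * P := by simp only [Matrix.mul_assoc]
        _ = P * (qsL R σ * C * qsLt R σ) := hC
        _ = (P * qsL R σ) * (C * qsLt R σ) := by simp only [Matrix.mul_assoc]
        _ = (qsL R σ' * (qsKt R ρ' * (P * qsL R σ))) * (C * qsLt R σ) := by rw [c1]
        _ = _ := by simp only [Matrix.mul_assoc]
    have e2 := congrArg (fun M => qsKt R ρ' * M * qsK R ρ) e1
    rw [← Matrix.mul_assoc (qsKt R ρ') (qsL R σ'), qsKt_qsL σ' ρ' h', Matrix.one_mul,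
      Matrix.mul_assoc _ (qsLt R σ) (qsK R ρ), qsLt_qsK σ ρ h, Matrix.mul_one,
      ← Matrix.mul_assoc (qsKt R ρ') (qsL R σ'), qsKt_qsL σ' ρ' h', Matrix.one_mul,
      Matrix.mul_assoc _ (qsLt R σ) (qsK R ρ), qsLt_qsK σ ρ h, Matrix.mul_one] at e2
    exact e2

end abs

theorem simT_of_simP [Fintype V] [Fintype W] {K k : ℕ} (hk : 5 * K ≤ k)
    {S : Set (Finset (V × W))} (hS : PB S) (hf : Forth k S) (h : SimP K S) : SimT K S := by
  intro s hs hsK m hm τ t t' hC r R _ hR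
  let i1 : Fintype (Qt t r) := Fintype.ofFinite (Qt t r)
  let i2 : Fintype (Qt t' r) := Fintype.ofFinite (Qt t' r)
  obtain ⟨P, Q, hPQ, hQP, hA⟩ := h s hs hsK m hm R hR
  have hE : (qsL R (fun z => (Quot.mk _ z : Qt t' r)) * qsLt R (fun z => (Quot.mk _ z : Qt t' r))) * P
      = P * (qsL R (fun z => (Quot.mk _ z : Qt t r)) * qsLt R (fun z => (Quot.mk _ z : Qt t r))) := by
    apply hA
    intro u z u' z' hz
    rw [qsL_mul, qsL_mul]
    have hq := quot_iff hS hf hC r (by omega) hz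
    simp only [Matrix.of_apply, qsLt]
    by_cases h1 : (Quot.mk _ u : Qt t r) = Quot.mk _ z
    · rw [if_pos h1.symm, if_pos (hq.1 h1).symm]
    · rw [if_neg fun h2 => h1 h2.symm, if_neg fun h2 => h1 (hq.2 h2.symm)]
  obtain ⟨P₁, Q₁, e1, e2, e3⟩ := qs_main (fun z => (Quot.mk _ z : Qt t r)) Quot.out
    (fun q => Quot.out_eq q) (fun z => (Quot.mk _ z : Qt t' r)) Quot.out
    (fun q => Quot.out_eq q) P Q hPQ hQP hE
  refine ⟨P₁, Q₁, e1, e2, fun c => e3 _ _ ?_⟩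
  apply hA
  intro u z u' z' hz
  rw [qsL_mul, qsL_mul, mul_qsLt, mul_qsLt]
  simp only [Matrix.of_apply]
  rw [qt_eq hS hf hC r (by omega) hz]

end Pool.Agent.LWL
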