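import Pool.Agent.LWL.TFG
import Pool.Agent.LWL.Inter
import Pool.Agent.LWL.AdmG
import Pool.Agent.LWL.QSim
import Pool.Agent.LWL.PF2
import Pool.Agent.LWL.PF3
import Pool.Agent.CoWL.Main

/-!
# Linear-algebraic quantifiers do not distinguish the two graphs
-/

namespace Pool.Agent.LWL

open Finset Classical Pool.Agent.CoWL

section abstract

variable {V W : Type} [Fintype V] [Fintype W] {k m : ℕ} {S : Set (Finset (V × W))}
  {s₀ : Finset (V × W)} {𝓐 : Type} [AddCommGroup 𝓐] [Fintype 𝓐]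

/-- intertwiners over a ring, invertible up to a power of `p` -/
theorem glued_ring (Fr : TF k S s₀ 𝓐) (hS : PB S) (hk : 3 * m ≤ k) {p c : ℕ}
    (hc : Fintype.card 𝓐 = p ^ c) (R : Type) [Ring R] :
    ∃ (P : Matrix (Fin m → W) (Fin m → V) R) (Q : Matrix (Fin m → V) (Fin m → W) R) (α : ℕ),
      P * Q = (((p : ℕ) : Subring.center R) ^ α) • 1 ∧
      Q * P = (((p : ℕ) : Subring.center R) ^ α) • 1 ∧
      ∀ (A : Matrix (Fin m → V) (Fin m → V) R) (A' : Matrix (Fin m → W) (Fin m → W) R),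
        Cp S s₀ A A' → A' * P = P * A := by
  obtain ⟨x, y, α, h1, h2, h3⟩ := Fr.glued hS hk (m := m)
  have hn : ∀ b : Prop, ∀ [Decidable b], ((if b then (((Fintype.card 𝓐 : ℤ) ^ α : ℤ)) else 0 : ℤ) : R) =
      if b then (((((p : ℕ) : Subring.center R) ^ (c * α)) : Subring.center R) : R) else 0 := by
    intro b _
    split_ifs with h
    · rw [hc, pow_mul]
      push_cast
      rfl
    · simp
  refine ⟨Fr.Ph R x, Fr.Ph' R y, c * α, ?_, ?_, fun A A' hA => h3 R A A' hA⟩
  · ext z' w'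
    have e1 : (Fr.Ph R x * Fr.Ph' R y) z' w' = (((x * y) (Fr.FI z') (Fr.FI w') : ℤ) : R) := by
      rw [Matrix.mul_apply, Matrix.mul_apply, Int.cast_sum]
      refine Finset.sum_congr rfl fun z _ => ?_
      rw [Int.cast_mul]
      rfl
    rw [e1, h2, Matrix.smul_apply, Matrix.smul_apply, Matrix.one_apply, Matrix.one_apply,
      smul_eq_mul, mul_ite, mul_one, mul_zero, hn]
    by_cases h : z' = w'
    · rw [if_pos h, if_pos (congrArg _ h)]
      change _ = _ • (1 : R)
      rw [Subring.smul_def, smul_eq_mul, mul_one]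
    · rw [if_neg h, if_neg, smul_zero]
      intro h'
      refine h ?_
      rw [← Fr.FF_FI z', h', Fr.FF_FI]
  · ext z w
    have e1 : (Fr.Ph' R y * Fr.Ph R x) z w = (((y * x) z w : ℤ) : R) := by
      rw [Matrix.mul_apply, Matrix.mul_apply, Int.cast_sum]
      refine Eq.trans ?_ (Function.Bijective.sum_comp (e := Fr.FI)
        ⟨fun a b h => by rw [← Fr.FF_FI a, h, Fr.FF_FI], fun b => ⟨Fr.FF b, Fr.FI_FF b⟩⟩
        (fun z₀ => ((y z z₀ * x z₀ w : ℤ) : R)))
      refine Finset.sum_congr rfl fun z' _ => ?_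
      rw [Int.cast_mul]
      rfl
    rw [e1, h1, Matrix.smul_apply, Matrix.smul_apply, Matrix.one_apply, Matrix.one_apply,
      smul_eq_mul, mul_ite, mul_one, mul_zero, hn]
    by_cases h : z = w
    · rw [if_pos h, if_pos h]
      rw [Subring.smul_def, smul_eq_mul, mul_one]
    · rw [if_neg h, if_neg h, smul_zero]

end abstract

lemma card_of_graphOn {A B : Type} (C : Finset A) (f : A → B) :
    (graphOn C f).card = C.card := by
  unfold graphOn
  exact card_image_of_injective _ fun u v h => (Prod.ext_iff.1 h).1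

variable {a : ℕ}

/-- linear-algebraic quantifiers on tuples -/
theorem simP_base {ch ch' : E a → ZMod 2} (hch : ∑ i, ch i + ∑ i, ch' i = 1) {K k : ℕ}
    (hk : 4 * K ≤ k) (ha : 5 * 4 ^ (2 * (3 * k)) < 2 * a)
    (hS : PB ((baseSys ch ch' hch ha).S k)) : SimP K ((baseSys ch ch' hch ha).S k) := by
  rintro s ⟨C₀, g₀, hC₀, hg₀, rfl⟩ hs m hm R _ hR
  rw [card_of_graphOn] at hs
  have hD : (suppS C₀).card ≤ 3 * k := (card_suppS C₀).trans (Nat.mul_le_mul_left 3 hC₀)
  obtain ⟨F2⟩ := pf2 ha hg₀ hD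
  obtain ⟨F3⟩ := pf3 hch ha hg₀ hD
  obtain ⟨T2⟩ := tf_of_pf (k := k) (kk := k - K) (baseSys ch ch' hch ha) F2 (by omega) (by omega)
  obtain ⟨T3⟩ := tf_of_pf (k := k) (kk := k - K) (baseSys ch ch' hch ha) F3 (by omega) (by omega)
  obtain ⟨P₂, Q₂, α, a1, a2, a3⟩ := glued_ring (m := m) T2 hS (by omega) (p := 2)
    (c := Fintype.card (E a) * Fintype.card (E a)) (by
      simp only [Fintype.card_pi, ZMod.card, Finset.prod_const, Finset.card_univ]
      rw [← pow_mul]) R
  obtain ⟨P₃, Q₃, β, b1, b2, b3⟩ := glued_ring (m := m) T3 hS (by omega) (p := 3)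
    (c := Fintype.card (Finset (E a))) (by
      simp only [Fintype.card_pi, ZMod.card, Finset.prod_const, Finset.card_univ]) R
  obtain ⟨P, Q, c1, c2, c3⟩ := comb hR a1 a2 b1 b2
  exact ⟨P, Q, c1, c2, fun A A' hA => c3 A A' (a3 A A' hA) (b3 A A' hA)⟩

end Pool.Agent.LWL
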