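import Pool.Agent.LWL.Key
import Pool.Agent.LWL.SimB
import Pool.Agent.LWL.InvS

/-!
# The main theorem
-/

namespace Pool.Agent.LWL

open Finset Classical Pool.Agent.CoWL

section generic

variable {V W : Type}

lemma pb_of_stable [Fintype V] [Fintype W] {k : ℕ} {G : SimpleGraph V} {H : SimpleGraph W}
    {S : Set (Finset (V × W))} (h : Stable k G H S) : PB S :=
  ⟨fun s hs p hp q hq => (h.iso s hs p hp q hq).1, h.down⟩

lemma un_inst {α : Type} {d d' : DecidableEq α} {s t : Finset α} {S : Set (Finset α)}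
    (h : @Union.union _ (@Finset.instUnion α d) s t ∈ S) :
    @Union.union _ (@Finset.instUnion α d') s t ∈ S := by
  cases Subsingleton.elim d d'
  exact h

lemma un_inst3 {α : Type} {d d' : DecidableEq α} {s t u v : Finset α} {S : Set (Finset α)}
    (h : @Union.union _ (@Finset.instUnion α d) (@Union.union _ (@Finset.instUnion α d)
      (@Union.union _ (@Finset.instUnion α d) s t) u) v ∈ S) :
    @Union.union _ (@Finset.instUnion α d') (@Union.union _ (@Finset.instUnion α d')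
      (@Union.union _ (@Finset.instUnion α d') s t) u) v ∈ S := by
  cases Subsingleton.elim d d'
  exact h

/-- the quantifiers of the logic do not separate related assignments -/
theorem sameTheory_of [Fintype V] [Fintype W] {k K D : ℕ} {G : SimpleGraph V} {H : SimpleGraph W}
    {S : Set (Finset (V × W))} (h : Stable k G H S) (hne : S.Nonempty)
    (hext : ∀ s ∈ S, ZExt2 k S s) (hsim : SimP K S) (hiso : IsoT K D S) (hk : 5 * K < k) :
    SameTheory K D G H := by
  have hS := pb_of_stable h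
  have hf : Forth k S := h.forth
  have hw : ∀ s ∈ S, ∃ r, IsW k S r ∧ r s = 1 := by
    intro s hs
    obtain ⟨r, h0, h1, h2, h3⟩ := hext s hs
    exact ⟨r, isW_of_ext hS h0 h2 h3, by rw [h1 s (Or.inl rfl), if_pos rfl]⟩
  have key := sat_iff (K := K) (D := D) hS (atT (K := K) h.iso) (cntT (by omega) hS hf)
    (slvT (by omega) hS hw) (simT_of_simP (by omega) hS hf hsim) hiso
  obtain ⟨s, hs⟩ := hne
  have h0 : (∅ : Finset (V × W)) ∈ S := hS.down s hs _ (empty_subset s)
  obtain ⟨F, hF⟩ := forth_tuple hf K ∅ h0 (by rw [card_empty]; omega)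
  have hF' : ∀ x, RelS S x (F x) := fun x => by
    have h1 := hF x
    rw [empty_union] at h1
    exact h1
  intro φ
  constructor
  · intro hφ w
    have h1 := hF' (F.symm w)
    rw [F.apply_symm_apply] at h1
    exact (key φ _ _ h1).1 (hφ _)
  · intro hφ v
    exact (key φ _ _ (hF' v)).2 (hφ _)

end generic

variable {a : ℕ}

theorem isoH_base {ch ch' : E a → ZMod 2} (hch : ∑ i, ch i + ∑ i, ch' i = 1) {K D k : ℕ}
    (hk : 7 * K ≤ k) (ha : 5 * 4 ^ (2 * (3 * k)) < 2 * a)
    (hD : (D + 6 + 4 ^ (3 * k)) * 4 ^ (3 * k) < 2 * a)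
    (hS : PB ((baseSys ch ch' hch ha).S k)) (hf : Forth k ((baseSys ch ch' hch ha).S k)) :
    IsoH K D ((baseSys ch ch' hch ha).S k) := by
  intro s hs hsK m hm τ t t' hC r Γ c hL
  refine iso_of_key hS hf hs hC r c (by omega) fun x x' hx => ?_
  obtain ⟨Wd, θ, h1, h2⟩ := key_lemma hch ha hD hs (by omega) hC r c hL x x' (un_inst hx)
  exact ⟨Wd, θ, h1, fun y₁ hy₁ y₂ hy₂ => un_inst3 (h2 y₁ hy₁ y₂ hy₂)⟩

/-- **Main theorem.** -/
theorem main (K D : ℕ) : ∃ (V : Type) (_ : Fintype V) (G H : SimpleGraph V),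
    IsEmpty (G ≃g H) ∧ SameTheory K D G H := by
  set k := 7 * K + 1 with hk
  set a := 5 * 4 ^ (2 * (3 * k)) + (D + 6 + 4 ^ (3 * k)) * 4 ^ (3 * k) with haa
  have hp : 0 < 5 * 4 ^ (2 * (3 * k)) := by positivity
  have hp' : 0 < (D + 6 + 4 ^ (3 * k)) * 4 ^ (3 * k) := by positivity
  have ha : 5 * 4 ^ (2 * (3 * k)) < 2 * a := by omega
  have hD : (D + 6 + 4 ^ (3 * k)) * 4 ^ (3 * k) < 2 * a := by omega
  have ha0 : 0 < a := by omega
  let i0 : E a := (⟨0, ha0⟩, true)
  let ch : E a → ZMod 2 := 0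
  let ch' : E a → ZMod 2 := Pi.single i0 1
  have hch : ∑ i, ch i + ∑ i, ch' i = 1 := by simp [ch, ch']
  have hch' : ∑ i, ch' i + ∑ i, ch i = 1 := by rw [add_comm]; exact hch
  refine ⟨GV (Pt a) NC, inferInstance, Gr (kap ch), Gr (kap ch'), ⟨fun e => ?_⟩, ?_⟩
  · obtain ⟨ψ, hψ⟩ := iso_of_gr e
    exact base_not_iso hch ψ hψ
  · let M := baseSys ch ch' hch ha
    let M' := baseSys ch' ch hch' ha
    have hi : ∀ D g, M.Good D g → ∃ g', M'.Good (D.map (M.φ g).toEmbedding) g' ∧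
        M'.φ g' = (M.φ g).symm := fun D g hg => ⟨Gd.inv g, hg.inv, phi_inv g⟩
    have hi' : ∀ D g, M'.Good D g → ∃ g', M.Good (D.map (M'.φ g).toEmbedding) g' ∧
        M.φ g' = (M'.φ g).symm := fun D g hg => ⟨Gd.inv g, hg.inv, phi_inv g⟩
    have hst : Stable k (Gr (kap ch)) (Gr (kap ch')) (M.S k) := sys_stable M M' hi hi'
    have hst' : Stable k (Gr (kap ch')) (Gr (kap ch)) (M'.S k) := sys_stable M' M hi' hi
    have hne : (M.S k).Nonempty := by
      obtain ⟨x, hx⟩ := exists_lnk (1 : Equiv.Perm (E a))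
      obtain ⟨w, hw⟩ := P3_nonempty (a := a) (π := 1) (by simp)
      refine ⟨graphOn ∅ (hat NC (phi ⟨1, x, w⟩)), ∅, (⟨1, x, w⟩ : Gd a), by simp, ?_, rfl⟩
      refine ⟨hx, ?_, 1, ?_, Or.inl rfl, w, by simpa using hw, ?_⟩ <;> simp [suppS, CoWL.Inv]
    refine sameTheory_of (k := k) hst hne (sys_ext2 M)
      (simP_base hch (by omega) ha (pb_of_stable hst))
      (isoT_of (inv_mem' M M' hi) (inv_mem' M' M hi')
        (isoH_base hch (by omega) ha hD (pb_of_stable hst) hst.forth)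
        (isoH_base hch' (by omega) ha hD (pb_of_stable hst') hst'.forth)) (by omega)

end Pool.Agent.LWL
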