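import Pool.Agent.LWL.Tors

/-!
# Convolution operators on tuples
-/

namespace Pool.Agent.LWL

open Finset Classical Pool.Agent.CoWL

variable {V W : Type} {k : ℕ} {S : Set (Finset (V × W))} {s₀ : Finset (V × W)} {𝓐 : Type}
  [AddCommGroup 𝓐]

namespace TF

variable (Fr : TF k S s₀ 𝓐) [Fintype V] [Fintype 𝓐] {m : ℕ}

/-- the operator of a family of signed measures -/
noncomputable def Mk (μ : (Fin m → V) → 𝓐 → ℤ) : Matrix (Fin m → V) (Fin m → V) ℤ :=
  Matrix.of fun z₁ z => ∑ a, if Fr.tt a z = z₁ then μ z a else 0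

lemma Mk_apply (μ : (Fin m → V) → 𝓐 → ℤ) (z₁ z : Fin m → V) :
    Fr.Mk μ z₁ z = ∑ a, if Fr.tt a z = z₁ then μ z a else 0 := rfl

lemma Mk_mul {μ ν : (Fin m → V) → 𝓐 → ℤ} (hμ : ∀ z a, μ (Fr.tt a z) = μ z)
    (z₂ z : Fin m → V) :
    (Fr.Mk μ * Fr.Mk ν) z₂ z =
      ∑ a, ∑ b, if Fr.tt (a + b) z = z₂ then μ z a * ν z b else 0 := by
  rw [Matrix.mul_apply]
  have h1 : ∀ z₁, Fr.Mk μ z₂ z₁ * Fr.Mk ν z₁ z =
      ∑ b, if Fr.tt b z = z₁ then Fr.Mk μ z₂ z₁ * ν z b else 0 := by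
    intro z₁
    rw [Fr.Mk_apply ν, Finset.mul_sum]
    refine Finset.sum_congr rfl fun b _ => ?_
    rw [mul_ite, mul_zero]
  simp only [h1]
  rw [Finset.sum_comm]
  have h2 : ∀ b, (∑ z₁, if Fr.tt b z = z₁ then Fr.Mk μ z₂ z₁ * ν z b else 0) =
      ∑ a, if Fr.tt (a + b) z = z₂ then μ z a * ν z b else 0 := by
    intro b
    rw [Finset.sum_ite_eq, if_pos (mem_univ _), Fr.Mk_apply, hμ, Finset.sum_mul]
    refine Finset.sum_congr rfl fun a _ => ?_
    rw [Fr.tt_add, ite_mul, zero_mul]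
  simp only [h2]
  rw [Finset.sum_comm]

lemma Mk_comm {μ ν : (Fin m → V) → 𝓐 → ℤ} (hμ : ∀ z a, μ (Fr.tt a z) = μ z)
    (hν : ∀ z a, ν (Fr.tt a z) = ν z) : Fr.Mk μ * Fr.Mk ν = Fr.Mk ν * Fr.Mk μ := by
  ext z₂ z
  rw [Fr.Mk_mul hμ, Fr.Mk_mul hν, Finset.sum_comm]
  refine Finset.sum_congr rfl fun a _ => Finset.sum_congr rfl fun b _ => ?_
  rw [add_comm b a, mul_comm]

/-- the measure of the pinned family -/
noncomputable def mu (C : Finset V) (w : 𝓐) (z : Fin m → V) (a : 𝓐) : ℤ :=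
  if a ∈ Fr.YP C w (rg z) then ((Fintype.card 𝓐 / (Fr.YP C w (rg z)).card : ℕ) : ℤ) else 0

/-- the reflected measure -/
noncomputable def mu' (C : Finset V) (w : 𝓐) (z : Fin m → V) (a : 𝓐) : ℤ := Fr.mu C w z (-a)

/-- the measure of the stabiliser -/
noncomputable def ep (C : Finset V) (_ : Fin m → V) (a : 𝓐) : ℤ :=
  if a ∈ Fr.TC C then ((Fintype.card 𝓐 / (Fr.TC C).card : ℕ) : ℤ) else 0

lemma mu_inv (C : Finset V) (w : 𝓐) (z : Fin m → V) (a : 𝓐) :
    Fr.mu C w (Fr.tt a z) = Fr.mu C w z := by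
  funext b
  unfold mu
  rw [Fr.rg_tt, Fr.YP_idx']

lemma mu'_inv (C : Finset V) (w : 𝓐) (z : Fin m → V) (a : 𝓐) :
    Fr.mu' C w (Fr.tt a z) = Fr.mu' C w z := by
  funext b
  unfold mu'
  rw [Fr.mu_inv]

lemma ep_inv (C : Finset V) (z : Fin m → V) (a : 𝓐) : Fr.ep C (Fr.tt a z) = Fr.ep C z := rfl

/-- the operators -/
noncomputable def uu (C : Finset V) (w : 𝓐) : Matrix (Fin m → V) (Fin m → V) ℤ :=
  Fr.Mk (Fr.mu C w)

/-- the reversed operators -/
noncomputable def uu' (C : Finset V) (w : 𝓐) : Matrix (Fin m → V) (Fin m → V) ℤ :=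
  Fr.Mk (Fr.mu' C w)

/-- the projections -/
noncomputable def ee (C : Finset V) : Matrix (Fin m → V) (Fin m → V) ℤ := Fr.Mk (Fr.ep C)

lemma uu_apply (C : Finset V) (w : 𝓐) (z₁ z : Fin m → V) : Fr.uu C w z₁ z =
    ((Fintype.card 𝓐 / (Fr.YP C w (rg z)).card : ℕ) : ℤ) *
      fibc (Fr.YP C w (rg z)) (fun f => Fr.tt f z) z₁ := by
  unfold uu fibc
  rw [Fr.Mk_apply]
  unfold mu
  rw [← Finset.sum_filter, ← Finset.sum_filter, Finset.sum_const, nsmul_eq_mul, mul_comm]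
  refine congrArg (fun n : ℕ => _ * (n : ℤ)) (congrArg Finset.card ?_)
  ext a
  simp only [mem_filter, mem_univ, true_and]
  tauto

lemma ee_apply (C : Finset V) (z₁ z : Fin m → V) : Fr.ee C z₁ z =
    ((Fintype.card 𝓐 / (Fr.TC C).card : ℕ) : ℤ) *
      fibc (Fr.TC C) (fun f => Fr.tt f z) z₁ := by
  unfold ee fibc
  rw [Fr.Mk_apply]
  unfold ep
  rw [← Finset.sum_filter, ← Finset.sum_filter, Finset.sum_const, nsmul_eq_mul, mul_comm]
  refine congrArg (fun n : ℕ => _ * (n : ℤ)) (congrArg Finset.card ?_)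
  ext a
  simp only [mem_filter, mem_univ, true_and]
  tauto

lemma card_TC_mul (C : Finset V) :
    (Fr.TC C).card * (Fintype.card 𝓐 / (Fr.TC C).card) = Fintype.card 𝓐 :=
  Nat.mul_div_cancel' (Aff.dvd (Fr.TC_aff C) ⟨0, Fr.TC_zero C⟩)

lemma card_YP_mul {C : Finset V} {w : 𝓐} {D : Finset V} (h : (Fr.YP C w D).Nonempty) :
    (Fr.YP C w D).card * (Fintype.card 𝓐 / (Fr.YP C w D).card) = Fintype.card 𝓐 :=
  Nat.mul_div_cancel' (Aff.dvd (Fr.YP_aff C w D) h)

/-- sums over a set absorbing the stabiliser -/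
lemma absorb (C : Finset V) (A : 𝓐 → Prop) [DecidablePred A]
    (hA : ∀ a, A a → ∀ t ∈ Fr.TC C, A (a + t))
    (α : ℤ) (P : 𝓐 → Prop) [DecidablePred P] :
    (∑ a, ∑ b, if P (a + b) then (if A a then α else 0) *
      (if b ∈ Fr.TC C then ((Fintype.card 𝓐 / (Fr.TC C).card : ℕ) : ℤ) else 0) else 0) =
      (Fintype.card 𝓐 : ℤ) * ∑ a, if P a then (if A a then α else 0) else 0 := by
  set β : ℤ := ((Fintype.card 𝓐 / (Fr.TC C).card : ℕ) : ℤ) with hβ
  rw [Finset.sum_comm]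
  let F : 𝓐 → ℤ := fun a => if P a then (if A a then α else 0) else 0
  have h1 : ∀ b, (∑ a, if P (a + b) then (if A a then α else 0) *
      (if b ∈ Fr.TC C then β else 0) else 0) =
      if b ∈ Fr.TC C then β * ∑ a, F a else 0 := by
    intro b
    by_cases hb : b ∈ Fr.TC C
    · rw [if_pos hb, if_pos hb, Finset.mul_sum]
      have h2 : ∀ a, (if P (a + b) then (if A a then α else 0) * β else 0) =
          β * F (a + b) := by
        intro a
        by_cases hP : P (a + b)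
        · rw [if_pos hP]
          simp only [F]
          rw [if_pos hP]
          by_cases ha : A a
          · rw [if_pos ha, if_pos (hA a ha b hb), mul_comm]
          · have ha' : ¬ A (a + b) := fun h => ha (by
              have := hA _ h _ (Fr.TC_neg hb)
              rwa [add_neg_cancel_right] at this)
            rw [if_neg ha, if_neg ha']; simp
        · simp only [F]
          rw [if_neg hP, if_neg hP]; simp
      rw [Finset.sum_congr rfl fun a _ => h2 a]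
      exact Equiv.sum_comp (Equiv.addRight b) (fun a => β * F a)
    · rw [if_neg hb, if_neg hb]
      refine Finset.sum_eq_zero fun a _ => ?_
      simp
  rw [Finset.sum_congr rfl fun b _ => h1 b, ← Finset.sum_filter, Finset.sum_const, nsmul_eq_mul,
    ← mul_assoc]
  congr 1
  have h2 : (univ.filter fun b => b ∈ Fr.TC C) = Fr.TC C := by ext; simp
  rw [h2, hβ, ← Nat.cast_mul, Fr.card_TC_mul]

theorem ee_mul_ee (C : Finset V) :
    (Fr.ee C : Matrix (Fin m → V) (Fin m → V) ℤ) * Fr.ee C =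
      (Fintype.card 𝓐 : ℤ) • Fr.ee C := by
  ext z₂ z
  have h := Fr.Mk_mul (Fr.ep_inv C) (ν := Fr.ep C) z₂ z
  refine Eq.trans h ?_
  rw [Matrix.smul_apply, smul_eq_mul]
  exact Fr.absorb C (fun a => a ∈ Fr.TC C) (fun a ha t ht => Fr.TC_add ha ht) _
    (fun a => Fr.tt a z = z₂)

theorem uu_mul_ee (C : Finset V) (w : 𝓐) :
    (Fr.uu C w : Matrix (Fin m → V) (Fin m → V) ℤ) * Fr.ee C =
      (Fintype.card 𝓐 : ℤ) • Fr.uu C w := by
  ext z₂ z
  have h := Fr.Mk_mul (Fr.mu_inv C w) (ν := Fr.ep C) z₂ z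
  refine Eq.trans h ?_
  rw [Matrix.smul_apply, smul_eq_mul]
  exact Fr.absorb C (fun a => a ∈ Fr.YP C w (rg z)) (fun a ha t ht => Fr.YP_add ha ht) _
    (fun a => Fr.tt a z = z₂)

theorem uu'_mul_ee (C : Finset V) (w : 𝓐) :
    (Fr.uu' C w : Matrix (Fin m → V) (Fin m → V) ℤ) * Fr.ee C =
      (Fintype.card 𝓐 : ℤ) • Fr.uu' C w := by
  ext z₂ z
  have h := Fr.Mk_mul (Fr.mu'_inv C w) (ν := Fr.ep C) z₂ z
  refine Eq.trans h ?_
  rw [Matrix.smul_apply, smul_eq_mul]
  exact Fr.absorb C (fun a => -a ∈ Fr.YP C w (rg z)) (fun a ha t ht => by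
    rw [neg_add]
    exact Fr.YP_add ha (Fr.TC_neg ht)) _ (fun a => Fr.tt a z = z₂)

theorem uu'_mul_uu {C : Finset V} {w : 𝓐} (hw : w ∈ Fr.Y C) (hk : C.card + m ≤ k) :
    (Fr.uu' C w : Matrix (Fin m → V) (Fin m → V) ℤ) * Fr.uu C w =
      (Fintype.card 𝓐 : ℤ) • Fr.ee C := by
  ext z₂ z
  have hne : (Fr.YP C w (rg z)).Nonempty := by
    refine Fr.YP_ne hw ((card_union_le _ _).trans ?_)
    have := card_rg z
    omega
  have h := Fr.Mk_mul (Fr.mu'_inv C w) (ν := Fr.mu C w) z₂ z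
  refine Eq.trans h ?_
  rw [Matrix.smul_apply, smul_eq_mul, Fr.ee_apply]
  set Y := Fr.YP C w (rg z) with hY
  set n : ℤ := ((Fintype.card 𝓐 / Y.card : ℕ) : ℤ) with hn
  set κ := fibc (Fr.TC C) (fun f => Fr.tt f z) z₂ with hκ
  -- the number of second coordinates
  have hcount : ∀ a ∈ Y, fibc Y (fun f => Fr.tt f z) (Fr.tt a z₂) * (Fr.TC C).card =
      κ * Y.card := by
    intro a ha
    have h1 : ((Fr.TC C).image fun t => a + t).card = (Fr.TC C).card :=
      card_image_of_injective _ (add_right_injective a)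
    have hAff : Aff ((Fr.TC C).image fun t => a + t) := by
      intro f₁ f₂ f₃ h₁ h₂ h₃
      obtain ⟨t₁, ht₁, rfl⟩ := mem_image.1 h₁
      obtain ⟨t₂, ht₂, rfl⟩ := mem_image.1 h₂
      obtain ⟨t₃, ht₃, rfl⟩ := mem_image.1 h₃
      refine mem_image.2 ⟨t₁ + (t₂ - t₃), Fr.TC_aff C _ _ _ ht₁ ht₂ ht₃, ?_⟩
      abel
    have h2 := fibre_prop (Fr.YP_aff C w (rg z)) hAff (fun f => Fr.tt f z)
      (fun f f' d h => by
        rw [add_comm f d, add_comm f' d, Fr.tt_add, Fr.tt_add, h])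
      (fun f hf => by
        rw [hY] at ha
        have ha' := Fr.mem_YP.1 ha
        have hf' := Fr.mem_YP.1 hf
        obtain ⟨t, ht, h⟩ := Fr.tors' _ a f ha'.1 hf'.1
        refine ⟨a + t, mem_image.2 ⟨t, Fr.mem_TC.2 ⟨ht, fun v hv => ?_⟩, rfl⟩, ?_⟩
        · have e1 := h v (mem_union_left _ hv)
          rw [hf'.2 v hv, ← ha'.2 v hv, Fr.τ_add] at e1
          exact (Fr.τ_inj e1).symm
        · funext i
          exact (h _ (mem_union_right _ (mem_rg z i))).symm)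
      (fun f hf => by
        obtain ⟨t, ht, rfl⟩ := mem_image.1 hf
        exact ⟨a + t, Fr.YP_add ha ht, rfl⟩) (Fr.tt a z₂)
    rw [h1] at h2
    have h3 : fibc ((Fr.TC C).image fun t => a + t) (fun f => Fr.tt f z) (Fr.tt a z₂) = κ := by
      rw [hκ]
      unfold fibc
      refine Eq.trans (congrArg Finset.card ?_)
        (card_image_of_injective _ (add_right_injective a))
      ext b
      simp only [mem_filter, mem_image]
      constructor
      · rintro ⟨⟨t, ht, rfl⟩, h⟩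
        rw [Fr.tt_add] at h
        exact ⟨t, ⟨ht, Fr.tt_inj h⟩, rfl⟩
      · rintro ⟨t, ⟨ht, h⟩, rfl⟩
        refine ⟨⟨t, ht, rfl⟩, ?_⟩
        rw [Fr.tt_add, h]
    rw [h2, h3]
  -- the double sum
  have hsum : (∑ a, ∑ b, if Fr.tt (a + b) z = z₂ then Fr.mu' C w z a * Fr.mu C w z b else 0) =
      ∑ a ∈ Y, n * n * (fibc Y (fun f => Fr.tt f z) (Fr.tt a z₂) : ℤ) := by
    rw [← Finset.sum_filter_add_sum_filter_not univ (fun a => -a ∈ Y)]
    have hz : (∑ a with ¬ -a ∈ Y, ∑ b, if Fr.tt (a + b) z = z₂ then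
        Fr.mu' C w z a * Fr.mu C w z b else 0) = 0 := by
      refine Finset.sum_eq_zero fun a ha => Finset.sum_eq_zero fun b _ => ?_
      have : Fr.mu' C w z a = 0 := by
        unfold mu' mu
        rw [if_neg]
        exact (mem_filter.1 ha).2
      rw [this]; simp
    rw [hz, add_zero]
    refine Finset.sum_nbij' (fun a => -a) (fun a => -a) ?_ ?_ ?_ ?_ ?_
    · intro a ha; exact (mem_filter.1 ha).2
    · intro a ha
      refine mem_filter.2 ⟨mem_univ _, ?_⟩
      rw [neg_neg]; exact ha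
    · intro a _; exact neg_neg a
    · intro a _; exact neg_neg a
    · intro a ha
      have ha' := (mem_filter.1 ha).2
      have e1 : Fr.mu' C w z a = n := by
        unfold mu' mu
        rw [if_pos ha']
      have e2 : ∀ b, (if Fr.tt (a + b) z = z₂ then Fr.mu' C w z a * Fr.mu C w z b else 0) =
          if b ∈ Y ∧ Fr.tt b z = Fr.tt (-a) z₂ then n * n else 0 := by
        intro b
        have e3 : Fr.tt (a + b) z = z₂ ↔ Fr.tt b z = Fr.tt (-a) z₂ := by
          rw [Fr.tt_add]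
          constructor
          · intro h; rw [← h, ← Fr.tt_add, neg_add_cancel, Fr.tt_zero]
          · intro h; rw [h, ← Fr.tt_add, add_neg_cancel, Fr.tt_zero]
        rw [e1]
        by_cases hb : b ∈ Y
        · have e4 : Fr.mu C w z b = n := by unfold mu; rw [if_pos hb]
          by_cases hz : Fr.tt b z = Fr.tt (-a) z₂
          · rw [if_pos (e3.2 hz), if_pos ⟨hb, hz⟩, e4]
          · rw [if_neg (mt e3.1 hz), if_neg (mt And.right hz)]
        · have e4 : Fr.mu C w z b = 0 := by unfold mu; rw [if_neg hb]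
          rw [e4, mul_zero, if_neg (mt And.left hb)]; simp
      simp only [e2]
      rw [← Finset.sum_filter, Finset.sum_const, nsmul_eq_mul, mul_comm]
      congr 2
      unfold fibc
      congr 1
      ext b
      simp
  rw [hsum]
  have hT : ((Fr.TC C).card : ℤ) ≠ 0 := by
    have := Finset.card_pos.2 ⟨0, Fr.TC_zero C⟩
    exact_mod_cast this.ne'
  refine mul_left_cancel₀ hT ?_
  have hYm : (Y.card : ℤ) * n = Fintype.card 𝓐 := by
    rw [hn]
    exact_mod_cast Fr.card_YP_mul hne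
  have hTm : ((Fr.TC C).card : ℤ) * ((Fintype.card 𝓐 / (Fr.TC C).card : ℕ) : ℤ) =
      Fintype.card 𝓐 := by exact_mod_cast Fr.card_TC_mul C
  calc ((Fr.TC C).card : ℤ) * ∑ a ∈ Y, n * n * (fibc Y (fun f => Fr.tt f z) (Fr.tt a z₂) : ℤ)
      = ∑ a ∈ Y, n * n * ((fibc Y (fun f => Fr.tt f z) (Fr.tt a z₂) : ℤ) *
          (Fr.TC C).card) := by
        rw [Finset.mul_sum]
        exact Finset.sum_congr rfl fun a _ => by ring
    _ = ∑ a ∈ Y, n * n * ((κ : ℤ) * Y.card) := by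
        refine Finset.sum_congr rfl fun a ha => ?_
        have := hcount a ha
        rw [show (fibc Y (fun f => Fr.tt f z) (Fr.tt a z₂) : ℤ) * (Fr.TC C).card =
          (κ : ℤ) * Y.card by exact_mod_cast this]
    _ = ((Y.card : ℤ) * n) * ((Y.card : ℤ) * n) * κ := by
        rw [Finset.sum_const, nsmul_eq_mul]; ring
    _ = ((Fr.TC C).card : ℤ) * ((Fintype.card 𝓐 : ℤ) *
          (((Fintype.card 𝓐 / (Fr.TC C).card : ℕ) : ℤ) * κ)) := by
        rw [hYm]
        linear_combination (-(Fintype.card 𝓐 : ℤ) * κ) * hTm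

/-- tuples are fixed by the projection of their set of entries -/
theorem ee_rg (z z' : Fin m → V) :
    Fr.ee (rg z) z' z = if z' = z then (Fintype.card 𝓐 : ℤ) else 0 := by
  rw [Fr.ee_apply]
  have h1 : ∀ t ∈ Fr.TC (rg z), Fr.tt t z = z := by
    intro t ht
    funext i
    exact (Fr.mem_TC.1 ht).2 _ (mem_rg z i)
  by_cases h : z' = z
  · rw [if_pos h, h, fibc_full h1, mul_comm]
    exact_mod_cast Fr.card_TC_mul (rg z)
  · rw [if_neg h, fibc_zero fun t ht hh => h (by rw [← hh, h1 t ht])]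
    simp

end TF

end Pool.Agent.LWL
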