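import Pool.Agent.CoWL.Defs

/-!
# Torsor frames at the level of points
-/

namespace Pool.Agent.LWL

open Finset Classical Pool.Agent.CoWL

/-- A torsor frame for the section `(D₀, g₀)`: the commutative group `𝓐` acts on `V`, the global maps
`Ψ f` are the translates of a bijection `F₀`, and locally (over a set `D` of at most `K` points) the
good ones that extend `(D₀, g₀)` form a coset of the fixed subgroup `T`. -/
structure PF {V Gd : Type} (K : ℕ) (φ : Gd → V ≃ V) (Good : Finset V → Gd → Prop)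
    (D₀ : Finset V) (g₀ : Gd) (𝓐 : Type) [AddCommGroup 𝓐] where
  τ : 𝓐 → V ≃ V
  τ_zero : ∀ p, τ 0 p = p
  τ_add : ∀ a b p, τ (a + b) p = τ a (τ b p)
  F₀ : V ≃ V
  Ψ : 𝓐 → Gd
  hF : ∀ f p, φ (Ψ f) p = F₀ (τ f p)
  T : AddSubgroup 𝓐
  Y : Finset V → Set 𝓐
  ne : ∀ D : Finset V, D.card ≤ K → (Y D).Nonempty
  aff : ∀ D f₁ f₂ f₃, f₁ ∈ Y D → f₂ ∈ Y D → f₃ ∈ Y D → f₁ + (f₂ - f₃) ∈ Y D
  anti : ∀ D' D : Finset V, D' ⊆ D → Y D ⊆ Y D'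
  tors : ∀ D f, f ∈ Y D → ∀ t ∈ T, f + t ∈ Y D
  tors' : ∀ D f f', f ∈ Y D → f' ∈ Y D → ∃ t ∈ T, ∀ p ∈ D, τ f' p = τ (f + t) p
  idx : ∀ (C D : Finset V) (a : 𝓐), Y (C ∪ D.image (τ a)) = Y (C ∪ D)
  good : ∀ D f, f ∈ Y D → Good (D₀ ∪ D) (Ψ f) ∧ ∀ q ∈ D₀, φ (Ψ f) q = φ g₀ q

end Pool.Agent.LWL
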