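import Pool.Agent.LWL.Sat

/-!
# Back and forth on quotients

`S` is a set of partial bijections, closed under restriction, with the bijective extension property up
to size `k` (`Forth k S`). `t`, `t'` agree over `s` (`Cp S s t t'`).

PROOF. `forth_tuple`: induction on `m` (`zp_succ`, `Fin.consEquiv`; apply `hf` to `t`, then the induction
hypothesis to each `insert (v, f v) t`, and glue the bijections with `Equiv.prodShear`, as in
`CoWL/SysForth.lean`).
`quot_iff`: `Quot.mk u = Quot.mk z` iff there is a path `u = y₀, y₁, .., yₙ = z` with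
`t yᵢ yᵢ₊₁ ∈ r` or `t yᵢ₊₁ yᵢ ∈ r` (`Quot.eq`, `Relation.EqvGen`; it is convenient to show that
`EqvGen` is `ReflTransGen` of the symmetric closure). Claim, by induction on the path: for all `u'`, `z'`
with `s ∪ zp z z' ∪ zp u u' ∈ S` there is a path from `u'` to `z'`. Step `u .. y, z`: extend
`s ∪ zp z z' ∪ zp u u'` by `zp y y'` (`forth_tuple`, size at most `s.card + 3 * m ≤ k`), restrict to
`s ∪ zp y y' ∪ zp u u'` (induction hypothesis) and to `s ∪ zp z z' ∪ zp y y'` (`t y z = t' y' z'`, and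
`t z y = t' z' y'` by exchanging the roles). Conversely use that the bijection of `forth_tuple` is
surjective. (Level: for the step we need `(s ∪ zp z z' ∪ zp u u').card + m ≤ k`.)
`qt_eq`: a pair of representatives `(a, b)` of the classes of `u` and `z` extends to `(a', b')`; use
`quot_iff` twice and `t a b = t' a' b'`. `conn_iff`: again induction on the path, with one more tuple and
`qt_eq`. `class_card`: the bijection `F` of `forth_tuple` for `s ∪ zp u u'` maps the class of `u` onto
the class of `u'` by `quot_iff`.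
-/

namespace Pool.Agent.LWL

open Finset Classical Pool.Agent.CoWL

variable {V W : Type}

/-- the bijective extension property -/
def Forth (k : ℕ) (S : Set (Finset (V × W))) : Prop :=
  ∀ s ∈ S, s.card < k → ∃ f : V ≃ W, ∀ v, insert (v, f v) s ∈ S

theorem forth_tuple {k : ℕ} {S : Set (Finset (V × W))} (hf : Forth k S) (m : ℕ) :
    ∀ t ∈ S, t.card + m ≤ k → ∃ F : (Fin m → V) ≃ (Fin m → W), ∀ x, t ∪ zp x (F x) ∈ S := by
  induction m with
  | zero =>
    intro t ht _
    refine ⟨⟨fun _ i => i.elim0, fun _ i => i.elim0, fun _ => funext fun i => i.elim0,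
      fun _ => funext fun i => i.elim0⟩, fun x => ?_⟩
    have : t ∪ zp x (fun i : Fin 0 => (i.elim0 : W)) = t := by
      ext p
      simp [zp]
    change t ∪ zp x (fun i : Fin 0 => (i.elim0 : W)) ∈ S
    rw [this]
    exact ht
  | succ m ih =>
    intro t ht hc
    obtain ⟨f, hf'⟩ := hf t ht (by omega)
    have h1 : ∀ v : V, ∃ F : (Fin m → V) ≃ (Fin m → W),
        ∀ x, insert (v, f v) t ∪ zp x (F x) ∈ S := by
      intro v
      have := card_insert_le (v, f v) t
      exact ih _ (hf' v) (by omega)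
    choose F hF using h1
    refine ⟨((Fin.consEquiv fun _ => V).symm.trans (Equiv.prodShear f F)).trans
      (Fin.consEquiv fun _ => W), fun x => ?_⟩
    have h2 := hF (x 0) (Fin.tail x)
    have h3 : (((Fin.consEquiv fun _ => V).symm.trans (Equiv.prodShear f F)).trans
      (Fin.consEquiv fun _ => W)) x = Fin.cons (f (x 0)) (F (x 0) (Fin.tail x)) := rfl
    rw [h3]
    have h4 : t ∪ zp x (Fin.cons (f (x 0)) (F (x 0) (Fin.tail x)) : Fin (m + 1) → W) =
        insert (x 0, f (x 0)) t ∪ zp (Fin.tail x) (F (x 0) (Fin.tail x)) := by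
      rw [zp_succ]
      ext p
      simp only [Fin.cons_zero, Fin.tail_cons, mem_union, mem_insert]
      tauto
    rw [h4]
    exact h2

private lemma zp_fun {S : Set (Finset (V × W))} (hS : PB S) {t : Finset (V × W)} (ht : t ∈ S)
    {m : ℕ} {y : Fin m → V} {a b : Fin m → W} (ha : zp y a ⊆ t) (hb : zp y b ⊆ t) : a = b := by
  funext i
  exact (hS.inj t ht _ (ha (mem_zp.2 ⟨i, rfl⟩)) _ (hb (mem_zp.2 ⟨i, rfl⟩))).1 rfl

private lemma zp_inj {S : Set (Finset (V × W))} (hS : PB S) {t : Finset (V × W)} (ht : t ∈ S)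
    {m : ℕ} {y z : Fin m → V} {a : Fin m → W} (ha : zp y a ⊆ t) (hb : zp z a ⊆ t) : y = z := by
  funext i
  exact (hS.inj t ht _ (ha (mem_zp.2 ⟨i, rfl⟩)) _ (hb (mem_zp.2 ⟨i, rfl⟩))).2 rfl

/-- transport of paths -/
private lemma path_tr {X Y : Type} (E : X → Y → X → Y → Prop) {P : X → X → Prop}
    {P' : Y → Y → Prop} (h0 : ∀ u u' z', E u u' u z' → u' = z')
    (h1 : ∀ u u' z z', E u u' z z' → ∀ y, ∃ y', E u u' y y' ∧ E y y' z z')
    (h2 : ∀ y y' z z', E y y' z z' → P y z → P' y' z') {u z : X}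
    (h : Relation.ReflTransGen P u z) :
    ∀ (u' z' : Y), E u u' z z' → Relation.ReflTransGen P' u' z' := by
  induction h with
  | refl =>
    intro u' z' hE
    rw [h0 _ _ _ hE]
  | @tail y z _ hyz ih =>
    intro u' z' hE
    obtain ⟨y', e1, e2⟩ := h1 _ _ _ _ hE y
    exact (ih u' y' e1).tail (h2 _ _ _ _ e2 hyz)

private lemma eqv_iff {X : Type} {R : X → X → Prop} {x y : X} :
    Relation.EqvGen R x y ↔ Relation.ReflTransGen (fun a b => R a b ∨ R b a) x y := by
  constructor
  · intro h
    induction h with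
    | rel a b h => exact Relation.ReflTransGen.single (Or.inl h)
    | refl a => exact Relation.ReflTransGen.refl
    | symm a b _ ih => exact Relation.reflTransGen_swap.1 (Relation.ReflTransGen.mono (fun a b h => Or.symm h) _ _ ih)
    | trans a b c _ _ ih1 ih2 => exact ih1.trans ih2
  · intro h
    induction h with
    | refl => exact Relation.EqvGen.refl _
    | tail _ h ih =>
      refine ih.trans _ _ _ ?_
      rcases h with h | h
      · exact Relation.EqvGen.rel _ _ h
      · exact (Relation.EqvGen.rel _ _ h).symm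

section

variable {k m : ℕ} {S : Set (Finset (V × W))} {s : Finset (V × W)}

/-- the relation of pairs of tuples -/
private def EE (S : Set (Finset (V × W))) (s : Finset (V × W)) (u : Fin m → V) (u' : Fin m → W)
    (z : Fin m → V) (z' : Fin m → W) : Prop := s ∪ zp z z' ∪ zp u u' ∈ S

private lemma EE.symm {u z : Fin m → V} {u' z' : Fin m → W} (h : EE S s u u' z z') :
    EE S s z z' u u' := by
  unfold EE at *
  rwa [union_right_comm]

private lemma EE.card (s : Finset (V × W)) (u z : Fin m → V) (u' z' : Fin m → W) :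
    (s ∪ zp z z' ∪ zp u u').card ≤ s.card + 2 * m := by
  have h1 := card_union_le (s ∪ zp z z') (zp u u')
  have h2 := card_union_le s (zp z z')
  have h3 := card_zp z z'
  have h4 := card_zp u u'
  omega

private lemma EE.ext (hS : PB S) (hf : Forth k S) (hk : s.card + 3 * m ≤ k) {u z : Fin m → V}
    {u' z' : Fin m → W} (h : EE S s u u' z z') (y : Fin m → V) :
    ∃ y', EE S s u u' y y' ∧ EE S s y y' z z' := by
  obtain ⟨F, hF⟩ := forth_tuple hf m _ h (by have := EE.card s u z u' z'; omega)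
  refine ⟨F y, hS.down _ (hF y) _ ?_, hS.down _ (hF y) _ ?_⟩
  · intro p hp
    simp only [mem_union] at hp ⊢
    tauto
  · intro p hp
    simp only [mem_union] at hp ⊢
    tauto

private lemma EE.ext' (hS : PB S) (hf : Forth k S) (hk : s.card + 3 * m ≤ k) {u z : Fin m → V}
    {u' z' : Fin m → W} (h : EE S s u u' z z') (y' : Fin m → W) :
    ∃ y, EE S s u u' y y' ∧ EE S s y y' z z' := by
  obtain ⟨F, hF⟩ := forth_tuple hf m _ h (by have := EE.card s u z u' z'; omega)
  have h1 := hF (F.symm y')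
  rw [F.apply_symm_apply] at h1
  refine ⟨F.symm y', hS.down _ h1 _ ?_, hS.down _ h1 _ ?_⟩
  · intro p hp
    simp only [mem_union] at hp ⊢
    tauto
  · intro p hp
    simp only [mem_union] at hp ⊢
    tauto

private lemma path_iff (hS : PB S) (hf : Forth k S) (hk : s.card + 3 * m ≤ k)
    {P : (Fin m → V) → (Fin m → V) → Prop} {P' : (Fin m → W) → (Fin m → W) → Prop}
    (hP : ∀ y y' z z', EE S s y y' z z' → (P y z ↔ P' y' z')) {u z : Fin m → V}
    {u' z' : Fin m → W} (h : EE S s u u' z z') :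
    Relation.ReflTransGen P u z ↔ Relation.ReflTransGen P' u' z' := by
  constructor
  · intro hp
    exact path_tr (EE S s)
      (fun u u' z' h => zp_fun hS h (y := u) (by intro p hp; simp only [mem_union]; tauto)
        (by intro p hp; simp only [mem_union]; tauto))
      (fun u u' z z' h y => EE.ext hS hf hk h y)
      (fun y y' z z' h => (hP _ _ _ _ h).1) hp _ _ h
  · intro hp
    exact path_tr (fun u' u z' z => EE S s u u' z z')
      (fun u' u z h => zp_inj hS h (a := u') (by intro p hp; simp only [mem_union]; tauto)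
        (by intro p hp; simp only [mem_union]; tauto))
      (fun u' u z' z h y' => EE.ext' hS hf hk h y')
      (fun y' y z' z h => (hP _ _ _ _ h).2) hp _ _ h

end

theorem quot_iff {k m : ℕ} {S : Set (Finset (V × W))} (hS : PB S) (hf : Forth k S)
    {s : Finset (V × W)} {τ : Type} {t : (Fin m → V) → (Fin m → V) → τ}
    {t' : (Fin m → W) → (Fin m → W) → τ} (hC : Cp S s t t') (r : Set τ)
    (hk : s.card + 3 * m ≤ k) {u z : Fin m → V} {u' z' : Fin m → W}
    (h : s ∪ zp z z' ∪ zp u u' ∈ S) :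
    (Quot.mk _ u : Qt t r) = Quot.mk _ z ↔ (Quot.mk _ u' : Qt t' r) = Quot.mk _ z' := by
  rw [Quot.eq, Quot.eq, eqv_iff, eqv_iff]
  refine path_iff hS hf hk (fun y y' z z' h => ?_) h
  have h1 : t y z = t' y' z' := hC _ _ _ _ h
  have h2 : t z y = t' z' y' := hC _ _ _ _ h.symm
  simp only [h1, h2]

theorem qt_eq {k m : ℕ} {S : Set (Finset (V × W))} (hS : PB S) (hf : Forth k S)
    {s : Finset (V × W)} {τ : Type} {t : (Fin m → V) → (Fin m → V) → τ}
    {t' : (Fin m → W) → (Fin m → W) → τ} (hC : Cp S s t t') (r : Set τ)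
    (hk : s.card + 4 * m ≤ k) {u z : Fin m → V} {u' z' : Fin m → W}
    (h : s ∪ zp z z' ∪ zp u u' ∈ S) :
    qt t r (Quot.mk _ u) (Quot.mk _ z) = qt t' r (Quot.mk _ u') (Quot.mk _ z') := by
  have hc := EE.card s u z u' z'
  obtain ⟨F, hF⟩ := forth_tuple hf m _ h (by omega)
  have hc2 : ∀ x, (s ∪ zp z z' ∪ zp u u' ∪ zp x (F x)).card + m ≤ k := by
    intro x
    have h1 := card_union_le (s ∪ zp z z' ∪ zp u u') (zp x (F x))
    have h2 := card_zp x (F x)
    omega
  have hG : ∀ x, ∃ G : (Fin m → V) ≃ (Fin m → W), ∀ y,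
      s ∪ zp z z' ∪ zp u u' ∪ zp x (F x) ∪ zp y (G y) ∈ S :=
    fun x => forth_tuple hf m _ (hF x) (hc2 x)
  have key : ∀ x x' y y', s ∪ zp z z' ∪ zp u u' ∪ zp x x' ∪ zp y y' ∈ S →
      (((Quot.mk _ x : Qt t r) = Quot.mk _ u ↔ (Quot.mk _ x' : Qt t' r) = Quot.mk _ u') ∧
      ((Quot.mk _ y : Qt t r) = Quot.mk _ z ↔ (Quot.mk _ y' : Qt t' r) = Quot.mk _ z') ∧
      t x y = t' x' y') := by
    intro x x' y y' hxy
    refine ⟨quot_iff hS hf hC r (by omega) (hS.down _ hxy _ ?_),
      quot_iff hS hf hC r (by omega) (hS.down _ hxy _ ?_), hC _ _ _ _ (hS.down _ hxy _ ?_)⟩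
    · intro p hp
      simp only [mem_union] at hp ⊢
      tauto
    · intro p hp
      simp only [mem_union] at hp ⊢
      tauto
    · intro p hp
      simp only [mem_union] at hp ⊢
      tauto
  ext a
  constructor
  · rintro ⟨x, y, hx, hy, hxy⟩
    obtain ⟨G, hG'⟩ := hG x
    obtain ⟨k1, k2, k3⟩ := key x (F x) y (G y) (hG' y)
    exact ⟨F x, G y, k1.1 hx, k2.1 hy, k3 ▸ hxy⟩
  · rintro ⟨x', y', hx, hy, hxy⟩
    obtain ⟨G, hG'⟩ := hG (F.symm x')
    have h5 := hG' (G.symm y')
    rw [F.apply_symm_apply, G.apply_symm_apply] at h5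
    obtain ⟨k1, k2, k3⟩ := key _ _ _ _ h5
    exact ⟨F.symm x', G.symm y', k1.2 hx, k2.2 hy, k3.trans hxy⟩

private lemma conn_rep {X τ Γ : Type} (t : X → X → τ) (r : Set τ) (c : Set τ → Option Γ)
    (u z : X) :
    Conn (fun p q : Qt t r => c (qt t r p q)) (Quot.mk _ u) (Quot.mk _ z) ↔
      Relation.ReflTransGen (fun x y : X => (Quot.mk _ x : Qt t r) = Quot.mk _ y ∨
        (c (qt t r (Quot.mk _ x) (Quot.mk _ y)) ≠ none ∨
          c (qt t r (Quot.mk _ y) (Quot.mk _ x)) ≠ none)) u z := by
  constructor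
  · intro h
    unfold Conn at h
    have key : ∀ q, Relation.ReflTransGen (fun p q : Qt t r => c (qt t r p q) ≠ none ∨
        c (qt t r q p) ≠ none) (Quot.mk _ u) q → ∀ z, Quot.mk _ z = q →
        Relation.ReflTransGen (fun x y : X => (Quot.mk _ x : Qt t r) = Quot.mk _ y ∨
        (c (qt t r (Quot.mk _ x) (Quot.mk _ y)) ≠ none ∨
          c (qt t r (Quot.mk _ y) (Quot.mk _ x)) ≠ none)) u z := by
      intro q hq
      induction hq with
      | refl =>
        intro z hz
        exact Relation.ReflTransGen.single (Or.inl hz.symm)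
      | @tail p q _ hpq ih =>
        intro z hz
        obtain ⟨y, hy⟩ := Quot.exists_rep p
        refine (ih y hy).tail (Or.inr ?_)
        rw [hy, hz]
        exact hpq
    exact key _ h z rfl
  · intro h
    unfold Conn
    induction h with
    | refl => exact Relation.ReflTransGen.refl
    | tail _ h ih =>
      rcases h with h | h
      · rw [← h]; exact ih
      · exact ih.tail h

theorem conn_iff {k m : ℕ} {S : Set (Finset (V × W))} (hS : PB S) (hf : Forth k S)
    {s : Finset (V × W)} {τ Γ : Type} {t : (Fin m → V) → (Fin m → V) → τ}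
    {t' : (Fin m → W) → (Fin m → W) → τ} (hC : Cp S s t t') (r : Set τ)
    (c : Set τ → Option Γ)
    (hk : s.card + 4 * m ≤ k) {u z : Fin m → V} {u' z' : Fin m → W}
    (h : s ∪ zp z z' ∪ zp u u' ∈ S) :
    Conn (fun p q : Qt t r => c (qt t r p q)) (Quot.mk _ u) (Quot.mk _ z) ↔
      Conn (fun p q : Qt t' r => c (qt t' r p q)) (Quot.mk _ u') (Quot.mk _ z') := by
  rw [conn_rep, conn_rep]
  refine path_iff hS hf (by omega) (fun y y' z z' h => ?_) h
  rw [quot_iff hS hf hC r (by omega) h, qt_eq hS hf hC r hk h, qt_eq hS hf hC r hk h.symm]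

theorem class_card {k m : ℕ} {S : Set (Finset (V × W))} (hS : PB S) (hf : Forth k S)
    {s : Finset (V × W)} {τ : Type} {t : (Fin m → V) → (Fin m → V) → τ}
    {t' : (Fin m → W) → (Fin m → W) → τ} (hC : Cp S s t t') (r : Set τ)
    (hk : s.card + 3 * m ≤ k) {u : Fin m → V} {u' : Fin m → W} (h : s ∪ zp u u' ∈ S) :
    Nat.card {y : Fin m → V // (Quot.mk _ y : Qt t r) = Quot.mk _ u} =
      Nat.card {y : Fin m → W // (Quot.mk _ y : Qt t' r) = Quot.mk _ u'} := by
  have h1 := card_union_le s (zp u u')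
  have h2 := card_zp u u'
  obtain ⟨F, hF⟩ := forth_tuple hf m _ h (by omega)
  exact Nat.card_congr (F.subtypeEquiv fun y => quot_iff hS hf hC r hk (hF y))

end Pool.Agent.LWL
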