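import Mathlib

/-!
# Gluing partial intertwiners

In a commutative ring let `e i` be `N` times commuting idempotents and let `u i`, `u' i` be inverse to
each other up to `N` on the image of `e i`.  The recursion below glues the `u i` to an element that is
invertible up to a power of `N` if the idempotents cover everything.
-/

namespace Pool.Agent.LWL

section ring

variable {R ι : Type*} [CommRing R]

/-- gluing -/
def glue (N : R) (u e : ι → R) : List ι → R
  | [] => 0
  | i :: L => N ^ L.length * u i + glue N u e L * (N - e i)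

theorem glue_mul (N : R) (u u' e : ι → R) (h1 : ∀ i, u' i * u i = N * e i)
    (h2 : ∀ i, e i * e i = N * e i) (h3 : ∀ i, u i * e i = N * u i)
    (h4 : ∀ i, u' i * e i = N * u' i) (L : List ι) :
    glue N u' e L * glue N u e L =
      N ^ (2 * L.length) - N ^ L.length * (L.map fun i => N - e i).prod := by
  induction L with
  | nil => simp [glue]
  | cons i L ih =>
    simp only [glue, List.length_cons, List.map_cons, List.prod_cons]
    set l := L.length
    set S := glue N u e L
    set S' := glue N u' e L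
    set Q := (L.map fun i => N - e i).prod
    have e1 := h1 i
    have e2 := h2 i
    have e3 := h3 i
    have e4 := h4 i
    have e5 : (N - e i) * (N - e i) = N * (N - e i) := by linear_combination e2
    have e6 : u i * (N - e i) = 0 := by linear_combination - e3
    have e7 : u' i * (N - e i) = 0 := by linear_combination - e4
    calc (N ^ l * u' i + S' * (N - e i)) * (N ^ l * u i + S * (N - e i))
        = N ^ l * N ^ l * (u' i * u i) + N ^ l * S * (u' i * (N - e i)) +
          N ^ l * S' * (u i * (N - e i)) + S' * S * ((N - e i) * (N - e i)) := by ring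
      _ = N ^ l * N ^ l * (N * e i) + (N ^ (2 * l) - N ^ l * Q) * (N * (N - e i)) := by
          rw [e1, e5, e6, e7, ih]; ring
      _ = N ^ (2 * (l + 1)) - N ^ (l + 1) * ((N - e i) * Q) := by ring

theorem glue_closed (N : R) (u e : ι → R) (P : R → Prop) (h0 : P 0)
    (hadd : ∀ x y, P x → P y → P (x + y)) (hneg : ∀ x, P x → P (-x))
    (hN : ∀ x, P x → P (N * x)) (he : ∀ i x, P x → P (x * e i)) (hu : ∀ i, P (u i))
    (L : List ι) : P (glue N u e L) := by
  have hNk : ∀ (k : ℕ) x, P x → P (N ^ k * x) := by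
    intro k
    induction k with
    | zero => intro x hx; simpa using hx
    | succ k ih =>
      intro x hx
      rw [pow_succ', mul_assoc]
      exact hN _ (ih x hx)
  induction L with
  | nil => exact h0
  | cons i L ih =>
    refine hadd _ _ (hNk _ _ (hu i)) ?_
    have : glue N u e L * (N - e i) = N * glue N u e L + -(glue N u e L * e i) := by ring
    rw [this]
    exact hadd _ _ (hN _ ih) (hneg _ (he i _ ih))

end ring

section matrix

open Classical in
/-- The gluing theorem for commuting integral matrices. -/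
theorem mat_glue {Z ι : Type} [Fintype Z] (N : ℕ) (u u' e : ι → Matrix Z Z ℤ)
    (c1 : ∀ i j, u i * u j = u j * u i) (c2 : ∀ i j, u i * u' j = u' j * u i)
    (c3 : ∀ i j, u i * e j = e j * u i) (c4 : ∀ i j, u' i * u' j = u' j * u' i)
    (c5 : ∀ i j, u' i * e j = e j * u' i) (c6 : ∀ i j, e i * e j = e j * e i)
    (h1 : ∀ i, u' i * u i = (N : ℤ) • e i)
    (h2 : ∀ i, e i * e i = (N : ℤ) • e i) (h3 : ∀ i, u i * e i = (N : ℤ) • u i)
    (h4 : ∀ i, u' i * e i = (N : ℤ) • u' i) (L : List ι)
    (hL : ∀ z, ∃ i ∈ L, ∀ z', e i z' z = if z' = z then (N : ℤ) else 0)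
    (P : Matrix Z Z ℤ → Prop) (h0 : P 0)
    (hadd : ∀ x y, P x → P y → P (x + y)) (hsmul : ∀ (k : ℤ) x, P x → P (k • x))
    (he : ∀ i x, P x → P (x * e i)) (hu : ∀ i, P (u i)) :
    ∃ s s' : Matrix Z Z ℤ, s' * s = ((N : ℤ) ^ (2 * L.length)) • (1 : Matrix Z Z ℤ) ∧
      s * s' = ((N : ℤ) ^ (2 * L.length)) • (1 : Matrix Z Z ℤ) ∧ P s := by
  let G : Set (Matrix Z Z ℤ) := {x | (∃ i, x = u i) ∨ (∃ i, x = u' i) ∨ ∃ i, x = e i}
  have hG : ∀ x ∈ G, ∀ y ∈ G, x * y = y * x := by
    rintro x (⟨i, rfl⟩ | ⟨i, rfl⟩ | ⟨i, rfl⟩) y (⟨j, rfl⟩ | ⟨j, rfl⟩ | ⟨j, rfl⟩)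
    · exact c1 i j
    · exact c2 i j
    · exact c3 i j
    · exact (c2 j i).symm
    · exact c4 i j
    · exact c5 i j
    · exact (c3 j i).symm
    · exact (c5 j i).symm
    · exact c6 i j
  letI : CommRing (Subring.closure G) := Subring.closureCommRingOfComm hG
  let U : ι → Subring.closure G := fun i => ⟨u i, Subring.subset_closure (Or.inl ⟨i, rfl⟩)⟩
  let U' : ι → Subring.closure G := fun i =>
    ⟨u' i, Subring.subset_closure (Or.inr (Or.inl ⟨i, rfl⟩))⟩
  let E : ι → Subring.closure G := fun i =>
    ⟨e i, Subring.subset_closure (Or.inr (Or.inr ⟨i, rfl⟩))⟩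
  have hNe : ∀ x : Matrix Z Z ℤ, ((N : ℕ) : Matrix Z Z ℤ) * x = (N : ℤ) • x := by
    intro x
    rw [zsmul_eq_mul, Int.cast_natCast]
  have k1 : ∀ i, U' i * U i = (N : Subring.closure G) * E i := fun i =>
    Subtype.ext (by
      change u' i * u i = ((N : Subring.closure G) : Matrix Z Z ℤ) * e i
      rw [h1]; push_cast; exact (hNe _).symm)
  have k2 : ∀ i, E i * E i = (N : Subring.closure G) * E i := fun i =>
    Subtype.ext (by
      change e i * e i = ((N : Subring.closure G) : Matrix Z Z ℤ) * e i
      rw [h2]; push_cast; exact (hNe _).symm)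
  have k3 : ∀ i, U i * E i = (N : Subring.closure G) * U i := fun i =>
    Subtype.ext (by
      change u i * e i = ((N : Subring.closure G) : Matrix Z Z ℤ) * u i
      rw [h3]; push_cast; exact (hNe _).symm)
  have k4 : ∀ i, U' i * E i = (N : Subring.closure G) * U' i := fun i =>
    Subtype.ext (by
      change u' i * e i = ((N : Subring.closure G) : Matrix Z Z ℤ) * u' i
      rw [h4]; push_cast; exact (hNe _).symm)
  have hmul := glue_mul (N : Subring.closure G) U U' E k1 k2 k3 k4 L
  have hprod : (L.map fun i => (N : Subring.closure G) - E i).prod = 0 := by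
    refine Subtype.ext ?_
    ext z' z
    obtain ⟨i, hi, hz⟩ := hL z
    obtain ⟨x, hx⟩ : ((N : Subring.closure G) - E i) ∣
        (L.map fun i => (N : Subring.closure G) - E i).prod :=
      List.dvd_prod (List.mem_map.2 ⟨i, hi, rfl⟩)
    rw [hx, mul_comm]
    change (x.1 * (((N : Subring.closure G) : Matrix Z Z ℤ) - e i)) z' z = 0
    rw [Matrix.mul_apply]
    refine Finset.sum_eq_zero fun y _ => ?_
    have : ((((N : Subring.closure G) : Matrix Z Z ℤ)) - e i) y z = 0 := by
      push_cast
      rw [Matrix.sub_apply, hz y, Matrix.natCast_apply]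
      by_cases h : y = z <;> simp [h]
    rw [this, mul_zero]
  rw [hprod, mul_zero, sub_zero] at hmul
  let sU : Subring.closure G := glue (N : Subring.closure G) U E L
  let sU' : Subring.closure G := glue (N : Subring.closure G) U' E L
  have hmul' : sU'.1 * sU.1 = ((N : ℤ) ^ (2 * L.length)) • (1 : Matrix Z Z ℤ) := by
    have := congrArg Subtype.val hmul
    rw [zsmul_eq_mul, mul_one]
    push_cast
    simpa using this
  have hmul'' : sU.1 * sU'.1 = ((N : ℤ) ^ (2 * L.length)) • (1 : Matrix Z Z ℤ) := by
    rw [← hmul']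
    exact congrArg Subtype.val (mul_comm sU sU')
  refine ⟨_, _, hmul', hmul'', ?_⟩
  refine glue_closed (N : Subring.closure G) U E (fun x => P x.1) h0
    (fun x y hx hy => hadd _ _ hx hy) (fun x hx => ?_) (fun x hx => ?_)
    (fun i x hx => he i _ hx) (fun i => hu i) L
  · have := hsmul (-1) _ hx
    simpa using this
  · have := hsmul (N : ℤ) _ hx
    rw [← hNe] at this
    exact this

end matrix

end Pool.Agent.LWL
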