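import Pool.Agent.LWL.Weight

/-!
# Solvability quantifiers
-/

namespace Pool.Agent.LWL

open Finset Classical Pool.Agent.CoWL

variable {V W : Type} {K : ℕ}

/-- assignments related by an element of `S` -/
def RelS (S : Set (Finset (V × W))) (v : Fin K → V) (w : Fin K → W) : Prop := zp v w ∈ S

lemma ov_mem {m : ℕ} (I : Fin m ↪ Fin K) (u : Fin m → V) (u' : Fin m → W) (v : Fin K → V)
    (w : Fin K → W) (i : Fin K) :
    ((ov I u v) i, (ov I u' w) i) ∈ zp v w ∪ zp u u' := by
  unfold ov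
  rw [mem_union, mem_zp, mem_zp]
  by_cases h : ∃ l, I l = i
  · obtain ⟨l, rfl⟩ := h
    right
    exact ⟨l, by rw [I.injective.extend_apply, I.injective.extend_apply]⟩
  · left
    exact ⟨i, by rw [Function.extend_apply' _ _ _ h, Function.extend_apply' _ _ _ h]⟩

lemma zp_ov {m : ℕ} (I : Fin m ↪ Fin K) (u : Fin m → V) (u' : Fin m → W) (v : Fin K → V)
    (w : Fin K → W) : zp (ov I u v) (ov I u' w) ⊆ zp v w ∪ zp u u' := by
  intro p hp
  obtain ⟨i, rfl⟩ := mem_zp.1 hp
  exact ov_mem I u u' v w i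

lemma zp_ov2 {m n : ℕ} (I : Fin m ↪ Fin K) (J : Fin n ↪ Fin K) (u : Fin m → V) (u' : Fin m → W)
    (z : Fin n → V) (z' : Fin n → W) (v : Fin K → V) (w : Fin K → W) :
    zp (ov J z (ov I u v)) (ov J z' (ov I u' w)) ⊆ zp v w ∪ zp z z' ∪ zp u u' := by
  refine (zp_ov J z z' _ _).trans ?_
  intro p hp
  rw [mem_union] at hp
  rw [mem_union, mem_union]
  rcases hp with h | h
  · have := zp_ov I u u' v w h
    rw [mem_union] at this
    tauto
  · tauto

section

variable [Fintype V] [Fintype W]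

/-- the kernels of a family of weights -/
theorem kernels {k : ℕ} {S : Set (Finset (V × W))} {r : Finset (V × W) → ℤ} (hr : IsW k S r)
    {m n : ℕ} (s : Finset (V × W)) (hs : s.card + m + n ≤ k) :
    (∀ (z : Fin n → V) (z' : Fin n → W) (u' : Fin m → W),
      ∑ u : Fin m → V, r (s ∪ zp z z' ∪ zp u u') = r (s ∪ zp z z')) ∧
    (∀ (u : Fin m → V) (u' : Fin m → W) (z : Fin n → V),
      ∑ z' : Fin n → W, r (s ∪ zp z z' ∪ zp u u') = r (s ∪ zp u u')) ∧
    (∀ (z : Fin n → V) (z' : Fin n → W) (u : Fin m → V),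
      ∑ u' : Fin m → W, r (s ∪ zp z z' ∪ zp u u') = r (s ∪ zp z z')) ∧
    (∀ (u : Fin m → V) (u' : Fin m → W) (z' : Fin n → W),
      ∑ z : Fin n → V, r (s ∪ zp z z' ∪ zp u u') = r (s ∪ zp u u')) := by
  have e1 : ∀ (z : Fin n → V) (z' : Fin n → W), (s ∪ zp z z').card + m ≤ k := fun z z' => by
    have h1 := card_union_le s (zp z z')
    have h2 := card_zp z z'
    omega
  have e2 : ∀ (u : Fin m → V) (u' : Fin m → W), (s ∪ zp u u').card + n ≤ k := fun u u' => by
    have h1 := card_union_le s (zp u u')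
    have h2 := card_zp u u'
    omega
  refine ⟨fun z z' u' => ?_, fun u u' z => ?_, fun z z' u => ?_, fun u u' z' => ?_⟩
  · exact (hr.rsum m _ (e1 z z') u').symm
  · rw [hr.dsum n _ (e2 u u') z]
    exact Finset.sum_congr rfl fun z' _ => by rw [union_right_comm]
  · exact (hr.dsum m _ (e1 z z') u).symm
  · rw [hr.rsum n _ (e2 u u') z']
    exact Finset.sum_congr rfl fun z _ => by rw [union_right_comm]

/-- **Solvability quantifiers.** -/
theorem slvT {k : ℕ} (hk : 3 * K ≤ k) {S : Set (Finset (V × W))} (hS : PB S)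
    (hw : ∀ s ∈ S, ∃ r, IsW k S r ∧ r s = 1) : SlvT (RelS (K := K) S) := by
  intro v w hvw m n I J R _ A A' b b' hA hb
  obtain ⟨r, hr, hr1⟩ := hw _ hvw
  set s := zp v w with hs
  have hm : m ≤ K := by simpa using Fintype.card_le_of_embedding I
  have hn : n ≤ K := by simpa using Fintype.card_le_of_embedding J
  have hsc := card_zp v w
  rw [← hs] at hsc
  obtain ⟨k1, k2, k3, k4⟩ := kernels hr (m := m) (n := n) s (by omega)
  have hA' : ∀ (u : Fin m → V) (z : Fin n → V) (u' : Fin m → W) (z' : Fin n → W),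
      r (s ∪ zp z z' ∪ zp u u') ≠ 0 → A (ov J z (ov I u v)) = A' (ov J z' (ov I u' w)) := by
    intro u z u' z' h
    refine hA _ _ ?_
    by_contra hcon
    refine h (hr.supp _ fun hmem => hcon ?_)
    exact hS.down _ hmem _ (zp_ov2 I J u u' z z' v w)
  have hb' : ∀ (u : Fin m → V) (u' : Fin m → W), r (s ∪ zp u u') ≠ 0 →
      b (ov I u v) = b' (ov I u' w) := by
    intro u u' h
    refine hb _ _ ?_
    by_contra hcon
    refine h (hr.supp _ fun hmem => hcon ?_)
    exact hS.down _ hmem _ (zp_ov I u u' v w)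
  constructor
  · refine transport_sol (fun u z u' z' => r (s ∪ zp z z' ∪ zp u u'))
      (fun z z' => r (s ∪ zp z z')) (fun u u' => r (s ∪ zp u u')) k1 k2 ?_ _ _
      (fun u => b (ov I u v)) (fun u => b' (ov I u w)) hA' hb'
    intro u'
    rw [← hr.rsum m s (by omega) u', hr1]
  · refine transport_sol (fun u' z' u z => r (s ∪ zp z z' ∪ zp u u'))
      (fun z' z => r (s ∪ zp z z')) (fun u' u => r (s ∪ zp u u')) ?_ ?_ ?_ _ _
      (fun u => b' (ov I u w)) (fun u => b (ov I u v)) ?_ ?_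
    · intro z' z u; exact k3 z z' u
    · intro u' u z'; exact k4 u u' z'
    · intro u
      rw [← hr.dsum m s (by omega) u, hr1]
    · intro u' z' u z h
      exact (hA' u z u' z' h).symm
    · intro u' u h
      exact (hb' u u' h).symm

/-- counting quantifiers -/
theorem cntT {k : ℕ} (hk : K < k) {S : Set (Finset (V × W))} (hS : PB S)
    (hf : ∀ s ∈ S, s.card < k → ∃ f : V ≃ W, ∀ v, insert (v, f v) s ∈ S) :
    CntT (RelS (K := K) S) := by
  intro v w hvw i
  obtain ⟨f, hf⟩ := hf _ hvw (lt_of_le_of_lt (card_zp v w) hk)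
  refine ⟨f, fun x => hS.down _ (hf x) _ ?_⟩
  intro p hp
  obtain ⟨j, rfl⟩ := mem_zp.1 hp
  rw [mem_insert]
  by_cases hj : j = i
  · subst hj; left; simp
  · right
    rw [Function.update_of_ne hj, Function.update_of_ne hj]
    exact mem_zp.2 ⟨j, rfl⟩

/-- atomic formulas -/
theorem atT {G : SimpleGraph V} {H : SimpleGraph W} {S : Set (Finset (V × W))}
    (hS : ∀ s ∈ S, IsPIso G H s) : AtT G H (RelS (K := K) S) := by
  intro v w hvw i j
  exact hS _ hvw _ (mem_zp.2 ⟨i, rfl⟩) _ (mem_zp.2 ⟨j, rfl⟩)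

end

end Pool.Agent.LWL
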