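import Pool.Agent.LWL.Rec
import Pool.Agent.LWL.Solv
import Pool.Agent.CoWL.SysExt

/-!
# Torsor frames and the operators attached to them
-/

namespace Pool.Agent.LWL

open Finset Classical Pool.Agent.CoWL

variable {V W : Type}

/-- A torsor frame for the element `s₀` of `S`: a commutative group `𝓐` acts on `V`, and the elements
of `S` above `s₀` contain, locally, the translates of a bijection `F₀` by cosets of a subgroup `T`. -/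
structure TF (k : ℕ) (S : Set (Finset (V × W))) (s₀ : Finset (V × W)) (𝓐 : Type)
    [AddCommGroup 𝓐] where
  τ : 𝓐 → V → V
  τ_zero : ∀ v, τ 0 v = v
  τ_add : ∀ a b v, τ (a + b) v = τ a (τ b v)
  F₀ : V ≃ W
  T : AddSubgroup 𝓐
  Y : Finset V → Set 𝓐
  ne : ∀ C : Finset V, C.card ≤ k → (Y C).Nonempty
  aff : ∀ C f₁ f₂ f₃, f₁ ∈ Y C → f₂ ∈ Y C → f₃ ∈ Y C → f₁ + (f₂ - f₃) ∈ Y C
  anti : ∀ C' C : Finset V, C' ⊆ C → Y C ⊆ Y C'
  tors : ∀ C f, f ∈ Y C → ∀ t ∈ T, f + t ∈ Y C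
  tors' : ∀ C f f', f ∈ Y C → f' ∈ Y C → ∃ t ∈ T, ∀ v ∈ C, τ f' v = τ (f + t) v
  idx : ∀ (C D : Finset V) (a : 𝓐), Y (C ∪ D.image (τ a)) = Y (C ∪ D)
  mem : ∀ (C : Finset V) f, C.card ≤ k → f ∈ Y C → s₀ ∪ graphOn C (fun v => F₀ (τ f v)) ∈ S

namespace TF

variable {k : ℕ} {S : Set (Finset (V × W))} {s₀ : Finset (V × W)} {𝓐 : Type} [AddCommGroup 𝓐]
  (Fr : TF k S s₀ 𝓐)

lemma τ_comm (a b : 𝓐) (v : V) : Fr.τ a (Fr.τ b v) = Fr.τ b (Fr.τ a v) := by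
  rw [← Fr.τ_add, ← Fr.τ_add, add_comm]

lemma τ_neg (a : 𝓐) (v : V) : Fr.τ (-a) (Fr.τ a v) = v := by
  rw [← Fr.τ_add, neg_add_cancel, Fr.τ_zero]

lemma τ_neg' (a : 𝓐) (v : V) : Fr.τ a (Fr.τ (-a) v) = v := by
  rw [← Fr.τ_add, add_neg_cancel, Fr.τ_zero]

lemma τ_inj {a : 𝓐} {v v' : V} (h : Fr.τ a v = Fr.τ a v') : v = v' := by
  rw [← Fr.τ_neg a v, h, Fr.τ_neg]

/-- the action on tuples -/
def tt {m : ℕ} (a : 𝓐) (z : Fin m → V) : Fin m → V := fun i => Fr.τ a (z i)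

lemma tt_add {m : ℕ} (a b : 𝓐) (z : Fin m → V) : Fr.tt (a + b) z = Fr.tt a (Fr.tt b z) :=
  funext fun i => Fr.τ_add a b (z i)

lemma tt_zero {m : ℕ} (z : Fin m → V) : Fr.tt 0 z = z := funext fun i => Fr.τ_zero (z i)

lemma tt_inj {m : ℕ} {a : 𝓐} {z z' : Fin m → V} (h : Fr.tt a z = Fr.tt a z') : z = z' :=
  funext fun i => Fr.τ_inj (congrFun h i)

lemma tt_eq_iff {m : ℕ} {a : 𝓐} {z z' : Fin m → V} : Fr.tt a z = z' ↔ z = Fr.tt (-a) z' := by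
  constructor
  · rintro rfl
    rw [← tt_add, neg_add_cancel, tt_zero]
  · rintro rfl
    rw [← tt_add, add_neg_cancel, tt_zero]

/-- the set of entries of a tuple -/
noncomputable def rg {V : Type} {m : ℕ} (z : Fin m → V) : Finset V := univ.image z

lemma card_rg {V : Type} {m : ℕ} (z : Fin m → V) : (rg z).card ≤ m := by
  refine card_image_le.trans ?_
  simp

lemma mem_rg {V : Type} {m : ℕ} (z : Fin m → V) (i : Fin m) : z i ∈ rg z :=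
  mem_image_of_mem _ (mem_univ i)

lemma rg_tt {m : ℕ} (a : 𝓐) (z : Fin m → V) : rg (Fr.tt a z) = (rg z).image (Fr.τ a) := by
  unfold rg
  rw [image_image]
  rfl

section fin

variable [Fintype 𝓐]

/-- the pinned family -/
noncomputable def YP (C : Finset V) (w : 𝓐) (D : Finset V) : Finset 𝓐 :=
  univ.filter fun f => f ∈ Fr.Y (C ∪ D) ∧ ∀ v ∈ C, Fr.τ f v = Fr.τ w v

/-- the stabiliser -/
noncomputable def TC (C : Finset V) : Finset 𝓐 :=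
  univ.filter fun t => t ∈ Fr.T ∧ ∀ v ∈ C, Fr.τ t v = v

lemma mem_YP {C : Finset V} {w : 𝓐} {D : Finset V} {f : 𝓐} :
    f ∈ Fr.YP C w D ↔ f ∈ Fr.Y (C ∪ D) ∧ ∀ v ∈ C, Fr.τ f v = Fr.τ w v := by
  simp [YP]

lemma mem_TC {C : Finset V} {t : 𝓐} : t ∈ Fr.TC C ↔ t ∈ Fr.T ∧ ∀ v ∈ C, Fr.τ t v = v := by
  simp [TC]

lemma TC_zero (C : Finset V) : (0 : 𝓐) ∈ Fr.TC C :=
  Fr.mem_TC.2 ⟨Fr.T.zero_mem, fun v _ => Fr.τ_zero v⟩

lemma TC_add {C : Finset V} {s t : 𝓐} (hs : s ∈ Fr.TC C) (ht : t ∈ Fr.TC C) :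
    s + t ∈ Fr.TC C := by
  rw [mem_TC] at hs ht ⊢
  refine ⟨Fr.T.add_mem hs.1 ht.1, fun v hv => ?_⟩
  rw [Fr.τ_add, ht.2 v hv, hs.2 v hv]

lemma TC_neg {C : Finset V} {t : 𝓐} (ht : t ∈ Fr.TC C) : -t ∈ Fr.TC C := by
  rw [mem_TC] at ht ⊢
  refine ⟨Fr.T.neg_mem ht.1, fun v hv => ?_⟩
  have h := Fr.τ_neg t v
  rwa [ht.2 v hv] at h

lemma TC_aff (C : Finset V) : Aff (Fr.TC C) := by
  intro f₁ f₂ f₃ h₁ h₂ h₃
  rw [sub_eq_add_neg]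
  exact Fr.TC_add h₁ (Fr.TC_add h₂ (Fr.TC_neg h₃))

lemma YP_add {C : Finset V} {w : 𝓐} {D : Finset V} {f t : 𝓐} (hf : f ∈ Fr.YP C w D)
    (ht : t ∈ Fr.TC C) : f + t ∈ Fr.YP C w D := by
  rw [mem_YP] at hf ⊢
  rw [mem_TC] at ht
  refine ⟨Fr.tors _ _ hf.1 _ ht.1, fun v hv => ?_⟩
  rw [Fr.τ_add, ht.2 v hv, hf.2 v hv]

lemma YP_aff (C : Finset V) (w : 𝓐) (D : Finset V) : Aff (Fr.YP C w D) := by
  intro f₁ f₂ f₃ h₁ h₂ h₃
  rw [mem_YP] at h₁ h₂ h₃ ⊢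
  refine ⟨Fr.aff _ _ _ _ h₁.1 h₂.1 h₃.1, fun v hv => ?_⟩
  have e1 : Fr.τ (f₂ - f₃) v = v := by
    rw [sub_eq_add_neg, add_comm, Fr.τ_add, h₂.2 v hv, ← h₃.2 v hv, Fr.τ_neg]
  rw [Fr.τ_add, e1, h₁.2 v hv]

lemma YP_anti {C : Finset V} {w : 𝓐} {D D' : Finset V} (h : D' ⊆ D) :
    Fr.YP C w D ⊆ Fr.YP C w D' := by
  intro f hf
  rw [mem_YP] at hf ⊢
  exact ⟨Fr.anti _ _ (union_subset_union subset_rfl h) hf.1, hf.2⟩

lemma YP_ne {C : Finset V} {w : 𝓐} (hw : w ∈ Fr.Y C) {D : Finset V} (hD : (C ∪ D).card ≤ k) :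
    (Fr.YP C w D).Nonempty := by
  obtain ⟨f₁, hf₁⟩ := Fr.ne _ hD
  obtain ⟨t, ht, h⟩ := Fr.tors' C f₁ w (Fr.anti _ _ subset_union_left hf₁) hw
  exact ⟨f₁ + t, Fr.mem_YP.2 ⟨Fr.tors _ _ hf₁ _ ht, fun v hv => (h v hv).symm⟩⟩

lemma YP_idx (C : Finset V) (w : 𝓐) (D D' : Finset V) (a : 𝓐) :
    Fr.YP C w (D ∪ D'.image (Fr.τ a)) = Fr.YP C w (D ∪ D') := by
  ext f
  rw [mem_YP, mem_YP, ← union_assoc, ← union_assoc, Fr.idx]

lemma YP_idx' (C : Finset V) (w : 𝓐) (D : Finset V) (a : 𝓐) :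
    Fr.YP C w (D.image (Fr.τ a)) = Fr.YP C w D := by
  have h := Fr.YP_idx C w ∅ D a
  rwa [empty_union, empty_union] at h

/-- proportional fibres -/
lemma YP_prop {C : Finset V} {w : 𝓐} (hw : w ∈ Fr.Y C) {D D' : Finset V} (hD' : D' ⊆ D)
    (hD : (C ∪ D).card ≤ k) {m : ℕ} {z : Fin m → V} (hz : rg z ⊆ D') (t : Fin m → V) :
    ((Fintype.card 𝓐 / (Fr.YP C w D).card : ℕ) : ℤ) *
      fibc (Fr.YP C w D) (fun f => Fr.tt f z) t =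
    ((Fintype.card 𝓐 / (Fr.YP C w D').card : ℕ) : ℤ) *
      fibc (Fr.YP C w D') (fun f => Fr.tt f z) t := by
  have hne := Fr.YP_ne hw hD
  have hD'' : (C ∪ D').card ≤ k :=
    (card_le_card (union_subset_union subset_rfl hD')).trans hD
  have hne' := Fr.YP_ne hw hD''
  have h1 := fibre_prop (Fr.YP_aff C w D') (Fr.YP_aff C w D) (fun f => Fr.tt f z)
    (fun f f' d h => by
      rw [add_comm f d, add_comm f' d, Fr.tt_add, Fr.tt_add, h])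
    (fun f hf => by
      obtain ⟨f₁, hf₁⟩ := hne
      have hf₁' := Fr.YP_anti hD' hf₁
      rw [mem_YP] at hf₁ hf₁' hf
      obtain ⟨t, ht, h⟩ := Fr.tors' _ f₁ f hf₁'.1 hf.1
      refine ⟨f₁ + t, Fr.mem_YP.2 ⟨Fr.tors _ _ hf₁.1 _ ht, fun v hv => ?_⟩, ?_⟩
      · rw [← h v (mem_union_left _ hv), hf.2 v hv]
      · funext i
        exact (h _ (mem_union_right _ (hz (mem_rg z i)))).symm)
    (fun f hf => ⟨f, Fr.YP_anti hD' hf, rfl⟩) t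
  obtain ⟨c, hc⟩ := Aff.dvd (Fr.YP_aff C w D) hne
  obtain ⟨c', hc'⟩ := Aff.dvd (Fr.YP_aff C w D') hne'
  have p1 := Finset.card_pos.2 hne
  have p2 := Finset.card_pos.2 hne'
  have e1 : Fintype.card 𝓐 / (Fr.YP C w D).card = c := by
    rw [hc, Nat.mul_div_cancel_left _ p1]
  have e2 : Fintype.card 𝓐 / (Fr.YP C w D').card = c' := by
    rw [hc', Nat.mul_div_cancel_left _ p2]
  rw [e1, e2]
  have h2 : (Fr.YP C w D).card * c = (Fr.YP C w D').card * c' := by rw [← hc, ← hc']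
  have h3 : ((Fr.YP C w D).card * (Fr.YP C w D').card) *
      (c * fibc (Fr.YP C w D) (fun f => Fr.tt f z) t) =
      ((Fr.YP C w D).card * (Fr.YP C w D').card) *
      (c' * fibc (Fr.YP C w D') (fun f => Fr.tt f z) t) := by
    calc _ = ((Fr.YP C w D).card * c) *
          (fibc (Fr.YP C w D) (fun f => Fr.tt f z) t * (Fr.YP C w D').card) := by ring
      _ = ((Fr.YP C w D').card * c') *
          (fibc (Fr.YP C w D') (fun f => Fr.tt f z) t * (Fr.YP C w D).card) := by rw [h2, h1]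
      _ = _ := by ring
  exact_mod_cast Nat.eq_of_mul_eq_mul_left (Nat.mul_pos p1 p2) h3

end fin

end TF

end Pool.Agent.LWL
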