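import Pool.Agent.LWL.PF
import Pool.Agent.LWL.Tors

/-!
# Torsor frames for the gadget graphs
-/

namespace Pool.Agent.LWL

open Finset Classical Pool.Agent.CoWL

variable {V : Type} {N : ℕ}

lemma union_ext {α : Type} {_ : DecidableEq α} {s t u : Finset α}
    (h : ∀ p, p ∈ s ∨ p ∈ t ↔ p ∈ u) : s ∪ t = u := by
  ext p
  rw [mem_union, h]

lemma hat_comp (φ ψ : V ≃ V) (w : GV V N) : hat N φ (hat N ψ w) = hat N (ψ.trans φ) w := by
  rcases w with ⟨p | ⟨⟨p, q, r⟩, l⟩, o⟩ <;> simp [hat, mapT]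

lemma hat_refl (w : GV V N) : hat N (Equiv.refl V) w = w := by
  rcases w with ⟨p | ⟨⟨p, q, r⟩, l⟩, o⟩ <;> simp [hat, mapT]

lemma hat_congr' {φ φ' : V ≃ V} {w : GV V N} (h : ∀ q ∈ supp w, φ q = φ' q) :
    hat N φ w = hat N φ' w := (hat_eq_iff w).2 h

lemma supp_hat_eq (φ : V ≃ V) (w : GV V N) : supp (hat N φ w) = (supp w).image φ := by
  rcases w with ⟨p | ⟨⟨p, q, r⟩, l⟩, o⟩
  · simp [supp, hat]
  · simp [supp, hat, mapT, image_insert]

lemma suppS_image (φ : V ≃ V) (C : Finset (GV V N)) [DecidableEq (GV V N)] :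
    suppS (C.image (hat N φ)) = (suppS C).image φ := by
  ext v
  simp only [suppS, mem_biUnion, mem_image]
  constructor
  · rintro ⟨w, ⟨w', hw', rfl⟩, hv⟩
    rw [supp_hat_eq, mem_image] at hv
    obtain ⟨p, hp, rfl⟩ := hv
    exact ⟨p, ⟨w', hw', hp⟩, rfl⟩
  · rintro ⟨p, ⟨w, hw, hp⟩, rfl⟩
    exact ⟨hat N φ w, ⟨w, hw, rfl⟩, by rw [supp_hat_eq]; exact mem_image_of_mem _ hp⟩

lemma suppS_union (C D : Finset (GV V N)) [DecidableEq (GV V N)] :
    suppS (C ∪ D) = suppS C ∪ suppS D := by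
  ext v
  simp only [suppS, mem_biUnion, mem_union]
  constructor
  · rintro ⟨w, hw | hw, hv⟩
    · exact Or.inl ⟨w, hw, hv⟩
    · exact Or.inr ⟨w, hw, hv⟩
  · rintro (⟨w, hw, hv⟩ | ⟨w, hw, hv⟩)
    · exact ⟨w, Or.inl hw, hv⟩
    · exact ⟨w, Or.inr hw, hv⟩

lemma supp_sub_suppS {C : Finset (GV V N)} {w : GV V N} (hw : w ∈ C) : supp w ⊆ suppS C := by
  unfold suppS
  exact Finset.subset_biUnion_of_mem supp hw

/-- a torsor frame for the points gives a torsor frame for the gadget graphs -/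
theorem tf_of_pf {κA κB : V → V → V → Fin N} {K k kk n : ℕ} (M : Sys κA κB K)
    {C₀ : Finset (GV V N)} {g₀ : M.Gd} {𝓐 : Type} [AddCommGroup 𝓐]
    (Fr : PF n M.φ M.Good (suppS C₀) g₀ 𝓐) (hn : 3 * kk ≤ n) (hk : C₀.card + kk ≤ k) :
    Nonempty (TF kk (M.S k) (graphOn C₀ (hat N (M.φ g₀))) 𝓐) := by
  have hτ : ∀ a b, (Fr.τ b).trans (Fr.τ a) = Fr.τ (a + b) := fun a b =>
    Equiv.ext fun p => (Fr.τ_add a b p).symm
  have h0 : Fr.τ 0 = Equiv.refl V := Equiv.ext fun p => Fr.τ_zero p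
  refine ⟨{ τ := fun a => hat N (Fr.τ a)
            τ_zero := fun v => by rw [h0, hat_refl]
            τ_add := fun a b v => by rw [hat_comp, hτ]
            F₀ := hat N Fr.F₀
            T := Fr.T
            Y := fun C => Fr.Y (suppS C)
            ne := fun C hC => Fr.ne _ ((card_suppS C).trans
              ((Nat.mul_le_mul_left 3 hC).trans hn))
            aff := fun C f₁ f₂ f₃ h₁ h₂ h₃ => Fr.aff _ _ _ _ h₁ h₂ h₃
            anti := fun C' C h => Fr.anti _ _ (suppS_mono h)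
            tors := fun C f hf t ht => Fr.tors _ f hf t ht
            tors' := fun C f f' hf hf' => ?_
            idx := fun C D a => ?_
            mem := fun C f hC hf => ?_ }⟩
  · obtain ⟨t, ht, h⟩ := Fr.tors' _ f f' hf hf'
    exact ⟨t, ht, fun v hv => hat_congr' fun q hq => h q (supp_sub_suppS hv hq)⟩
  · rw [suppS_union, suppS_union, suppS_image, Fr.idx]
  · obtain ⟨h1, h2⟩ := Fr.good _ f hf
    refine ⟨C₀ ∪ C, Fr.Ψ f, (card_union_le _ _).trans (by omega), by rw [suppS_union]; exact h1,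
      ?_⟩
    have e1 : ∀ v, hat N Fr.F₀ (hat N (Fr.τ f) v) = hat N (M.φ (Fr.Ψ f)) v := by
      intro v
      rw [hat_comp]
      refine hat_congr' fun q _ => ?_
      rw [Fr.hF]; rfl
    refine union_ext fun p => ?_
    rw [mem_graphOn, mem_graphOn, mem_graphOn, mem_union]
    beta_reduce
    rw [e1]
    have e2 : p.1 ∈ C₀ → hat N (M.φ (Fr.Ψ f)) p.1 = hat N (M.φ g₀) p.1 := fun hp =>
      hat_congr' fun q hq => h2 q (supp_sub_suppS hp hq)
    constructor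
    · rintro (⟨h3, h4⟩ | ⟨h3, h4⟩)
      · exact ⟨Or.inl h3, by rw [h4, e2 h3]⟩
      · exact ⟨Or.inr h3, h4⟩
    · rintro ⟨h3 | h3, h4⟩
      · exact Or.inl ⟨h3, by rw [h4, e2 h3]⟩
      · exact Or.inr ⟨h3, h4⟩

end Pool.Agent.LWL
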