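import Pool.Agent.LWL.QBF
import Pool.Agent.LWL.AutG
import Pool.Agent.CoWL.Main

/-!
# Automorphisms preserve the types

PROOF. `s = graphOn C (hat (phi g₀))` with `g₀` good for `suppS C` (`C = dom s`). `forth_tuple` (with
`sys_forth`) for `s` and `z`, then for `u`: there are `z'`, `u'` with `s ∪ zp z z' ∪ zp u u' ∈ S`, so
`t u z = t' u' z'`. This set is `graphOn C₂ (hat (phi g))`, `C₂ = C ∪ range z ∪ range u`, `g` good for
`suppS C₂`, `phi g = phi g₀` on `suppS C`. By `Good.comp` (for `g` and the inverse data of `h`; `Ex.inv`,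
`phi_inv`) the data `g.mul h.inv` are good for the image of `suppS C₂` under `phi h`, which contains
`suppS` of `C ∪ range (ĥ z) ∪ range (ĥ u)` (`ĥ = hat (phi h)`; `phi h` fixes `suppS C` pointwise), and
`phi (g.mul h.inv) (phi h p) = phi g p`. So `s ∪ zp (ĥ z) z' ∪ zp (ĥ u) u' ∈ S`, hence
`t (ĥ u) (ĥ z) = t' u' z'`.
(`SysForth.lean`, `SysCohom.lean`, `SysExt.lean` have lemmas on `hat`, `supp`, `suppS`, `graphOn`:
`hat_eq_iff`, `graphOn_hat_iff`, `suppS_hat_symm`, `mem_graphOn`.)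
-/

namespace Pool.Agent.CoWL

open Finset Classical Pool.Agent.LWL

variable {a : ℕ}

lemma base_stable {ch ch' : E a → ZMod 2} (hch : ∑ i, ch i + ∑ i, ch' i = 1) {k : ℕ}
    (ha : 5 * 4 ^ (2 * (3 * k)) < 2 * a) :
    Stable k (Gr (kap ch)) (Gr (kap ch')) ((baseSys ch ch' hch ha).S k) := by
  have hch' : ∑ i, ch' i + ∑ i, ch i = 1 := by rw [add_comm]; exact hch
  exact sys_stable (baseSys ch ch' hch ha) (baseSys ch' ch hch' ha)
    (fun D g hg => ⟨Gd.inv g, hg.inv, phi_inv g⟩) (fun D g hg => ⟨Gd.inv g, hg.inv, phi_inv g⟩)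

private lemma hat_comp' {V : Type} {N : ℕ} (φ ψ : V ≃ V) (w : GV V N) :
    hat N φ (hat N ψ w) = hat N (ψ.trans φ) w := by
  rcases w with ⟨p | ⟨⟨p, q, r⟩, l⟩, o⟩ <;> simp [hat, mapT]

private lemma hat_fix {V : Type} {N : ℕ} {φ : V ≃ V} {w : GV V N} (h : ∀ q ∈ supp w, φ q = q) :
    hat N φ w = w := by
  rcases w with ⟨p | ⟨⟨p, q, r⟩, l⟩, o⟩
  · have h1 : φ p = p := h p (by simp [supp])
    simp [hat, h1]
  · have h1 : φ p = p := h p (by simp [supp])
    have h2 : φ q = q := h q (by simp [supp])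
    have h3 : φ r = r := h r (by simp [supp])
    simp [hat, mapT, h1, h2, h3]

private lemma card_un {V W : Type} {n : ℕ} (s : Finset (V × W)) (z : Fin n → V) (z' : Fin n → W) :
    (s ∪ zp z z').card ≤ s.card + n :=
  (card_union_le _ _).trans (Nat.add_le_add_left (card_zp z z') _)

private lemma mem_u2 {V W : Type} {m n : ℕ} {s : Finset (V × W)} {z : Fin n → V} {z' : Fin n → W}
    {u : Fin m → V} {u' : Fin m → W} {p : V × W} :
    p ∈ s ∪ zp z z' ∪ zp u u' ↔ (p ∈ s ∨ ∃ i, (z i, z' i) = p) ∨ ∃ i, (u i, u' i) = p := by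
  rw [mem_union, mem_union, mem_zp, mem_zp]

private lemma mem_u2' {V W : Type} {m n : ℕ} {s : Finset (V × W)} (e : V ≃ V)
    (he : ∀ v ∈ dom s, e v = v) {z : Fin n → V} {z' : Fin n → W}
    {u : Fin m → V} {u' : Fin m → W} {p : V × W} :
    p ∈ s ∪ zp (fun i => e (z i)) z' ∪ zp (fun i => e (u i)) u' ↔
      (e.symm p.1, p.2) ∈ s ∪ zp z z' ∪ zp u u' := by
  rw [mem_u2, mem_u2]
  have h1 : p ∈ s ↔ (e.symm p.1, p.2) ∈ s := by
    constructor
    · intro h
      have h2 := he p.1 (mem_dom.2 ⟨p.2, h⟩)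
      have h3 : e.symm p.1 = p.1 := by rw [Equiv.symm_apply_eq, h2]
      rw [h3]; exact h
    · intro h
      have h2 := he _ (mem_dom.2 ⟨p.2, h⟩)
      rw [Equiv.apply_symm_apply] at h2
      rw [← h2] at h
      exact h
  have h2 : ∀ {n : ℕ} (z : Fin n → V) (z' : Fin n → W),
      (∃ i, (e (z i), z' i) = p) ↔ ∃ i, (z i, z' i) = (e.symm p.1, p.2) := by
    intro n z z'
    refine exists_congr fun i => ?_
    rw [Prod.ext_iff, Prod.ext_iff]
    refine and_congr ?_ Iff.rfl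
    exact (Equiv.eq_symm_apply e).symm
  rw [h1, h2, h2]

theorem t_inv {ch ch' : E a → ZMod 2} (hch : ∑ i, ch i + ∑ i, ch' i = 1) {k : ℕ}
    (ha : 5 * 4 ^ (2 * (3 * k)) < 2 * a)
    {s : Finset (GV (Pt a) NC × GV (Pt a) NC)} (hs : s ∈ (baseSys ch ch' hch ha).S k) {m : ℕ}
    (hk : s.card + 2 * m ≤ k) {τ : Type} {t t' : (Fin m → GV (Pt a) NC) →
      (Fin m → GV (Pt a) NC) → τ} (hC : Cp ((baseSys ch ch' hch ha).S k) s t t') {h : Gd a}
    (hh : Ex ch ch h) (hfix : ∀ p ∈ suppS (dom s), phi h p = p) (u z : Fin m → GV (Pt a) NC) :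
    t (fun i => hat NC (phi h) (u i)) (fun i => hat NC (phi h) (z i)) = t u z := by
  have hst := base_stable hch ha
  obtain ⟨F, hF⟩ := forth_tuple hst.forth m s hs (by omega)
  have h1 := hF z
  obtain ⟨F', hF'⟩ := forth_tuple hst.forth m _ h1
    ((Nat.add_le_add_right (card_un s z (F z)) m).trans (by omega))
  have h2 := hF' u
  rw [hC u z _ _ h2]
  refine hC _ _ _ _ ?_
  obtain ⟨C₂, g, hC₂, hg, hE⟩ := h2
  have hfix' : ∀ v ∈ dom s, hat NC (phi h) v = v := by
    intro v hv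
    refine hat_fix fun q hq => hfix q ?_
    unfold suppS
    exact Finset.mem_biUnion.2 ⟨v, hv, hq⟩
  refine ⟨C₂.map (hat NC (phi h)).toEmbedding, g.mul h.inv, by rw [card_map]; exact hC₂, ?_, ?_⟩
  · have e1 : suppS (C₂.map (hat NC (phi h)).toEmbedding) =
        (suppS C₂).map (phi h).toEmbedding := suppS_hat_symm C₂ (phi h).symm
    have e2 := Good.comp hg hh.inv
    rw [phi_inv h, Equiv.symm_symm] at e2
    rw [e1]
    exact e2
  · ext p
    rw [mem_u2' (hat NC (phi h)) hfix', hE, mem_graphOn, mem_graphOn, mem_map_equiv]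
    refine and_congr Iff.rfl ?_
    have e3 : hat NC ((baseSys ch ch' hch ha).φ (g.mul h.inv)) p.1 =
        hat NC ((baseSys ch ch' hch ha).φ g) ((hat NC (phi h)).symm p.1) := by
      have e4 : (hat NC (phi h)).symm p.1 = hat NC (phi h).symm p.1 := rfl
      rw [e4, hat_comp']
      refine (hat_eq_iff p.1).2 fun q _ => ?_
      change phi (g.mul h.inv) q = phi g ((phi h).symm q)
      rw [phi_mul, phi_inv h]
    rw [e3]

end Pool.Agent.CoWL
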