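import Pool.Agent.LWL.Induct
import Pool.Agent.CoWL.Coh

/-!
# Integral weights and intertwining

Integral families that are compatible with restriction on both sides transport solutions of
definable linear systems.
-/

namespace Pool.Agent.LWL

open Finset Classical Pool.Agent.CoWL

variable {V W : Type}

/-- the graph of the map `z ↦ z'` -/
noncomputable def zp {n : ℕ} (z : Fin n → V) (z' : Fin n → W) : Finset (V × W) :=
  univ.image fun i => (z i, z' i)

lemma mem_zp {n : ℕ} {z : Fin n → V} {z' : Fin n → W} {p : V × W} :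
    p ∈ zp z z' ↔ ∃ i, (z i, z' i) = p := by simp [zp]

lemma card_zp {n : ℕ} (z : Fin n → V) (z' : Fin n → W) : (zp z z').card ≤ n := by
  refine card_image_le.trans ?_
  simp

lemma zp_succ {n : ℕ} (z : Fin (n + 1) → V) (z' : Fin (n + 1) → W) :
    zp z z' = insert (z 0, z' 0) (zp (Fin.tail z) (Fin.tail z')) := by
  ext p
  rw [mem_insert, mem_zp, mem_zp, Fin.exists_fin_succ, eq_comm (a := p)]
  rfl

/-- weights of level `k` supported on `S` -/
structure IsW [Fintype V] [Fintype W] (k : ℕ) (S : Set (Finset (V × W)))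
    (r : Finset (V × W) → ℤ) : Prop where
  supp : ∀ t, t ∉ S → r t = 0
  dext : ∀ t, t.card < k → ∀ v, r t = ∑ w, r (insert (v, w) t)
  rext : ∀ t, t.card < k → ∀ w, r t = ∑ v, r (insert (v, w) t)

/-- `S` consists of partial bijections and is closed under restriction -/
structure PB (S : Set (Finset (V × W))) : Prop where
  inj : ∀ s ∈ S, ∀ p ∈ s, ∀ q ∈ s, p.1 = q.1 ↔ p.2 = q.2
  down : ∀ s ∈ S, ∀ t ⊆ s, t ∈ S

lemma card_dom_le (t : Finset (V × W)) : (dom t).card ≤ t.card := card_image_le
lemma card_rng_le (t : Finset (V × W)) : (rng t).card ≤ t.card := card_image_le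

lemma mem_dom {t : Finset (V × W)} {v : V} : v ∈ dom t ↔ ∃ w, (v, w) ∈ t := by
  simp [dom]

lemma mem_rng {t : Finset (V × W)} {w : W} : w ∈ rng t ↔ ∃ v, (v, w) ∈ t := by
  simp [rng]

/-- two-sided integral extendability gives weights -/
theorem isW_of_ext [Fintype V] [Fintype W] {k : ℕ} {S : Set (Finset (V × W))} (hS : PB S)
    {r : Finset (V × W) → ℤ} (h0 : ∀ t, t ∉ S → r t = 0)
    (h1 : ∀ C D : Finset V, C ⊆ D → D.card ≤ k → ∀ t, dom t = C →
      r t = ∑ u with dom u = D ∧ t ⊆ u, r u)
    (h2 : ∀ C D : Finset W, C ⊆ D → D.card ≤ k → ∀ t, rng t = C →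
      r t = ∑ u with rng u = D ∧ t ⊆ u, r u) : IsW k S r := by
  refine ⟨h0, fun t ht v => ?_, fun t ht w => ?_⟩
  · by_cases htS : t ∈ S
    swap
    · rw [h0 t htS]
      symm
      refine Finset.sum_eq_zero fun w _ => h0 _ fun h => htS (hS.down _ h _ (subset_insert _ _))
    by_cases hv : v ∈ dom t
    · obtain ⟨w₀, hw₀⟩ := mem_dom.1 hv
      rw [Finset.sum_eq_single w₀]
      · rw [insert_eq_of_mem hw₀]
      · intro w _ hw
        refine h0 _ fun h => hw ?_
        exact (hS.inj _ h (v, w) (mem_insert_self _ _) (v, w₀) (mem_insert_of_mem hw₀)).1 rfl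
      · intro h; exact absurd (mem_univ _) h
    · rw [h1 (dom t) (insert v (dom t)) (subset_insert _ _) ?_ t rfl]
      swap
      · rw [card_insert_of_notMem hv]
        exact lt_of_le_of_lt (card_dom_le t) ht
      have hinj : ∀ w ∈ (univ : Finset W), ∀ w' ∈ (univ : Finset W),
          insert (v, w) t = insert (v, w') t → w = w' := by
        intro w _ w' _ h
        have h3 : (v, w) ∈ insert (v, w') t := h ▸ mem_insert_self _ _
        rcases mem_insert.1 h3 with h4 | h4
        · exact (Prod.ext_iff.1 h4).2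
        · exact absurd (mem_dom.2 ⟨w, h4⟩) hv
      rw [← Finset.sum_image (f := r) (g := fun w => insert (v, w) t) hinj]
      symm
      refine Finset.sum_subset ?_ ?_
      · intro u hu
        obtain ⟨w, -, rfl⟩ := mem_image.1 hu
        rw [mem_filter]
        refine ⟨mem_univ _, ?_, subset_insert _ _⟩
        ext v'
        rw [mem_dom, mem_insert, mem_dom]
        constructor
        · rintro ⟨w', hw'⟩
          rcases mem_insert.1 hw' with h | h
          · exact Or.inl (Prod.ext_iff.1 h).1
          · exact Or.inr ⟨w', h⟩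
        · rintro (rfl | ⟨w', h⟩)
          · exact ⟨w, mem_insert_self _ _⟩
          · exact ⟨w', mem_insert_of_mem h⟩
      · intro u hu hu'
        rw [mem_filter] at hu
        refine h0 u fun huS => hu' ?_
        have hvu : v ∈ dom u := by rw [hu.2.1]; exact mem_insert_self _ _
        obtain ⟨w, hw⟩ := mem_dom.1 hvu
        refine mem_image.2 ⟨w, mem_univ _, ?_⟩
        refine Finset.Subset.antisymm (insert_subset hw hu.2.2) fun p hp => ?_
        have hp1 : p.1 ∈ insert v (dom t) := by
          rw [← hu.2.1]; exact mem_dom.2 ⟨p.2, hp⟩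
        rcases mem_insert.1 hp1 with h | h
        · have h3 := (hS.inj u huS p hp (v, w) hw).1 h
          rw [mem_insert]
          exact Or.inl (Prod.ext h h3)
        · obtain ⟨w', hw'⟩ := mem_dom.1 h
          have h3 := (hS.inj u huS p hp (p.1, w') (hu.2.2 hw')).1 rfl
          rw [mem_insert]
          right
          have : p = (p.1, w') := Prod.ext rfl h3
          rw [this]; exact hw'
  · by_cases htS : t ∈ S
    swap
    · rw [h0 t htS]
      symm
      refine Finset.sum_eq_zero fun v _ => h0 _ fun h => htS (hS.down _ h _ (subset_insert _ _))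
    by_cases hw : w ∈ rng t
    · obtain ⟨v₀, hv₀⟩ := mem_rng.1 hw
      rw [Finset.sum_eq_single v₀]
      · rw [insert_eq_of_mem hv₀]
      · intro v _ hv
        refine h0 _ fun h => hv ?_
        exact (hS.inj _ h (v, w) (mem_insert_self _ _) (v₀, w) (mem_insert_of_mem hv₀)).2 rfl
      · intro h; exact absurd (mem_univ _) h
    · rw [h2 (rng t) (insert w (rng t)) (subset_insert _ _) ?_ t rfl]
      swap
      · rw [card_insert_of_notMem hw]
        exact lt_of_le_of_lt (card_rng_le t) ht
      have hinj : ∀ v ∈ (univ : Finset V), ∀ v' ∈ (univ : Finset V),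
          insert (v, w) t = insert (v', w) t → v = v' := by
        intro v _ v' _ h
        have h3 : (v, w) ∈ insert (v', w) t := h ▸ mem_insert_self _ _
        rcases mem_insert.1 h3 with h4 | h4
        · exact (Prod.ext_iff.1 h4).1
        · exact absurd (mem_rng.2 ⟨v, h4⟩) hw
      rw [← Finset.sum_image (f := r) (g := fun v => insert (v, w) t) hinj]
      symm
      refine Finset.sum_subset ?_ ?_
      · intro u hu
        obtain ⟨v, -, rfl⟩ := mem_image.1 hu
        rw [mem_filter]
        refine ⟨mem_univ _, ?_, subset_insert _ _⟩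
        ext w'
        rw [mem_rng, mem_insert, mem_rng]
        constructor
        · rintro ⟨v', hv'⟩
          rcases mem_insert.1 hv' with h | h
          · exact Or.inl (Prod.ext_iff.1 h).2
          · exact Or.inr ⟨v', h⟩
        · rintro (rfl | ⟨v', h⟩)
          · exact ⟨v, mem_insert_self _ _⟩
          · exact ⟨v', mem_insert_of_mem h⟩
      · intro u hu hu'
        rw [mem_filter] at hu
        refine h0 u fun huS => hu' ?_
        have hwu : w ∈ rng u := by rw [hu.2.1]; exact mem_insert_self _ _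
        obtain ⟨v, hv⟩ := mem_rng.1 hwu
        refine mem_image.2 ⟨v, mem_univ _, ?_⟩
        refine Finset.Subset.antisymm (insert_subset hv hu.2.2) fun p hp => ?_
        have hp1 : p.2 ∈ insert w (rng t) := by
          rw [← hu.2.1]; exact mem_rng.2 ⟨p.1, hp⟩
        rcases mem_insert.1 hp1 with h | h
        · have h3 := (hS.inj u huS p hp (v, w) hv).2 h
          rw [mem_insert]
          exact Or.inl (Prod.ext h3 h)
        · obtain ⟨v', hv'⟩ := mem_rng.1 h
          have h3 := (hS.inj u huS p hp (v', p.2) (hu.2.2 hv')).2 rfl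
          rw [mem_insert]
          right
          have : p = (v', p.2) := Prod.ext h3 rfl
          rw [this]; exact hv'

section sums

variable [Fintype V] [Fintype W]

lemma sum_tuple_succ {M : Type} [AddCommMonoid M] {n : ℕ} (f : (Fin (n + 1) → W) → M) :
    ∑ z, f z = ∑ w, ∑ z : Fin n → W, f (Fin.cons w z) := by
  rw [← Fintype.sum_prod_type (f := fun p : W × (Fin n → W) => f (Fin.cons p.1 p.2))]
  exact (Fintype.sum_equiv (Fin.consEquiv fun _ => W) _ _ fun p => rfl).symm

theorem IsW.dsum {k : ℕ} {S : Set (Finset (V × W))} {r : Finset (V × W) → ℤ} (h : IsW k S r) :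
    ∀ (n : ℕ) (t : Finset (V × W)), t.card + n ≤ k → ∀ z : Fin n → V,
      r t = ∑ z' : Fin n → W, r (t ∪ zp z z') := by
  intro n
  induction n with
  | zero =>
    intro t _ z
    have h1 : ∀ z' : Fin 0 → W, r (t ∪ zp z z') = r t := by
      intro z'
      congr 1
      ext p; simp [zp]
    simp [h1]
  | succ n ih =>
    intro t ht z
    rw [sum_tuple_succ, h.dext t (by omega) (z 0)]
    refine Finset.sum_congr rfl fun w _ => ?_
    have hc := card_insert_le (z 0, w) t
    rw [ih (insert (z 0, w) t) (by omega) (Fin.tail z)]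
    refine Finset.sum_congr rfl fun z' _ => ?_
    congr 1
    rw [zp_succ z (Fin.cons w z' : Fin (n + 1) → W)]
    ext p
    simp only [Fin.cons_zero, Fin.tail_cons, mem_union, mem_insert]
    tauto

theorem IsW.rsum {k : ℕ} {S : Set (Finset (V × W))} {r : Finset (V × W) → ℤ} (h : IsW k S r) :
    ∀ (n : ℕ) (t : Finset (V × W)), t.card + n ≤ k → ∀ z' : Fin n → W,
      r t = ∑ z : Fin n → V, r (t ∪ zp z z') := by
  intro n
  induction n with
  | zero =>
    intro t _ z'
    have h1 : ∀ z : Fin 0 → V, r (t ∪ zp z z') = r t := by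
      intro z
      congr 1
      ext p; simp [zp]
    simp [h1]
  | succ n ih =>
    intro t ht z'
    rw [sum_tuple_succ, h.rext t (by omega) (z' 0)]
    refine Finset.sum_congr rfl fun v _ => ?_
    have hc := card_insert_le (v, z' 0) t
    rw [ih (insert (v, z' 0) t) (by omega) (Fin.tail z')]
    refine Finset.sum_congr rfl fun z _ => ?_
    congr 1
    rw [zp_succ (Fin.cons v z : Fin (n + 1) → V) z']
    ext p
    simp only [Fin.cons_zero, Fin.tail_cons, mem_union, mem_insert]
    tauto

end sums

/-- **The transport of solutions.** -/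
theorem transport {U Z U' Z' R : Type} [Fintype U] [Fintype Z] [Fintype U'] [Fintype Z'] [Ring R]
    (ρ : U → Z → U' → Z' → ℤ) (ρz : Z → Z' → ℤ) (ρu : U → U' → ℤ)
    (h1 : ∀ z z' u', ∑ u, ρ u z u' z' = ρz z z') (h2 : ∀ u u' z, ∑ z', ρ u z u' z' = ρu u u')
    (A : U → Z → R) (A' : U' → Z' → R)
    (hA : ∀ u z u' z', ρ u z u' z' ≠ 0 → A u z = A' u' z') (u' : U') (z : Z) :
    ∑ z', A' u' z' * (ρz z z' : R) = ∑ u, (ρu u u' : R) * A u z := by
  have e1 : ∀ z', A' u' z' * (ρz z z' : R) = ∑ u, (ρ u z u' z' : R) * A u z := by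
    intro z'
    rw [← h1 z z' u', Int.cast_sum, Finset.mul_sum]
    refine Finset.sum_congr rfl fun u _ => ?_
    by_cases h : ρ u z u' z' = 0
    · rw [h]; simp
    · rw [hA u z u' z' h]
      exact (Int.cast_commute _ _).symm.eq
  rw [Finset.sum_congr rfl fun z' _ => e1 z', Finset.sum_comm]
  refine Finset.sum_congr rfl fun u _ => ?_
  rw [← h2 u u' z, Int.cast_sum, Finset.sum_mul]

/-- transport of solutions of linear systems -/
theorem transport_sol {U Z U' Z' R : Type} [Fintype U] [Fintype Z] [Fintype U'] [Fintype Z']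
    [Ring R] (ρ : U → Z → U' → Z' → ℤ) (ρz : Z → Z' → ℤ) (ρu : U → U' → ℤ)
    (h1 : ∀ z z' u', ∑ u, ρ u z u' z' = ρz z z') (h2 : ∀ u u' z, ∑ z', ρ u z u' z' = ρu u u')
    (h3 : ∀ u', ∑ u, ρu u u' = 1)
    (A : U → Z → R) (A' : U' → Z' → R) (b : U → R) (b' : U' → R)
    (hA : ∀ u z u' z', ρ u z u' z' ≠ 0 → A u z = A' u' z')
    (hb : ∀ u u', ρu u u' ≠ 0 → b u = b' u')
    (h : ∃ x : Z → R, ∀ u, ∑ z, A u z * x z = b u) :
    ∃ x : Z' → R, ∀ u, ∑ z, A' u z * x z = b' u := by
  obtain ⟨x, hx⟩ := h
  refine ⟨fun z' => ∑ z, (ρz z z' : R) * x z, fun u' => ?_⟩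
  calc ∑ z', A' u' z' * ∑ z, (ρz z z' : R) * x z
      = ∑ z', ∑ z, A' u' z' * (ρz z z' : R) * x z := by
        simp only [Finset.mul_sum, mul_assoc]
    _ = ∑ z, (∑ z', A' u' z' * (ρz z z' : R)) * x z := by
        rw [Finset.sum_comm]
        simp only [Finset.sum_mul]
    _ = ∑ z, (∑ u, (ρu u u' : R) * A u z) * x z := by
        refine Finset.sum_congr rfl fun z _ => ?_
        rw [transport ρ ρz ρu h1 h2 A A' hA u' z]
    _ = ∑ u, (ρu u u' : R) * ∑ z, A u z * x z := by
        simp only [Finset.sum_mul, Finset.mul_sum, mul_assoc]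
        rw [Finset.sum_comm]
    _ = ∑ u, (ρu u u' : R) * b' u' := by
        refine Finset.sum_congr rfl fun u _ => ?_
        rw [hx u]
        by_cases h : ρu u u' = 0
        · rw [h]; simp
        · rw [hb u u' h]
    _ = b' u' := by
        rw [← Finset.sum_mul, ← Int.cast_sum, h3 u', Int.cast_one, one_mul]

end Pool.Agent.LWL
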